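import Pool.Agent.Helper1.MF.StrandS

/-!
Map folding, completeness: from windows to the full width.
-/

set_option autoImplicit false

namespace Pool.Agent.Helper1.MF

open Pool.Agent.Helper69.MF Pool.Agent.Helper64.MF

/-- Transfer of the properties of rows from a narrow folding to a wide one. -/
structure BW (n n' m : ℕ) (p p' : Sq → ℕ) (f f' : ℕ → ℕ) : Prop where
  ct : ∀ r < m, Contig n m p r → Contig n' m p' r
  fr : ∀ r < m, FirstRow n m p r → FirstRow n' m p' r
  lr : ∀ r < m, LastRow n m p r → LastRow n' m p' r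
  ro : ∀ r < m, r % 2 = 0 → RowOrd n p r f → RowOrd n' p' r f'

theorem BW.trans {n n' n'' m : ℕ} {p p' p'' : Sq → ℕ} {f f' f'' : ℕ → ℕ}
    (h1 : BW n n' m p p' f f') (h2 : BW n' n'' m p' p'' f' f'') : BW n n'' m p p'' f f'' :=
  ⟨fun r hr h => h2.ct r hr (h1.ct r hr h), fun r hr h => h2.fr r hr (h1.fr r hr h),
    fun r hr h => h2.lr r hr (h1.lr r hr h), fun r hr he h => h2.ro r hr he (h1.ro r hr he h)⟩

theorem piC_lt {n s t c : ℕ} (hs : s < n) (hc : c < n + t) : piC s t c < n := by
  unfold piC
  split_ifs <;> omega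

/-- The transfer for the blow-up of one column. -/
theorem bw_col {AO : Pat} {n m s t K : ℕ} {pos : Sq → ℕ} {τ : ℕ → Bool} {w f f' : ℕ → ℕ}
    (hO : Fold AO (rect n m) pos) (h : Strand τ t w) (hK : w t < K) (hs : s < n)
    (g1 : ∀ c c', c < n + t → c' < n + t → piC s t c ≠ piC s t c' →
      (f (piC s t c) < f (piC s t c') ↔ f' c < f' c'))
    (g2 : ∀ i j, i ≤ t → j ≤ t → (w i < w j ↔ f' (s + i) < f' (s + j))) :
    BW n (n + t) m pos (colPos K s t pos w) f f' := by
  have key : ∀ c c' u r : ℕ, pos (piC s t c, u) < pos (piC s t c', r) →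
      colPos K s t pos w (c, u) < colPos K s t pos w (c', r) := by
    intro c c' u r h1
    exact colPos_lt h hK h1
  refine ⟨?_, ?_, ?_, ?_⟩
  · intro r _ hc c hc1 u hu hur
    rcases hc (piC s t c) (piC_lt hs hc1) u hu hur with h1 | h1
    · exact Or.inl fun c' hc' => key _ _ _ _ (h1 _ (piC_lt hs hc'))
    · exact Or.inr fun c' hc' => key _ _ _ _ (h1 _ (piC_lt hs hc'))
  · intro r _ hc c hc1 u hu hur c' hc'
    exact key _ _ _ _ (hc _ (piC_lt hs hc1) u hu hur _ (piC_lt hs hc'))
  · intro r _ hc c hc1 u hu hur c' hc'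
    exact key _ _ _ _ (hc _ (piC_lt hs hc1) u hu hur _ (piC_lt hs hc'))
  · intro r hr he ho c hc c' hc'
    by_cases hp : piC s t c = piC s t c'
    · by_cases hcc : c = c'
      · subst hcc
        simp
      · have hne : ((c, r) : Sq) ≠ (c', r) := by
          intro e
          exact hcc (congrArg Prod.fst e)
        have hpi : pi s t ((c, r) : Sq) = pi s t (c', r) := by
          unfold pi
          simp only [hp]
        obtain ⟨⟨a1, a2⟩, ⟨b1, b2⟩, _⟩ := pi_eq_iff hpi hne
        simp only at a1 a2 b1 b2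
        rw [colPos_strand (q := (c, r)) a1 a2, colPos_strand (q := (c', r)) b1 b2]
        simp only
        have h3 := g2 (c - s) (c' - s) (by omega) (by omega)
        rw [show s + (c - s) = c by omega, show s + (c' - s) = c' by omega] at h3
        rw [← h3]
        unfold off
        rw [if_pos he, if_pos he]
        omega
    · have hne : pi s t ((c, r) : Sq) ≠ pi s t (c', r) := by
        intro e
        exact hp (congrArg Prod.fst e)
      rw [colPos_iff h hK hO hs (a := (c, r)) (b := (c', r)) ⟨hc, hr⟩ ⟨hc', hr⟩ hne]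
      unfold pi
      simp only
      rw [ho _ (piC_lt hs hc) _ (piC_lt hs hc')]
      exact g1 c c' hc hc' hp

/-- The codes after removing the blocks `a, ..., a + k - 1`. -/
def cut (a k : ℕ) (β : ℕ → ℕ) (j : ℕ) : ℕ := if j < a then β j else β (j + k)

theorem sgS_add (a j : ℕ) : sgS (12 * a + j) = sgS j := by
  unfold sgS
  rw [Nat.mul_add_mod]

theorem sgS_add' (a j : ℕ) : sgS (j + 12 * a) = sgS j := by
  rw [Nat.add_comm]
  exact sgS_add a j

theorem sp_cut (a k : ℕ) (β : ℕ → ℕ) (c : ℕ) :
    (c < 12 * a → sp (cut a k β) c = sp β c) ∧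
    (12 * a ≤ c → sp (cut a k β) c + 12 * k = sp β (c + 12 * k)) := by
  constructor
  · intro h
    unfold sp cut
    rw [if_pos (by omega)]
  · intro h
    unfold sp cut
    rw [if_neg (by omega), Nat.add_mul_mod_self_left, Nat.add_mul_div_left _ _ (by norm_num)]
    ring

/-- Insertion of `k` blocks without flips at the column `12 a`. -/
theorem blow_step {rh : ℕ → Bool} {FO F : ℕ → ℕ → Bool} {n m : ℕ} {p : Sq → ℕ} (a k : ℕ)
    (β : ℕ → ℕ) (ha : 12 * a < n) (hO : Fold (mkPat sgS rh FO) (rect n m) p)
    (f1 : ∀ c r, c < 12 * a → F c r = FO c r) (f0 : ∀ r, FO (12 * a) r = false)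
    (f2 : ∀ c r, 12 * a ≤ c → c ≤ 12 * a + 12 * k → F c r = false)
    (f3 : ∀ c r, 12 * a < c → c < n → F (c + 12 * k) r = FO c r) :
    ∃ p', Fold (mkPat sgS rh F) (rect (n + 12 * k) m) p' ∧
      BW n (n + 12 * k) m p p' (sp (cut a k β)) (sp β) := by
  have hst := strand_sp (fun j => β (a + j)) k
  have hwt : sp (fun j => β (a + j)) (12 * k) < 12 * k + 1 := by
    rw [sp_mul]
    omega
  refine ⟨colPos (12 * k + 1) (12 * a) (12 * k) p (sp (fun j => β (a + j))), ?_, ?_⟩
  · have f1' : ∀ c r, c ≤ 12 * a → F c r = FO c r := by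
      intro c r hc
      rcases Nat.lt_or_ge c (12 * a) with h | h
      · exact f1 c r h
      · have : c = 12 * a := by omega
        subst this
        rw [f0 r, f2 _ r le_rfl (by omega)]
    have f3' : ∀ c r, 12 * a ≤ c → c < n → F (c + 12 * k) r = FO c r := by
      intro c r hc hn
      rcases Nat.lt_or_ge (12 * a) c with h | h
      · exact f3 c r h hn
      · have : c = 12 * a := by omega
        subst this
        rw [f0 r, f2 _ r (by omega) le_rfl]
    refine col_fold hO hst hwt ha (by omega) ?_ ?_ ?_ ?_ ?_ ?_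
    · intro c r hc _
      simp only [mkPat]
      rw [f1' c r (by omega), f1' (c + 1) r (by omega)]
    · intro j r hj _
      simp only [mkPat]
      rw [f2 (12 * a + j) r (by omega) (by omega), f2 (12 * a + j + 1) r (by omega) (by omega),
        sgS_add]
      simp
    · intro c r hc hc2 _
      simp only [mkPat]
      rw [f3' c r (by omega) (by omega), show c + 12 * k + 1 = c + 1 + 12 * k by ring,
        f3' (c + 1) r (by omega) (by omega), sgS_add']
    · intro c r hc _
      simp only [mkPat]
      rw [f1' c r (by omega), f1' c (r + 1) (by omega)]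
    · intro j r hj _
      simp only [mkPat]
      rw [f2 (12 * a + j) r (by omega) (by omega), f2 (12 * a + j) (r + 1) (by omega) (by omega),
        f0, f0]
    · intro c r hc hc2 _
      simp only [mkPat]
      rw [f3' c r (by omega) (by omega), f3' c (r + 1) (by omega) (by omega)]
  · refine bw_col hO hst hwt ha ?_ ?_
    · -- comparison of the orders
      have lo : ∀ c, c < 12 * a → sp β c < 12 * a := by
        intro c hc
        have := sp_block β c
        omega
      have md : ∀ c, 12 * a ≤ c → c ≤ 12 * a + 12 * k →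
          12 * a ≤ sp β c ∧ sp β c ≤ 12 * a + 12 * k := by
        intro c h1 h2
        have h3 := sp_block β c
        rcases Nat.lt_or_ge c (12 * a + 12 * k) with h4 | h4
        · omega
        · have h5 : c = 12 * (a + k) := by omega
          have h6 := sp_mul β (a + k)
          rw [← h5] at h6
          omega
      have hi : ∀ c, 12 * a + 12 * k < c → 12 * a + 12 * k < sp β c := by
        intro c h1
        have h3 := sp_block β c
        have h6 := sp_mul β (a + k)
        have h7 : sp β c ≠ 12 * (a + k) := by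
          intro h8
          have := sp_inj β (h8.trans h6.symm)
          omega
        omega
      have val : ∀ c, (c < 12 * a ∧ sp (cut a k β) (piC (12 * a) (12 * k) c) = sp β c ∧
            sp β c < 12 * a ∧ piC (12 * a) (12 * k) c = c) ∨
          ((12 * a ≤ c ∧ c ≤ 12 * a + 12 * k) ∧
            sp (cut a k β) (piC (12 * a) (12 * k) c) = 12 * a ∧
            (12 * a ≤ sp β c ∧ sp β c ≤ 12 * a + 12 * k) ∧ piC (12 * a) (12 * k) c = 12 * a) ∨
          (12 * a + 12 * k < c ∧
            sp (cut a k β) (piC (12 * a) (12 * k) c) + 12 * k = sp β c ∧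
            12 * a + 12 * k < sp β c ∧ piC (12 * a) (12 * k) c = c - 12 * k) := by
        intro c
        rcases Nat.lt_or_ge c (12 * a) with h1 | h1
        · left
          have e : piC (12 * a) (12 * k) c = c := by
            unfold piC
            rw [if_pos h1]
          rw [e]
          exact ⟨h1, (sp_cut a k β c).1 h1, lo c h1, rfl⟩
        · rcases Nat.lt_or_ge (12 * a + 12 * k) c with h2 | h2
          · right; right
            have e : piC (12 * a) (12 * k) c = c - 12 * k := by
              unfold piC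
              rw [if_neg (by omega), if_neg (by omega)]
            rw [e]
            refine ⟨h2, ?_, hi c h2, rfl⟩
            rw [(sp_cut a k β (c - 12 * k)).2 (by omega), show c - 12 * k + 12 * k = c by omega]
          · right; left
            have e : piC (12 * a) (12 * k) c = 12 * a := by
              unfold piC
              rw [if_neg (by omega), if_pos h2]
            rw [e]
            exact ⟨⟨h1, h2⟩, sp_mul _ a, md c h1 h2, rfl⟩
      intro c c' _ _ hne
      rcases val c with ⟨a1, a2, a3, a4⟩ | ⟨a1, a2, a3, a4⟩ | ⟨a1, a2, a3, a4⟩ <;>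
        rcases val c' with ⟨b1, b2, b3, b4⟩ | ⟨b1, b2, b3, b4⟩ | ⟨b1, b2, b3, b4⟩ <;> omega
    · intro i j _ _
      rw [sp_shift β a i, sp_shift β a j]
      omega

/-! ### The three forms of windows -/

theorem rowOrd_congr {n r : ℕ} {p : Sq → ℕ} {f f' : ℕ → ℕ} (h : RowOrd n p r f)
    (hf : ∀ c, c < n → f c = f' c) : RowOrd n p r f' := by
  intro c hc c' hc'
  rw [h c hc c' hc', hf c hc, hf c' hc']

/-- No gadget. -/
theorem blow0 {rh : ℕ → Bool} {m : ℕ} {p : Sq → ℕ} (K : ℕ) (β : ℕ → ℕ)
    (hO : Fold (mkPat sgS rh F0) (rect 1 m) p) :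
    ∃ p', Fold (mkPat sgS rh F0) (rect (12 * K + 1) m) p' ∧
      BW 1 (12 * K + 1) m p p' (fun _ => 0) (sp β) := by
  obtain ⟨p', h1, h2⟩ := blow_step (F := F0) 0 K β (by omega) hO (fun c r h => by omega)
    (fun _ => rfl) (fun _ _ _ _ => rfl) (fun _ _ _ _ => rfl)
  rw [Nat.add_comm 1 (12 * K)] at h1 h2
  refine ⟨p', h1, h2.ct, h2.fr, h2.lr, fun r hr he h => h2.ro r hr he ?_⟩
  intro c hc c' hc'
  have : c = c' := by omega
  subst this
  simp

/-- One gadget. -/
theorem blow1 {rh : ℕ → Bool} {G : ℕ → ℕ → Bool} {m : ℕ} {p : Sq → ℕ} (K b : ℕ) (hb : b < K)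
    (β : ℕ → ℕ) (hG : ∀ r, G 0 r = false)
    (hO : Fold (mkPat sgS rh (F1 0 G)) (rect 13 m) p) :
    ∃ p', Fold (mkPat sgS rh (F1 b G)) (rect (12 * K + 1) m) p' ∧
      BW 13 (12 * K + 1) m p p' (fun c => (Wt (β b) ++ [12]).getD c 0) (sp β) := by
  have hz : ∀ (b c r : ℕ), F1 b G (12 * c) r = false := by
    intro b c r
    unfold F1
    rw [Nat.mul_mod_right, hG r, Bool.and_false]
  obtain ⟨p1, h1, h2⟩ := blow_step (F := F1 0 G) 1 (K - 1 - b) (fun k => β (b + k)) (by omega) hO
    (fun _ _ _ => rfl) (fun r => hz 0 1 r)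
    (fun c r g1 g2 => by
      unfold F1
      have : c / 12 ≠ 0 := by omega
      simp [this])
    (fun c r g1 g2 => by
      unfold F1
      have e1 : (c + 12 * (K - 1 - b)) / 12 ≠ 0 := by omega
      have e2 : c / 12 ≠ 0 := by omega
      rw [beq_false_of_ne e1, beq_false_of_ne e2, Bool.false_and, Bool.false_and])
  obtain ⟨p2, h3, h4⟩ := blow_step (F := F1 b G) 0 b β (by omega) h1 (fun c r h => by omega)
    (fun r => hz 0 0 r)
    (fun c r g1 g2 => by
      by_cases hc : c = 12 * b
      · subst hc
        exact hz b b r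
      · unfold F1
        have : c / 12 ≠ b := by omega
        simp [this])
    (fun c r g1 g2 => by
      unfold F1
      rw [Nat.add_mul_mod_self_left, Nat.add_mul_div_left _ _ (by norm_num)]
      have : (c / 12 + b == b) = (c / 12 == 0) := by
        rw [Bool.eq_iff_iff, beq_iff_eq, beq_iff_eq]
        omega
      rw [this])
  have hcut : cut 0 b β = fun k => β (b + k) := by
    funext k
    unfold cut
    rw [if_neg (by omega), Nat.add_comm]
  rw [hcut] at h4
  have h5 := h2.trans h4
  have e : 13 + 12 * (K - 1 - b) + 12 * b = 12 * K + 1 := by omega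
  rw [e] at h3 h5
  refine ⟨p2, h3, h5.ct, h5.fr, h5.lr, fun r hr he h => h5.ro r hr he ?_⟩
  refine rowOrd_congr h (fun c hc => ?_)
  unfold sp cut
  rcases Nat.lt_or_ge c 12 with h6 | h6
  · rw [Nat.div_eq_of_lt h6, Nat.mod_eq_of_lt h6, if_pos (by omega)]
    simp only [Nat.add_zero, Nat.mul_zero, Nat.zero_add]
    match β b with
    | 0 => interval_cases c <;> rfl
    | 1 => interval_cases c <;> rfl
    | 2 => interval_cases c <;> rfl
    | (_ + 3) => interval_cases c <;> rfl
  · have : c = 12 := by omega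
    subst this
    have h7 : ∀ z, (Wt z).getD (12 % 12) 0 = 0 := by
      intro z
      match z with
      | 0 => rfl
      | 1 => rfl
      | 2 => rfl
      | (_ + 3) => rfl
    rw [h7]
    match β b with
    | 0 => rfl
    | 1 => rfl
    | 2 => rfl
    | (_ + 3) => rfl

/-- Two gadgets. -/
theorem blow2 {rh : ℕ → Bool} {G G' : ℕ → ℕ → Bool} {m : ℕ} {p : Sq → ℕ} (K b b' : ℕ)
    (hbb : b < b') (hb : b' < K) (β : ℕ → ℕ) (hG : ∀ r, G 0 r = false)
    (hG' : ∀ r, G' 0 r = false)
    (hO : Fold (mkPat sgS rh (F2 0 1 G G')) (rect 25 m) p) :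
    ∃ p', Fold (mkPat sgS rh (F2 b b' G G')) (rect (12 * K + 1) m) p' ∧
      BW 25 (12 * K + 1) m p p'
        (fun c => (Wt (β b) ++ (Wt (β b')).map (12 + ·) ++ [24]).getD c 0) (sp β) := by
  have hz : ∀ (b b' c r : ℕ), F2 b b' G G' (12 * c) r = false := by
    intro b b' c r
    unfold F2
    rw [Nat.mul_mod_right, hG r, hG' r, Bool.and_false, Bool.and_false, Bool.or_false]
  obtain ⟨p1, h1, h2⟩ := blow_step (F := F2 0 1 G G') 2 (K - 1 - b')
    (cut 1 (b' - b - 1) (fun k => β (b + k))) (by omega) hO
    (fun _ _ _ => rfl) (fun r => hz 0 1 2 r)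
    (fun c r g1 g2 => by
      unfold F2
      have e1 : c / 12 ≠ 0 := by omega
      have e2 : c / 12 ≠ 1 := by omega
      simp [e1, e2])
    (fun c r g1 g2 => by
      unfold F2
      have e1 : (c + 12 * (K - 1 - b')) / 12 ≠ 0 := by omega
      have e2 : (c + 12 * (K - 1 - b')) / 12 ≠ 1 := by omega
      have e3 : c / 12 ≠ 0 := by omega
      have e4 : c / 12 ≠ 1 := by omega
      rw [beq_false_of_ne e1, beq_false_of_ne e2, beq_false_of_ne e3, beq_false_of_ne e4]
      simp only [Bool.false_and])
  obtain ⟨p2, h3, h4⟩ := blow_step (F := F2 0 (b' - b) G G') 1 (b' - b - 1)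
    (fun k => β (b + k)) (by omega) h1
    (fun c r g1 => by
      unfold F2
      have e1 : c / 12 ≠ b' - b := by omega
      have e2 : c / 12 ≠ 1 := by omega
      rw [beq_false_of_ne e1, beq_false_of_ne e2])
    (fun r => hz 0 1 1 r)
    (fun c r g1 g2 => by
      by_cases hc : c = 12 * (b' - b)
      · subst hc
        exact hz _ _ _ r
      · unfold F2
        have e1 : c / 12 ≠ b' - b := by omega
        have e2 : c / 12 ≠ 0 := by omega
        rw [beq_false_of_ne e1, beq_false_of_ne e2]
        simp only [Bool.false_and, Bool.or_false])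
    (fun c r g1 g2 => by
      unfold F2
      rw [Nat.add_mul_mod_self_left, Nat.add_mul_div_left _ _ (by norm_num)]
      have e1 : (c / 12 + (b' - b - 1) == 0) = (c / 12 == 0) := by
        rw [Bool.eq_iff_iff, beq_iff_eq, beq_iff_eq]
        omega
      have e2 : (c / 12 + (b' - b - 1) == b' - b) = (c / 12 == 1) := by
        rw [Bool.eq_iff_iff, beq_iff_eq, beq_iff_eq]
        omega
      rw [e1, e2])
  obtain ⟨p3, h5, h6⟩ := blow_step (F := F2 b b' G G') 0 b β (by omega) h3
    (fun c r h => by omega)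
    (fun r => hz _ _ 0 r)
    (fun c r g1 g2 => by
      by_cases hc : c = 12 * b
      · subst hc
        exact hz _ _ _ r
      · unfold F2
        have e1 : c / 12 ≠ b := by omega
        have e2 : c / 12 ≠ b' := by omega
        rw [beq_false_of_ne e1, beq_false_of_ne e2]
        simp only [Bool.false_and, Bool.or_false])
    (fun c r g1 g2 => by
      unfold F2
      rw [Nat.add_mul_mod_self_left, Nat.add_mul_div_left _ _ (by norm_num)]
      have e1 : (c / 12 + b == b) = (c / 12 == 0) := by
        rw [Bool.eq_iff_iff, beq_iff_eq, beq_iff_eq]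
        omega
      have e2 : (c / 12 + b == b') = (c / 12 == b' - b) := by
        rw [Bool.eq_iff_iff, beq_iff_eq, beq_iff_eq]
        omega
      rw [e1, e2])
  have hcut : cut 0 b β = fun k => β (b + k) := by
    funext k
    unfold cut
    rw [if_neg (by omega), Nat.add_comm]
  rw [hcut] at h6
  have h7 := (h2.trans h4).trans h6
  have e : 25 + 12 * (K - 1 - b') + 12 * (b' - b - 1) + 12 * b = 12 * K + 1 := by omega
  rw [e] at h5 h7
  refine ⟨p3, h5, h7.ct, h7.fr, h7.lr, fun r hr he h => h7.ro r hr he ?_⟩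
  refine rowOrd_congr h (fun c hc => ?_)
  have q0 : cut 2 (K - 1 - b') (cut 1 (b' - b - 1) (fun k => β (b + k))) 0 = β b := by
    unfold cut
    rw [if_pos (by omega), if_pos (by omega)]
    simp only [Nat.add_zero]
  have q1 : cut 2 (K - 1 - b') (cut 1 (b' - b - 1) (fun k => β (b + k))) 1 = β b' := by
    unfold cut
    rw [if_pos (by omega), if_neg (by omega)]
    change β (b + (1 + (b' - b - 1))) = β b'
    rw [show b + (1 + (b' - b - 1)) = b' by omega]
  have hWt : ∀ z, (Wt z).length = 12 := by
    intro z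
    match z with
    | 0 => rfl
    | 1 => rfl
    | 2 => rfl
    | (_ + 3) => rfl
  have hW0 : ∀ z, (Wt z).getD 0 0 = 0 := by
    intro z
    match z with
    | 0 => rfl
    | 1 => rfl
    | 2 => rfl
    | (_ + 3) => rfl
  unfold sp
  rcases Nat.lt_or_ge c 12 with h8 | h8
  · rw [Nat.div_eq_of_lt h8, Nat.mod_eq_of_lt h8, q0, Nat.mul_zero, Nat.zero_add,
      List.append_assoc, List.getD_append _ _ _ _ (by rw [hWt]; exact h8)]
  · rcases Nat.lt_or_ge c 24 with h9 | h9
    · have d1 : c / 12 = 1 := by omega
      have d2 : c % 12 = c - 12 := by omega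
      rw [d1, d2, q1, List.append_assoc, List.getD_append_right _ _ _ _ (by rw [hWt]; exact h8),
        List.getD_append _ _ _ _ (by rw [List.length_map, hWt, hWt]; omega), hWt]
      have h10 : c - 12 < (Wt (β b')).length := by rw [hWt]; omega
      rw [List.getD_eq_getElem _ _ (by rw [List.length_map]; exact h10), List.getElem_map,
        List.getD_eq_getElem _ _ h10]
    · have : c = 24 := by omega
      subst this
      rw [hW0, List.getD_append_right _ _ _ _ (by
        rw [List.length_append, List.length_map, hWt, hWt])]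
      rw [List.length_append, List.length_map, hWt, hWt]
      rfl

end Pool.Agent.Helper1.MF
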