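import Pool.Agent.Helper69.MF.Core

/-!
Map folding: a column without flips may be replaced by an odd number of columns without flips.
-/

set_option autoImplicit false

namespace Pool.Agent.Helper1.MF

open Pool.Agent.Helper69.MF

/-- `w` is a folding of the strip of the squares `0, ..., t` with the pattern `τ`, the first square
is the lowest one and the last square is the highest one. -/
structure Strand (τ : ℕ → Bool) (t : ℕ) (w : ℕ → ℕ) : Prop where
  inj : ∀ i j, i ≤ t → j ≤ t → w i = w j → i = j
  dir : ∀ i, i < t → (if τ i = true then w i < w (i + 1) else w (i + 1) < w i)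
  nc : ∀ i j a b c d, i < t → j < t → i % 2 = j % 2 →
    (a = i ∧ b = i + 1 ∨ a = i + 1 ∧ b = i) → (c = j ∧ d = j + 1 ∨ c = j + 1 ∧ d = j) →
    ¬ (w a < w c ∧ w c < w b ∧ w b < w d)
  lo : ∀ i, i ≤ t → w 0 ≤ w i
  hi : ∀ i, i ≤ t → w i ≤ w t

/-- Position inside the strand of row `r`. -/
def off (w : ℕ → ℕ) (t r j : ℕ) : ℕ := if r % 2 = 0 then w j else w t - w j

section off

variable {τ : ℕ → Bool} {t K : ℕ} {w : ℕ → ℕ}

theorem off_lt (h : Strand τ t w) (hK : w t < K) {r j : ℕ} (hj : j ≤ t) : off w t r j < K := by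
  have := h.hi j hj
  unfold off
  split_ifs <;> omega

theorem off_inj (h : Strand τ t w) {r i j : ℕ} (hi : i ≤ t) (hj : j ≤ t)
    (he : off w t r i = off w t r j) : i = j := by
  have h1 := h.hi i hi
  have h2 := h.hi j hj
  apply h.inj i j hi hj
  unfold off at he
  split_ifs at he <;> omega

theorem off_nc (h : Strand τ t w) {r i j a b c d : ℕ} (hi : i < t) (hj : j < t)
    (hp : i % 2 = j % 2) (h1 : a = i ∧ b = i + 1 ∨ a = i + 1 ∧ b = i)
    (h2 : c = j ∧ d = j + 1 ∨ c = j + 1 ∧ d = j) :
    ¬ (off w t r a < off w t r c ∧ off w t r c < off w t r b ∧ off w t r b < off w t r d) := by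
  have ha := h.hi a (by omega)
  have hb := h.hi b (by omega)
  have hc := h.hi c (by omega)
  have hd := h.hi d (by omega)
  unfold off
  split_ifs with hr
  · exact h.nc i j a b c d hi hj hp h1 h2
  · intro h3
    refine h.nc j i d c b a hj hi hp.symm (by omega) (by omega) ⟨by omega, by omega, by omega⟩

theorem off_ext0 (h : Strand τ t w) {r a b : ℕ} (ha : a ≤ t) (hb : b ≤ t) :
    ¬ (off w t r a < off w t r 0 ∧ off w t r 0 < off w t r b) := by
  have h1 := h.lo a ha
  have h2 := h.lo b hb
  have h3 := h.hi a ha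
  have h4 := h.hi b hb
  have h5 := h.hi 0 (Nat.zero_le _)
  unfold off
  split_ifs <;> omega

theorem off_extt (h : Strand τ t w) {r a b : ℕ} (ha : a ≤ t) (hb : b ≤ t) :
    ¬ (off w t r a < off w t r t ∧ off w t r t < off w t r b) := by
  have h3 := h.hi a ha
  have h4 := h.hi b hb
  unfold off
  split_ifs <;> omega

theorem off_rev (h : Strand τ t w) {r a b : ℕ} (ha : a ≤ t) (hb : b ≤ t)
    (h1 : off w t r a < off w t r b) : ¬ off w t (r + 1) a < off w t (r + 1) b := by
  have h3 := h.hi a ha
  have h4 := h.hi b hb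
  unfold off at h1 ⊢
  split_ifs at h1 ⊢ <;> omega

end off

/-- The column of the old sheet which contains the column `c` of the new one. -/
def piC (s t c : ℕ) : ℕ := if c < s then c else if c ≤ s + t then s else c - t

/-- Projection to the old sheet. -/
def pi (s t : ℕ) (q : Sq) : Sq := (piC s t q.1, q.2)

/-- The new position function. -/
def colPos (K s t : ℕ) (pos : Sq → ℕ) (w : ℕ → ℕ) (q : Sq) : ℕ :=
  K * pos (pi s t q) + (if s ≤ q.1 ∧ q.1 ≤ s + t then off w t q.2 (q.1 - s) else 0)

section

variable {A AO : Pat} {n m s t K : ℕ} {pos : Sq → ℕ} {τ : ℕ → Bool} {w : ℕ → ℕ}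

theorem pi_mem (hs : s < n) {q : Sq} (hq : q ∈ rect (n + t) m) : pi s t q ∈ rect n m := by
  obtain ⟨h1, h2⟩ := hq
  refine ⟨?_, h2⟩
  unfold pi piC
  simp only
  split_ifs <;> omega

theorem colOff_lt (h : Strand τ t w) (hK : w t < K) (q : Sq) :
    (if s ≤ q.1 ∧ q.1 ≤ s + t then off w t q.2 (q.1 - s) else 0) < K := by
  split_ifs with h1
  · exact off_lt h hK (by omega)
  · omega

theorem colPos_lt (h : Strand τ t w) (hK : w t < K) {a b : Sq} (hab : pos (pi s t a) < pos (pi s t b)) :
    colPos K s t pos w a < colPos K s t pos w b := by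
  have h1 := colOff_lt (s := s) h hK a
  unfold colPos
  have h2 : K * pos (pi s t a) + K ≤ K * pos (pi s t b) := by
    rw [← Nat.mul_succ]
    exact Nat.mul_le_mul_left K hab
  omega

/-- Between two squares of one strand there are only squares of the strand. -/
theorem colPos_le (h : Strand τ t w) (hK : w t < K) {a b : Sq}
    (hab : colPos K s t pos w a < colPos K s t pos w b) : pos (pi s t a) ≤ pos (pi s t b) := by
  by_contra hc
  push Not at hc
  have := colPos_lt (K := K) h hK hc
  omega

theorem colPos_iff (h : Strand τ t w) (hK : w t < K) (hO : Fold AO (rect n m) pos) (hs : s < n)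
    {a b : Sq} (ha : a ∈ rect (n + t) m) (hb : b ∈ rect (n + t) m) (hne : pi s t a ≠ pi s t b) :
    colPos K s t pos w a < colPos K s t pos w b ↔ pos (pi s t a) < pos (pi s t b) := by
  constructor
  · intro h1
    have h2 := colPos_le h hK h1
    rcases Nat.lt_or_ge (pos (pi s t a)) (pos (pi s t b)) with h3 | h3
    · exact h3
    · exact absurd (hO.inj _ (pi_mem hs ha) _ (pi_mem hs hb) (le_antisymm h2 h3)) hne
  · exact colPos_lt h hK

theorem pi_eq_iff {a b : Sq} (h : pi s t a = pi s t b) (hne : a ≠ b) :
    (s ≤ a.1 ∧ a.1 ≤ s + t) ∧ (s ≤ b.1 ∧ b.1 ≤ s + t) ∧ a.2 = b.2 := by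
  obtain ⟨a1, a2⟩ := a
  obtain ⟨b1, b2⟩ := b
  simp only [pi, piC, Prod.mk.injEq] at h
  obtain ⟨h1, rfl⟩ := h
  have hne' : a1 ≠ b1 := fun e => hne (by rw [e])
  refine ⟨⟨?_, ?_⟩, ⟨?_, ?_⟩, rfl⟩ <;> simp only <;> split_ifs at h1 <;> omega

theorem pi_in {c r : ℕ} (h1 : s ≤ c) (h2 : c ≤ s + t) : pi s t (c, r) = (s, r) := by
  unfold pi piC
  rw [if_neg (by simp only; omega), if_pos h2]

theorem pi_out {c r r' : ℕ} (h : pi s t (c, r) = (s, r')) : s ≤ c ∧ c ≤ s + t ∧ r = r' := by
  simp only [pi, piC, Prod.mk.injEq] at h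
  obtain ⟨h1, rfl⟩ := h
  refine ⟨?_, ?_, rfl⟩ <;> split_ifs at h1 <;> omega

theorem pi_lo_hi (A : Pat) {c r : ℕ} (h1 : s ≤ c) (h2 : c < s + t) :
    pi s t (A.lo ⟨false, c, r⟩) = (s, r) ∧ pi s t (A.hi ⟨false, c, r⟩) = (s, r) := by
  have e1 : pi s t (Cr.fst ⟨false, c, r⟩) = (s, r) := pi_in h1 h2.le
  have e2 : pi s t (Cr.snd ⟨false, c, r⟩) = (s, r) := pi_in (c := c + 1) (by omega) (by omega)
  unfold Pat.lo Pat.hi
  cases A.dir ⟨false, c, r⟩
  · simp only [Bool.false_eq_true, if_false]
    exact ⟨e2, e1⟩
  · simp only [if_true]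
    exact ⟨e1, e2⟩

theorem colPos_strand {q : Sq} (h1 : s ≤ q.1) (h2 : q.1 ≤ s + t) :
    colPos K s t pos w q = K * pos (s, q.2) + off w t q.2 (q.1 - s) := by
  have h3 : pi s t q = (s, q.2) := by
    unfold pi piC
    rw [if_neg (by omega), if_pos h2]
  unfold colPos
  rw [if_pos ⟨h1, h2⟩, h3]

/-- An external crease comes from a crease of the old sheet. -/
theorem ext_crease (hs : s < n) (ht : t % 2 = 0)
    (h1 : ∀ c r, c < s → r < m → A.H c r = AO.H c r)
    (h3 : ∀ c r, s ≤ c → c + 1 < n → r < m → A.H (c + t) r = AO.H c r)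
    (v1 : ∀ c r, c < s → r + 1 < m → A.V c r = AO.V c r)
    (v2 : ∀ j r, j ≤ t → r + 1 < m → A.V (s + j) r = AO.V s r)
    (v3 : ∀ c r, s < c → c < n → r + 1 < m → A.V (c + t) r = AO.V c r)
    (x : Cr) (hx : x.In (rect (n + t) m)) (he : ¬ (x.k = false ∧ s ≤ x.c ∧ x.c < s + t)) :
    ∃ y : Cr, y.In (rect n m) ∧ y.page = x.page ∧ AO.lo y = pi s t (A.lo x) ∧
      AO.hi y = pi s t (A.hi x) ∧ pi s t (A.lo x) ≠ pi s t (A.hi x) := by
  obtain ⟨k, c, r⟩ := x
  obtain ⟨hx1, hx2⟩ := hx
  cases k
  · -- horizontal neighbours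
    simp only [Cr.fst, Cr.snd, Bool.false_eq_true, if_false, rect, Set.mem_ofPred_eq] at hx1 hx2
    simp only [true_and, not_and, not_lt] at he
    by_cases hc : c < s
    · refine ⟨⟨false, c, r⟩, ?_, rfl, ?_⟩
      · simp only [Cr.In, Cr.fst, Cr.snd, Bool.false_eq_true, if_false, rect, Set.mem_ofPred_eq]
        omega
      · have e := h1 c r hc hx1.2
        have p1 : piC s t c = c := by unfold piC; rw [if_pos hc]
        have p2 : piC s t (c + 1) = c + 1 := by
          unfold piC
          split_ifs <;> omega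
        simp only [Pat.lo, Pat.hi, Pat.dir, Bool.false_eq_true, if_false, Cr.fst, Cr.snd, e]
        cases AO.H c r
        · simp only [Bool.false_eq_true, if_false, pi, p1, p2, Prod.mk.injEq, true_and, ne_eq]
          omega
        · simp only [if_true, pi, p1, p2, Prod.mk.injEq, true_and, ne_eq]
          omega
    · have hc' : s + t ≤ c := he (by omega)
      obtain ⟨c', rfl⟩ : ∃ c', c = c' + t := ⟨c - t, by omega⟩
      refine ⟨⟨false, c', r⟩, ?_, ?_, ?_⟩
      · simp only [Cr.In, Cr.fst, Cr.snd, Bool.false_eq_true, if_false, rect, Set.mem_ofPred_eq]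
        omega
      · simp only [Cr.page, Bool.false_eq_true, if_false, Prod.mk.injEq, true_and]
        omega
      · have e := h3 c' r (by omega) (by omega) hx1.2
        have p1 : piC s t (c' + t) = c' := by
          unfold piC
          split_ifs <;> omega
        have p2 : piC s t (c' + t + 1) = c' + 1 := by
          unfold piC
          split_ifs <;> omega
        simp only [Pat.lo, Pat.hi, Pat.dir, Bool.false_eq_true, if_false, Cr.fst, Cr.snd, e]
        cases AO.H c' r
        · simp only [Bool.false_eq_true, if_false, pi, p1, p2, Prod.mk.injEq, true_and, ne_eq]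
          omega
        · simp only [if_true, pi, p1, p2, Prod.mk.injEq, true_and, ne_eq]
          omega
  · -- vertical neighbours
    simp only [Cr.fst, Cr.snd, if_true, rect, Set.mem_ofPred_eq] at hx1 hx2
    have key : A.V c r = AO.V (piC s t c) r ∧ piC s t c < n := by
      unfold piC
      split_ifs with g1 g2
      · exact ⟨v1 c r g1 hx2.2, by omega⟩
      · obtain ⟨j, rfl⟩ : ∃ j, c = s + j := ⟨c - s, by omega⟩
        exact ⟨v2 j r (by omega) hx2.2, hs⟩
      · obtain ⟨c', rfl⟩ : ∃ c', c = c' + t := ⟨c - t, by omega⟩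
        rw [Nat.add_sub_cancel]
        exact ⟨v3 c' r (by omega) (by omega) hx2.2, by omega⟩
    refine ⟨⟨true, piC s t c, r⟩, ?_, ?_, ?_⟩
    · simp only [Cr.In, Cr.fst, Cr.snd, if_true, rect, Set.mem_ofPred_eq]
      omega
    · simp only [Cr.page, if_true]
    · simp only [Pat.lo, Pat.hi, Pat.dir, if_true, Cr.fst, Cr.snd, key.1]
      cases AO.V (piC s t c) r
      · simp only [Bool.false_eq_true, if_false, pi, Prod.mk.injEq, true_and, ne_eq]
        omega
      · simp only [if_true, pi, Prod.mk.injEq, true_and, ne_eq]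
        omega

theorem lo_hi_mem {A : Pat} {R : Set Sq} {x : Cr} (hx : x.In R) : A.lo x ∈ R ∧ A.hi x ∈ R := by
  unfold Pat.lo Pat.hi
  cases A.dir x
  · simp only [Bool.false_eq_true, if_false]
    exact ⟨hx.2, hx.1⟩
  · simp only [if_true]
    exact hx

/-- The squares of a crease. -/
theorem lo_hi_cases (A : Pat) (x : Cr) :
    (A.lo x = x.fst ∧ A.hi x = x.snd) ∨ (A.lo x = x.snd ∧ A.hi x = x.fst) := by
  unfold Pat.lo Pat.hi
  cases A.dir x
  · right; simp
  · left; simp

/-- Replacing a column without flips by an odd number of columns without flips. -/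
theorem col_fold (hO : Fold AO (rect n m) pos) (h : Strand τ t w) (hK : w t < K) (hs : s < n)
    (ht : t % 2 = 0)
    (h1 : ∀ c r, c < s → r < m → A.H c r = AO.H c r)
    (h2 : ∀ j r, j < t → r < m → A.H (s + j) r = xor (τ j) (r % 2 == 1))
    (h3 : ∀ c r, s ≤ c → c + 1 < n → r < m → A.H (c + t) r = AO.H c r)
    (v1 : ∀ c r, c < s → r + 1 < m → A.V c r = AO.V c r)
    (v2 : ∀ j r, j ≤ t → r + 1 < m → A.V (s + j) r = AO.V s r)
    (v3 : ∀ c r, s < c → c < n → r + 1 < m → A.V (c + t) r = AO.V c r) :
    Fold A (rect (n + t) m) (colPos K s t pos w) := by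
  have hK0 : 0 < K := by omega
  refine ⟨?_, ?_, ?_⟩
  · -- injectivity
    intro a ha b hb he
    by_contra hne
    by_cases hpi : pi s t a = pi s t b
    · obtain ⟨⟨a1, a2⟩, ⟨b1, b2⟩, hr⟩ := pi_eq_iff hpi hne
      rw [colPos_strand a1 a2, colPos_strand b1 b2, hr] at he
      have h4 := off_inj h (r := b.2) (i := a.1 - s) (j := b.1 - s) (by omega) (by omega) (by omega)
      exact hne (Prod.ext (by omega) hr)
    · rcases Nat.lt_trichotomy (pos (pi s t a)) (pos (pi s t b)) with h4 | h4 | h4
      · have := colPos_lt (K := K) h hK h4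
        omega
      · exact hpi (hO.inj _ (pi_mem hs ha) _ (pi_mem hs hb) h4)
      · have := colPos_lt (K := K) h hK h4
        omega
  · -- directions
    intro x hx
    by_cases he : x.k = false ∧ s ≤ x.c ∧ x.c < s + t
    · obtain ⟨k, c, r⟩ := x
      simp only at he
      obtain ⟨rfl, hc1, hc2⟩ := he
      obtain ⟨j, rfl⟩ : ∃ j, c = s + j := ⟨c - s, by omega⟩
      obtain ⟨hx1, hx2⟩ := hx
      simp only [Cr.fst, Cr.snd, Bool.false_eq_true, if_false, rect, Set.mem_ofPred_eq] at hx1 hx2
      have e := h2 j r (by omega) hx1.2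
      have hd := h.dir j (by omega)
      have b1 := h.hi j (by omega)
      have b2 := h.hi (j + 1) (by omega)
      simp only [Pat.lo, Pat.hi, Pat.dir, Bool.false_eq_true, if_false, Cr.fst, Cr.snd, e]
      have q1 : colPos K s t pos w (s + j, r) = K * pos (s, r) + off w t r j := by
        rw [colPos_strand (by simp) (by simp only; omega)]
        simp
      have q2 : colPos K s t pos w (s + j + 1, r) = K * pos (s, r) + off w t r (j + 1) := by
        rw [colPos_strand (by simp only; omega) (by simp only; omega)]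
        simp only [Nat.add_assoc, Nat.add_sub_cancel_left]
      have h5 : (r % 2 == 1) = !decide (r % 2 = 0) := by
        rcases Nat.mod_two_eq_zero_or_one r with h6 | h6 <;> simp [h6]
      rw [h5]
      by_cases hr : r % 2 = 0
      · cases hτ : τ j
        · rw [hτ] at hd
          simp only [hr, decide_true, Bool.not_true, Bool.xor_false, Bool.false_eq_true, if_false]
            at hd ⊢
          rw [q1, q2]
          unfold off
          rw [if_pos hr, if_pos hr]
          omega
        · rw [hτ] at hd
          simp only [hr, decide_true, Bool.not_true, Bool.xor_false, if_true] at hd ⊢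
          rw [q1, q2]
          unfold off
          rw [if_pos hr, if_pos hr]
          omega
      · cases hτ : τ j
        · rw [hτ] at hd
          simp only [hr, decide_false, Bool.not_false, Bool.xor_true, Bool.false_eq_true, if_false,
            if_true] at hd ⊢
          rw [q1, q2]
          unfold off
          rw [if_neg hr, if_neg hr]
          omega
        · rw [hτ] at hd
          simp only [hr, decide_false, Bool.not_false, Bool.xor_true, Bool.not_true,
            Bool.false_eq_true, if_false, if_true] at hd ⊢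
          rw [q1, q2]
          unfold off
          rw [if_neg hr, if_neg hr]
          omega
    · obtain ⟨y, hy, _, hlo, hhi, _⟩ := ext_crease hs ht h1 h3 v1 v2 v3 x hx he
      have := hO.dir y hy
      rw [hlo, hhi] at this
      exact colPos_lt h hK this
  · -- noncrossing
    intro x y hx hy hp hcr
    obtain ⟨g1, g2, g3⟩ := hcr
    have mx := lo_hi_mem (A := A) hx
    have my := lo_hi_mem (A := A) hy
    by_cases hex : x.k = false ∧ s ≤ x.c ∧ x.c < s + t
    · -- `x` lies in a strand
      obtain ⟨kx, cx, rx⟩ := x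
      simp only at hex
      obtain ⟨rfl, hc1, hc2⟩ := hex
      obtain ⟨ky, cy, ry⟩ := y
      simp only [Cr.page, Bool.false_eq_true, if_false, Prod.mk.injEq] at hp
      obtain ⟨rfl, hp⟩ := hp
      simp only [Bool.false_eq_true, if_false] at hp
      have l1 := colPos_le h hK g1
      have l2 := colPos_le h hK g2
      obtain ⟨e1, e2⟩ := pi_lo_hi A (r := rx) hc1 hc2
      rw [e1] at l1
      rw [e2] at l2
      have hsr : (s, rx) ∈ rect n m := by
        refine ⟨hs, ?_⟩
        have := hx.1.2
        exact this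
      have e3 : pi s t (A.lo ⟨false, cy, ry⟩) = (s, rx) :=
        hO.inj _ (pi_mem hs my.1) _ hsr (le_antisymm l2 l1)
      -- rows agree, the low square of `y` lies in the strand
      have hry : ry = rx := by
        rcases lo_hi_cases A ⟨false, cy, ry⟩ with ⟨q, _⟩ | ⟨q, _⟩ <;> rw [q] at e3 <;>
          simp only [Cr.fst, Cr.snd, Bool.false_eq_true, if_false, pi, Prod.mk.injEq] at e3 <;>
          exact e3.2
      subst hry
      have hA : ∀ c : ℕ, s ≤ c → c ≤ s + t →
          colPos K s t pos w (c, ry) = K * pos (s, ry) + off w t ry (c - s) := fun c q1 q2 =>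
        colPos_strand q1 q2
      have hlx : ∃ a b, (a = cx - s ∧ b = cx - s + 1 ∨ a = cx - s + 1 ∧ b = cx - s) ∧
          colPos K s t pos w (A.lo ⟨false, cx, ry⟩) = K * pos (s, ry) + off w t ry a ∧
          colPos K s t pos w (A.hi ⟨false, cx, ry⟩) = K * pos (s, ry) + off w t ry b := by
        rcases lo_hi_cases A ⟨false, cx, ry⟩ with ⟨q, q'⟩ | ⟨q, q'⟩
        · refine ⟨cx - s, cx - s + 1, Or.inl ⟨rfl, rfl⟩, ?_, ?_⟩
          · rw [q]
            exact hA cx hc1 (by omega)
          · rw [q']
            simp only [Cr.snd, Bool.false_eq_true, if_false]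
            rw [hA (cx + 1) (by omega) (by omega), show cx + 1 - s = cx - s + 1 by omega]
        · refine ⟨cx - s + 1, cx - s, Or.inr ⟨rfl, rfl⟩, ?_, ?_⟩
          · rw [q]
            simp only [Cr.snd, Bool.false_eq_true, if_false]
            rw [hA (cx + 1) (by omega) (by omega), show cx + 1 - s = cx - s + 1 by omega]
          · rw [q']
            exact hA cx hc1 (by omega)
      obtain ⟨a, b, hab, ea, eb⟩ := hlx
      rw [ea] at g1
      rw [eb] at g2
      by_cases hey : s ≤ cy ∧ cy < s + t
      · -- both inside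
        have hly : ∃ c d, (c = cy - s ∧ d = cy - s + 1 ∨ c = cy - s + 1 ∧ d = cy - s) ∧
            colPos K s t pos w (A.lo ⟨false, cy, ry⟩) = K * pos (s, ry) + off w t ry c ∧
            colPos K s t pos w (A.hi ⟨false, cy, ry⟩) = K * pos (s, ry) + off w t ry d := by
          rcases lo_hi_cases A ⟨false, cy, ry⟩ with ⟨q, q'⟩ | ⟨q, q'⟩
          · refine ⟨cy - s, cy - s + 1, Or.inl ⟨rfl, rfl⟩, ?_, ?_⟩
            · rw [q]
              exact hA cy hey.1 (by omega)
            · rw [q']
              simp only [Cr.snd, Bool.false_eq_true, if_false]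
              rw [hA (cy + 1) (by omega) (by omega), show cy + 1 - s = cy - s + 1 by omega]
          · refine ⟨cy - s + 1, cy - s, Or.inr ⟨rfl, rfl⟩, ?_, ?_⟩
            · rw [q]
              simp only [Cr.snd, Bool.false_eq_true, if_false]
              rw [hA (cy + 1) (by omega) (by omega), show cy + 1 - s = cy - s + 1 by omega]
            · rw [q']
              exact hA cy hey.1 (by omega)
        obtain ⟨c, d, hcd, ec, ed⟩ := hly
        rw [ec] at g1 g2
        rw [eb, ed] at g3
        exact off_nc h (r := ry) (i := cx - s) (j := cy - s) (by omega) (by omega) (by omega) hab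
          hcd ⟨by omega, by omega, by omega⟩
      · -- `y` is attached to an end of the strand
        have hend : ∃ c, (c = 0 ∨ c = t) ∧
            colPos K s t pos w (A.lo ⟨false, cy, ry⟩) = K * pos (s, ry) + off w t ry c := by
          rcases lo_hi_cases A ⟨false, cy, ry⟩ with ⟨q, _⟩ | ⟨q, _⟩
          · rw [q] at e3 ⊢
            have hcy := pi_out (c := cy) e3
            refine ⟨t, Or.inr rfl, ?_⟩
            change colPos K s t pos w (cy, ry) = _
            rw [hA cy (by omega) (by omega), show cy - s = t by omega]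
          · rw [q] at e3 ⊢
            have hcy := pi_out (c := cy + 1) e3
            refine ⟨0, Or.inl rfl, ?_⟩
            change colPos K s t pos w (cy + 1, ry) = _
            rw [hA (cy + 1) (by omega) (by omega), show cy + 1 - s = 0 by omega]
        obtain ⟨c, hc, ec⟩ := hend
        rw [ec] at g1 g2
        rcases hc with rfl | rfl
        · exact off_ext0 h (r := ry) (a := a) (b := b) (by omega) (by omega)
            ⟨by omega, by omega⟩
        · exact off_extt h (r := ry) (a := a) (b := b) (by omega) (by omega)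
            ⟨by omega, by omega⟩
    · by_cases hey : y.k = false ∧ s ≤ y.c ∧ y.c < s + t
      · -- `y` lies in a strand, `x` does not
        obtain ⟨kx, cx, rx⟩ := x
        obtain ⟨ky, cy, ry⟩ := y
        simp only at hey
        obtain ⟨rfl, hc1, hc2⟩ := hey
        simp only [Cr.page, Bool.false_eq_true, if_false, Prod.mk.injEq] at hp
        obtain ⟨rfl, hp⟩ := hp
        simp only [Bool.false_eq_true, if_false] at hp
        simp only [true_and, not_and, not_lt] at hex
        have l2 := colPos_le h hK g2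
        have l3 := colPos_le h hK g3
        obtain ⟨e1, e2⟩ := pi_lo_hi A (r := ry) hc1 hc2
        rw [e1] at l2
        rw [e2] at l3
        have hsr : (s, ry) ∈ rect n m := ⟨hs, hy.1.2⟩
        have e3 : pi s t (A.hi ⟨false, cx, rx⟩) = (s, ry) :=
          hO.inj _ (pi_mem hs mx.2) _ hsr (le_antisymm l3 l2)
        have hrx : rx = ry := by
          rcases lo_hi_cases A ⟨false, cx, rx⟩ with ⟨_, q⟩ | ⟨_, q⟩ <;> rw [q] at e3 <;>
            simp only [Cr.fst, Cr.snd, Bool.false_eq_true, if_false, pi, Prod.mk.injEq] at e3 <;>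
            exact e3.2
        subst hrx
        have hA : ∀ c : ℕ, s ≤ c → c ≤ s + t →
            colPos K s t pos w (c, rx) = K * pos (s, rx) + off w t rx (c - s) := fun c q1 q2 =>
          colPos_strand q1 q2
        have hly : ∃ c d, (c = cy - s ∧ d = cy - s + 1 ∨ c = cy - s + 1 ∧ d = cy - s) ∧
            colPos K s t pos w (A.lo ⟨false, cy, rx⟩) = K * pos (s, rx) + off w t rx c ∧
            colPos K s t pos w (A.hi ⟨false, cy, rx⟩) = K * pos (s, rx) + off w t rx d := by
          rcases lo_hi_cases A ⟨false, cy, rx⟩ with ⟨q, q'⟩ | ⟨q, q'⟩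
          · refine ⟨cy - s, cy - s + 1, Or.inl ⟨rfl, rfl⟩, ?_, ?_⟩
            · rw [q]
              exact hA cy hc1 (by omega)
            · rw [q']
              simp only [Cr.snd, Bool.false_eq_true, if_false]
              rw [hA (cy + 1) (by omega) (by omega), show cy + 1 - s = cy - s + 1 by omega]
          · refine ⟨cy - s + 1, cy - s, Or.inr ⟨rfl, rfl⟩, ?_, ?_⟩
            · rw [q]
              simp only [Cr.snd, Bool.false_eq_true, if_false]
              rw [hA (cy + 1) (by omega) (by omega), show cy + 1 - s = cy - s + 1 by omega]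
            · rw [q']
              exact hA cy hc1 (by omega)
        obtain ⟨c, d, hcd, ec, ed⟩ := hly
        have hend : ∃ b, (b = 0 ∨ b = t) ∧
            colPos K s t pos w (A.hi ⟨false, cx, rx⟩) = K * pos (s, rx) + off w t rx b := by
          rcases lo_hi_cases A ⟨false, cx, rx⟩ with ⟨_, q⟩ | ⟨_, q⟩
          · rw [q] at e3 ⊢
            have hcx := pi_out (c := cx + 1) e3
            refine ⟨0, Or.inl rfl, ?_⟩
            change colPos K s t pos w (cx + 1, rx) = _
            rw [hA (cx + 1) (by omega) (by omega), show cx + 1 - s = 0 by omega]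
          · rw [q] at e3 ⊢
            have hcx := pi_out (c := cx) e3
            refine ⟨t, Or.inr rfl, ?_⟩
            change colPos K s t pos w (cx, rx) = _
            rw [hA cx (by omega) (by omega), show cx - s = t by omega]
        obtain ⟨b, hb, eb⟩ := hend
        rw [ec, eb] at g2
        rw [eb, ed] at g3
        rcases hb with rfl | rfl
        · exact off_ext0 h (r := rx) (a := c) (b := d) (by omega) (by omega)
            ⟨by omega, by omega⟩
        · exact off_extt h (r := rx) (a := c) (b := d) (by omega) (by omega)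
            ⟨by omega, by omega⟩
      · -- both creases come from the old sheet
        obtain ⟨x', hx', px, lx, ux, nx⟩ := ext_crease hs ht h1 h3 v1 v2 v3 x hx hex
        obtain ⟨y', hy', py, ly, uy, ny⟩ := ext_crease hs ht h1 h3 v1 v2 v3 y hy hey
        have hpage : x'.page = y'.page := by rw [px, py, hp]
        have l1 := colPos_le h hK g1
        have l2 := colPos_le h hK g2
        have l3 := colPos_le h hK g3
        rw [← lx, ← ly] at l1
        rw [← ly, ← ux] at l2
        rw [← ux, ← uy] at l3
        by_cases hxy : x' = y'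
        · -- two vertical creases of the same strands
          subst hxy
          have hne : x ≠ y := by
            rintro rfl
            omega
          have hll : pi s t (A.lo x) = pi s t (A.lo y) := by rw [← lx, ← ly]
          have hhh : pi s t (A.hi x) = pi s t (A.hi y) := by rw [← ux, ← uy]
          have nll : A.lo x ≠ A.lo y := by
            intro e
            rw [e] at g1
            omega
          have nhh : A.hi x ≠ A.hi y := by
            intro e
            rw [e] at g3
            omega
          obtain ⟨⟨a1, a2⟩, ⟨b1, b2⟩, hr1⟩ := pi_eq_iff hll nll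
          obtain ⟨⟨c1, c2⟩, ⟨d1, d2⟩, hr2⟩ := pi_eq_iff hhh nhh
          rw [colPos_strand a1 a2, colPos_strand b1 b2, hr1] at g1
          rw [colPos_strand c1 c2, colPos_strand d1 d2, hr2] at g3
          have o1 : off w t (A.lo y).2 ((A.lo x).1 - s) < off w t (A.lo y).2 ((A.lo y).1 - s) := by
            omega
          have o2 : off w t (A.hi y).2 ((A.hi x).1 - s) < off w t (A.hi y).2 ((A.hi y).1 - s) := by
            omega
          obtain ⟨kx, cx, rx⟩ := x
          obtain ⟨ky, cy, ry⟩ := y
          have hk : kx = ky := by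
            have := congrArg Prod.fst hp
            exact this
          subst hk
          cases kx
          · -- impossible: horizontal creases are determined by their projection
            exfalso
            simp only [true_and, not_and, not_lt] at hex hey
            rcases lo_hi_cases A ⟨false, cx, rx⟩ with ⟨q, q'⟩ | ⟨q, q'⟩ <;>
              rw [q] at a1 a2 <;> rw [q'] at c1 c2 <;>
              simp only [Cr.fst, Cr.snd, Bool.false_eq_true, if_false] at a1 a2 c1 c2 <;>
              omega
          · rcases lo_hi_cases A ⟨true, cx, rx⟩ with ⟨q, q'⟩ | ⟨q, q'⟩ <;>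
              rcases lo_hi_cases A ⟨true, cy, ry⟩ with ⟨p, p'⟩ | ⟨p, p'⟩ <;>
              rw [q, p] at hr1 o1 <;> rw [q', p'] at hr2 o2 <;>
              rw [q] at a1 a2 <;> rw [p] at b1 b2 <;>
              simp only [Cr.fst, Cr.snd, if_true] at hr1 hr2 o1 o2 a1 a2 b1 b2
            · exact off_rev h (r := ry) (a := cx - s) (b := cy - s) (by omega) (by omega) o1 o2
            · omega
            · omega
            · exact off_rev h (r := ry) (a := cx - s) (b := cy - s) (by omega) (by omega) o2 o1
        · obtain ⟨d1, d2, d3, d4⟩ := Cr.disj hpage hxy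
          have mx' := lo_hi_mem (A := AO) hx'
          have my' := lo_hi_mem (A := AO) hy'
          have n1 : AO.lo x' ≠ AO.lo y' := by
            rcases lo_hi_cases AO x' with ⟨q, _⟩ | ⟨q, _⟩ <;>
              rcases lo_hi_cases AO y' with ⟨p, _⟩ | ⟨p, _⟩ <;> rw [q, p] <;> assumption
          have n2 : AO.lo y' ≠ AO.hi x' := by
            rcases lo_hi_cases AO x' with ⟨_, q⟩ | ⟨_, q⟩ <;>
              rcases lo_hi_cases AO y' with ⟨p, _⟩ | ⟨p, _⟩ <;> rw [q, p] <;>
              exact Ne.symm (by assumption)
          have n3 : AO.hi x' ≠ AO.hi y' := by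
            rcases lo_hi_cases AO x' with ⟨_, q⟩ | ⟨_, q⟩ <;>
              rcases lo_hi_cases AO y' with ⟨_, p⟩ | ⟨_, p⟩ <;> rw [q, p] <;> assumption
          refine hO.nc x' y' hx' hy' hpage ⟨?_, ?_, ?_⟩
          · exact lt_of_le_of_ne l1 (fun e => n1 (hO.inj _ mx'.1 _ my'.1 e))
          · exact lt_of_le_of_ne l2 (fun e => n2 (hO.inj _ my'.1 _ mx'.2 e))
          · exact lt_of_le_of_ne l3 (fun e => n3 (hO.inj _ mx'.2 _ my'.2 e))

end

end Pool.Agent.Helper1.MF
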