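import Pool.Agent.Helper69.MF.Sheet
import Pool.Agent.Helper64.MF.SubstRow
import Pool.Agent.Helper1.MF.SubstCol

/-!
Map folding, completeness: common definitions.
-/

set_option autoImplicit false

namespace Pool.Agent.Helper1.MF

open Pool.Agent.Helper69.MF Pool.Agent.Helper64.MF

/-- Row `r` is ordered like the function `f` of the columns. -/
def RowOrd (n : ℕ) (p : Sq → ℕ) (r : ℕ) (f : ℕ → ℕ) : Prop :=
  ∀ c < n, ∀ c' < n, (p (c, r) < p (c', r) ↔ f c < f c')

/-- The rows `0 .. h` have a folding with last row `h` on top, ordered like `f`. -/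
def Acc (A : Pat) (n h : ℕ) (f : ℕ → ℕ) : Prop :=
  ∃ p, Fold A (rect n (h + 1)) p ∧ LastRow n (h + 1) p h ∧ RowOrd n p h f

/-- The same with contiguous row `0`, ordered like `f`. -/
def Str (A : Pat) (n h : ℕ) (f : ℕ → ℕ) : Prop :=
  ∃ p, Fold A (rect n (h + 1)) p ∧ LastRow n (h + 1) p h ∧ RowOrd n p h f ∧
    Contig n (h + 1) p 0 ∧ RowOrd n p 0 f

/-- The same with row `0` at the bottom. -/
def Nst (A : Pat) (n h : ℕ) (f : ℕ → ℕ) : Prop :=
  ∃ p, Fold A (rect n (h + 1)) p ∧ LastRow n (h + 1) p h ∧ RowOrd n p h f ∧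
    FirstRow n (h + 1) p 0 ∧ RowOrd n p 0 f

/-- The same with a contiguous row `s` in the middle. -/
def Opn (A : Pat) (n h s : ℕ) (f : ℕ → ℕ) : Prop :=
  ∃ p, Fold A (rect n (h + 1)) p ∧ LastRow n (h + 1) p h ∧ RowOrd n p h f ∧
    FirstRow n (h + 1) p 0 ∧ RowOrd n p 0 f ∧ Contig n (h + 1) p s ∧ RowOrd n p s f

/-- Positions of the squares of one block of 12 columns (an even row), for the four codes
`2 x + y` of the two bits of the knot. -/
def Wt : ℕ → List ℕ
  | 0 => [0, 1, 2, 9, 8, 5, 6, 7, 4, 3, 10, 11]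
  | 1 => [0, 1, 2, 9, 8, 3, 4, 7, 6, 5, 10, 11]
  | 2 => [0, 1, 2, 7, 6, 5, 8, 9, 4, 3, 10, 11]
  | _ => [0, 1, 2, 5, 4, 3, 6, 9, 8, 7, 10, 11]

/-- The standard order of an even row; `β k` is the code of block `k`. -/
def sp (β : ℕ → ℕ) (c : ℕ) : ℕ := 12 * (c / 12) + (Wt (β (c / 12))).getD (c % 12) 0

/-- Gadget of the first wall of a group: column `d` of the block, row `e` of the group. -/
def GC (s : Bool) (d e : ℕ) : Bool := inGad d && gadFl (gadC s) 3 (d - 2) e

/-- Gadget of the second wall of a group. -/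
def GY (s : Bool) (d e : ℕ) : Bool := inGad d && gadFl (gadC s) 12 (10 - d) e

/-- Gadget of the fourth wall of a group. -/
def GB (s : Bool) (d e : ℕ) : Bool := inGad d && gadFl (gadB s) 29 (d - 2) e

/-- No flips. -/
def F0 : ℕ → ℕ → Bool := fun _ _ => false

/-- Flips in the block `b`. -/
def F1 (b : ℕ) (G : ℕ → ℕ → Bool) : ℕ → ℕ → Bool := fun c r => c / 12 == b && G (c % 12) r

/-- Flips in the blocks `b` and `b'`. -/
def F2 (b b' : ℕ) (G G' : ℕ → ℕ → Bool) : ℕ → ℕ → Bool := fun c r =>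
  (c / 12 == b && G (c % 12) r) || (c / 12 == b' && G' (c % 12) r)

/-- Row pattern from the row `a` of a group on. -/
def rhA (a : ℕ) : ℕ → Bool := fun r => rhS (r + a)

/-- Row pattern of the outer strip of the nest: rows `0 .. 8` and `45 .. 52` of a group. -/
def rhN : ℕ → Bool := fun r => if r < 8 then rhS r else rhS (r + 36)

/-- Flips of one group, row `e` of the group. -/
def flG (I : Sys) (g : ℕ) (c e : ℕ) : Bool :=
  (c / 12 == I.N + I.lv g 0 && GC (I.ls g 0) (c % 12) e) ||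
  (c / 12 == I.lv g 1 && GY (I.ls g 1) (c % 12) e) ||
  (c / 12 == I.N + I.lv g 2 && GB (I.ls g 2) (c % 12) e)

/-- The codes of the blocks for an assignment. -/
def beta (N : ℕ) (X Y : ℕ → Bool) (k : ℕ) : ℕ :=
  if k < N then (if Y k then 1 else 0) else (if X (k - N) then 2 else 0)

/-- Foldings only depend on the pattern in the region. -/
theorem fold_congr {A B : Pat} {n m : ℕ} {p : Sq → ℕ} (h : Fold A (rect n m) p)
    (hH : ∀ c r, c + 1 < n → r < m → B.H c r = A.H c r)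
    (hV : ∀ c r, c < n → r + 1 < m → B.V c r = A.V c r) : Fold B (rect n m) p := by
  have hd : ∀ x : Cr, x.In (rect n m) → B.dir x = A.dir x := by
    rintro ⟨k, c, r⟩ ⟨h1, h2⟩
    cases k
    · simp only [Cr.fst, Cr.snd, Bool.false_eq_true, if_false, rect, Set.mem_ofPred_eq] at h1 h2
      exact hH c r h2.1 h1.2
    · simp only [Cr.fst, Cr.snd, if_true, rect, Set.mem_ofPred_eq] at h1 h2
      exact hV c r h1.1 h2.2
  have hl : ∀ x : Cr, x.In (rect n m) → B.lo x = A.lo x := fun x hx => by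
    unfold Pat.lo; rw [hd x hx]
  have hh : ∀ x : Cr, x.In (rect n m) → B.hi x = A.hi x := fun x hx => by
    unfold Pat.hi; rw [hd x hx]
  refine ⟨h.inj, fun x hx => ?_, fun x y hx hy hp => ?_⟩
  · rw [hl x hx, hh x hx]
    exact h.dir x hx
  · rw [hl x hx, hh x hx, hl y hy, hh y hy]
    exact h.nc x y hx hy hp

theorem Nst.str {A : Pat} {n h : ℕ} {f : ℕ → ℕ} (H : Nst A n h f) : Str A n h f := by
  obtain ⟨p, h1, h2, h3, h4, h5⟩ := H
  exact ⟨p, h1, h2, h3, fun c hc t ht hne => Or.inr (h4 c hc t ht hne), h5⟩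

theorem Str.acc {A : Pat} {n h : ℕ} {f : ℕ → ℕ} (H : Str A n h f) : Acc A n h f := by
  obtain ⟨p, h1, h2, h3, _⟩ := H
  exact ⟨p, h1, h2, h3⟩

end Pool.Agent.Helper1.MF
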