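import Pool.Agent.Helper1.MF.CDefs

/-!
Map folding, completeness, module CHK: decidable checks of a table of positions.
`T` is the list of the rows `0 .. m - 1`, each the list of the positions of its `n` squares.

`chkFold`: all entries distinct and `< n m`, directions, noncrossing (for each of the four pages an
array, coded in one number, which has at the lower position of a crease the upper one plus one, and
a stack machine on this array).
`chkSeam n m T r b L`: the row `r` is `L.map (b + ·)`, the entries of `L` are `< n`, the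
entries of all other rows are `< b` or `≥ b + n`.
-/

set_option autoImplicit false

namespace Pool.Agent.Helper1.MF

open Pool.Agent.Helper69.MF Pool.Agent.Helper64.MF

/-- The position function of a table. -/
def tp (T : List (List ℕ)) (q : Sq) : ℕ := (T.getD q.2 []).getD q.1 0

/-! ### Loops -/

def allLt : ℕ → (ℕ → Bool) → Bool
  | 0, _ => true
  | k + 1, f => f k && allLt k f

theorem allLt_spec {k : ℕ} {f : ℕ → Bool} (h : allLt k f = true) : ∀ i < k, f i = true := by
  induction k with
  | zero => intro i hi; omega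
  | succ k ih =>
    simp only [allLt, Bool.and_eq_true] at h
    intro i hi
    rcases Nat.lt_succ_iff_lt_or_eq.mp hi with h1 | rfl
    · exact ih h.2 i h1
    · exact h.1

def sumLt : ℕ → (ℕ → ℕ) → ℕ
  | 0, _ => 0
  | k + 1, f => f k + sumLt k f

def force (P : ℕ) (f : ℕ → Bool) : Bool :=
  match P with
  | 0 => f 0
  | k + 1 => f (k + 1)

theorem force_eq (P : ℕ) (f : ℕ → Bool) : force P f = f P := by
  cases P <;> rfl

/-- Entry `p` of an array of numbers of 16 bits. -/
def rd (P p : ℕ) : ℕ := (P >>> (16 * p)) % 65536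

/-! ### The stack machine -/

/-- `f p` is the upper position plus one of the crease with lower position `p`, or zero. -/
def run (f : ℕ → ℕ) : ℕ → ℕ → List ℕ → Bool
  | 0, _, _ => true
  | k + 1, p, [] =>
    match f p with
    | 0 => run f k (p + 1) []
    | q + 1 => run f k (p + 1) [q + 1]
  | k + 1, p, t :: s =>
    match f p with
    | 0 => if t = p + 1 then run f k (p + 1) s else run f k (p + 1) (t :: s)
    | q + 1 => Nat.ble (q + 2) t && run f k (p + 1) ((q + 1) :: t :: s)

theorem run_spec (f : ℕ → ℕ) : ∀ (k p : ℕ) (s : List ℕ), s.Pairwise (· < ·) →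
    run f k p s = true →
    (∀ t ∈ s, ∀ i, p ≤ i → i < p + k → f i ≠ 0 → i + 1 < t → f i < t) ∧
    (∀ i j, p ≤ i → i < j → j < p + k → f i ≠ 0 → f j ≠ 0 → j + 1 < f i → f j < f i) := by
  intro k
  induction k with
  | zero =>
    intro p s _ _
    exact ⟨fun t _ i h1 h2 => by omega, fun i j h1 h2 h3 => by omega⟩
  | succ k ih =>
    intro p s hs h
    -- the stack after the step
    obtain ⟨s', hs', hr, hsub, hp⟩ : ∃ s' : List ℕ, s'.Pairwise (· < ·) ∧
        run f k (p + 1) s' = true ∧ (∀ t ∈ s, p + 1 < t → t ∈ s') ∧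
        (f p ≠ 0 → f p ∈ s' ∧ ∀ t ∈ s, p + 1 < t → f p < t) := by
      cases s with
      | nil =>
        rcases hf : f p with _ | q
        · refine ⟨[], List.Pairwise.nil, ?_, by simp, by simp⟩
          simp only [run, hf] at h
          exact h
        · refine ⟨[q + 1], by simp, ?_, by simp, by simp⟩
          simp only [run, hf] at h
          exact h
      | cons t s =>
        obtain ⟨h1, h2⟩ := List.pairwise_cons.mp hs
        rcases hf : f p with _ | q
        · simp only [run, hf] at h
          split_ifs at h with hc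
          · refine ⟨s, h2, h, ?_, by simp⟩
            intro u hu hlt
            rcases List.mem_cons.mp hu with rfl | hu
            · omega
            · exact hu
          · exact ⟨t :: s, hs, h, fun u hu _ => hu, by simp⟩
        · simp only [run, hf, Bool.and_eq_true] at h
          have h3 : q + 2 ≤ t := Nat.le_of_ble_eq_true h.1
          have h4 : ∀ u ∈ t :: s, q + 1 < u := by
            intro u hu
            rcases List.mem_cons.mp hu with rfl | hu
            · omega
            · have := h1 u hu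
              omega
          refine ⟨(q + 1) :: t :: s, List.pairwise_cons.mpr ⟨h4, hs⟩, h.2,
            fun u hu _ => List.mem_cons_of_mem _ hu, fun _ => ⟨by simp, fun u hu _ => h4 u hu⟩⟩
    obtain ⟨i1, i2⟩ := ih (p + 1) s' hs' hr
    constructor
    · intro t ht i h1 h2 h3 h4
      rcases Nat.eq_or_lt_of_le h1 with rfl | h5
      · exact (hp h3).2 t ht h4
      · exact i1 t (hsub t ht (by omega)) i (by omega) (by omega) h3 h4
    · intro i j h1 h2 h3 h4 h5 h6
      rcases Nat.eq_or_lt_of_le h1 with rfl | h7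
      · exact i1 (f p) (hp h4).1 j (by omega) (by omega) h5 h6
      · exact i2 i j (by omega) h2 (by omega) h4 h5 h6

/-! ### The check of a folding -/

/-- Position of a square, from the array `A`. -/
def rdSq (n A : ℕ) (q : Sq) : ℕ := rd A (q.1 + n * q.2)

/-- All creases. -/
def allCr (n m : ℕ) (f : Cr → Bool) : Bool :=
  allLt m (fun r => allLt n (fun c =>
    (!(Nat.ble (c + 2) n) || f ⟨false, c, r⟩) && (!(Nat.ble (r + 2) m) || f ⟨true, c, r⟩)))

theorem allCr_spec {n m : ℕ} {f : Cr → Bool} (h : allCr n m f = true) :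
    ∀ x : Cr, x.In (rect n m) → f x = true := by
  rintro ⟨k, c, r⟩ ⟨h1, h2⟩
  have hc : c < n := h1.1
  have hr : r < m := h1.2
  have h3 := allLt_spec (allLt_spec h r hr) c hc
  simp only [Bool.and_eq_true, Bool.or_eq_true, Bool.not_eq_true'] at h3
  cases k
  · simp only [Cr.snd, Bool.false_eq_true, if_false, rect, Set.mem_ofPred_eq] at h2
    rcases h3.1 with h4 | h4
    · have : Nat.ble (c + 2) n = true := Nat.ble_eq.mpr (by omega)
      rw [this] at h4
      exact absurd h4 (by simp)
    · exact h4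
  · simp only [Cr.snd, if_true, rect, Set.mem_ofPred_eq] at h2
    rcases h3.2 with h4 | h4
    · have : Nat.ble (r + 2) m = true := Nat.ble_eq.mpr (by omega)
      rw [this] at h4
      exact absurd h4 (by simp)
    · exact h4

/-- The crease lies on the page `(k, e)`. -/
def onPage (k : Bool) (e : ℕ) (x : Cr) : Bool :=
  (x.k == k) && Nat.beq ((if x.k then x.r else x.c) % 2) e

/-- The array of the page `(k, e)`. -/
def pageArr (n m A : ℕ) (B : Pat) (k : Bool) (e : ℕ) : ℕ :=
  sumLt m (fun r => sumLt n (fun c =>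
    if onPage k e ⟨k, c, r⟩ && Nat.ble (if k then r + 2 else c + 2) (if k then m else n) then
      (rdSq n A (B.hi ⟨k, c, r⟩) + 1) <<< (16 * rdSq n A (B.lo ⟨k, c, r⟩))
    else 0))

def chkPage (n m A : ℕ) (B : Pat) (k : Bool) (e : ℕ) : Bool :=
  force (pageArr n m A B k e) (fun P =>
    allCr n m (fun x => !(onPage k e x) ||
      Nat.beq (rd P (rdSq n A (B.lo x))) (rdSq n A (B.hi x) + 1)) &&
    run (rd P) (n * m) 0 [])

theorem chkPage_spec {n m A : ℕ} {B : Pat} {k : Bool} {e : ℕ} (h : chkPage n m A B k e = true)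
    (hb : ∀ q ∈ rect n m, rdSq n A q < n * m) {x y : Cr} (hx : x.In (rect n m))
    (hy : y.In (rect n m)) (ex : x.page = (k, e)) (ey : y.page = (k, e)) :
    ¬ (rdSq n A (B.lo x) < rdSq n A (B.lo y) ∧ rdSq n A (B.lo y) < rdSq n A (B.hi x) ∧
      rdSq n A (B.hi x) < rdSq n A (B.hi y)) := by
  unfold chkPage at h
  rw [force_eq, Bool.and_eq_true] at h
  obtain ⟨h1, h2⟩ := h
  have on : ∀ z : Cr, z.page = (k, e) → onPage k e z = true := by
    intro z hz
    unfold Cr.page at hz
    simp only [Prod.mk.injEq] at hz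
    unfold onPage
    rw [hz.2]
    simp [hz.1]
  have rdx := allCr_spec h1 x hx
  have rdy := allCr_spec h1 y hy
  rw [on x ex, Bool.not_true, Bool.false_or] at rdx
  rw [on y ey, Bool.not_true, Bool.false_or] at rdy
  have rdx := Nat.eq_of_beq_eq_true rdx
  have rdy := Nat.eq_of_beq_eq_true rdy
  have hly := hb _ (lo_mem (A := B) hy)
  have key := (run_spec _ _ _ _ List.Pairwise.nil h2).2 (rdSq n A (B.lo x)) (rdSq n A (B.lo y))
    (Nat.zero_le _)
  rintro ⟨g1, g2, g3⟩
  have := key g1 (by omega) (by omega) (by omega) (by omega)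
  omega

/-- The array of the positions. -/
def posArr (n m : ℕ) (T : List (List ℕ)) : ℕ :=
  sumLt m (fun r => sumLt n (fun c => tp T (c, r) <<< (16 * (c + n * r))))

/-- The array of the squares, by position. -/
def invArr (n m A : ℕ) : ℕ :=
  sumLt m (fun r => sumLt n (fun c => (c + n * r) <<< (16 * rd A (c + n * r))))

def chkFold (n m : ℕ) (B : Pat) (T : List (List ℕ)) : Bool :=
  force (posArr n m T) (fun A =>
    allLt m (fun r => allLt n (fun c => Nat.beq (rd A (c + n * r)) (tp T (c, r)) &&
      Nat.ble (rd A (c + n * r) + 1) (n * m))) &&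
    force (invArr n m A) (fun W => allLt m (fun r => allLt n (fun c =>
      Nat.beq (rd W (rd A (c + n * r))) (c + n * r)))) &&
    allCr n m (fun x => Nat.ble (rdSq n A (B.lo x) + 1) (rdSq n A (B.hi x))) &&
    chkPage n m A B false 0 && chkPage n m A B false 1 && chkPage n m A B true 0 &&
    chkPage n m A B true 1)

theorem chkFold_aux {n m : ℕ} {B : Pat} {T : List (List ℕ)} (h : chkFold n m B T = true) :
    Fold B (rect n m) (tp T) ∧ ∀ q ∈ rect n m, tp T q < n * m := by
  unfold chkFold at h
  rw [force_eq] at h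
  simp only [Bool.and_eq_true, force_eq] at h
  obtain ⟨⟨⟨⟨⟨⟨h1, h2⟩, h3⟩, h4⟩, h5⟩, h6⟩, h7⟩ := h
  set A := posArr n m T with hA
  have e1 : ∀ q ∈ rect n m, rdSq n A q = tp T q := by
    rintro ⟨c, r⟩ ⟨hc, hr⟩
    have := allLt_spec (allLt_spec h1 r hr) c hc
    rw [Bool.and_eq_true] at this
    exact Nat.eq_of_beq_eq_true this.1
  have e2 : ∀ q ∈ rect n m, rdSq n A q < n * m := by
    rintro ⟨c, r⟩ ⟨hc, hr⟩
    have := allLt_spec (allLt_spec h1 r hr) c hc
    rw [Bool.and_eq_true] at this
    exact Nat.le_of_ble_eq_true this.2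
  have e3 : ∀ q ∈ rect n m, rd (invArr n m A) (rdSq n A q) = q.1 + n * q.2 := by
    rintro ⟨c, r⟩ ⟨hc, hr⟩
    exact Nat.eq_of_beq_eq_true (allLt_spec (allLt_spec h2 r hr) c hc)
  refine ⟨⟨?_, ?_, ?_⟩, fun q hq => by rw [← e1 q hq]; exact e2 q hq⟩
  · intro a ha b hb hab
    rw [← e1 a ha, ← e1 b hb] at hab
    have h8 : a.1 + n * a.2 = b.1 + n * b.2 := by
      rw [← e3 a ha, ← e3 b hb, hab]
    have ha1 : a.1 < n := ha.1
    have hb1 : b.1 < n := hb.1
    have h9 : a.1 = b.1 := by
      have := congrArg (· % n) h8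
      simp only [Nat.add_mul_mod_self_left, Nat.mod_eq_of_lt ha1, Nat.mod_eq_of_lt hb1] at this
      exact this
    have h10 : a.2 = b.2 := by
      have h11 : n * a.2 = n * b.2 := by omega
      exact Nat.eq_of_mul_eq_mul_left (by omega) h11
    exact Prod.ext h9 h10
  · intro x hx
    rw [← e1 _ (lo_mem hx), ← e1 _ (hi_mem hx)]
    exact Nat.le_of_ble_eq_true (allCr_spec h3 x hx)
  · intro x y hx hy hp
    rw [← e1 _ (lo_mem hx), ← e1 _ (hi_mem hx), ← e1 _ (lo_mem hy), ← e1 _ (hi_mem hy)]
    obtain ⟨k, c, r⟩ := x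
    cases k
    · rcases Nat.mod_two_eq_zero_or_one c with hc | hc
      · exact chkPage_spec h4 e2 hx hy (by simp [Cr.page, hc]) (by rw [← hp]; simp [Cr.page, hc])
      · exact chkPage_spec h5 e2 hx hy (by simp [Cr.page, hc]) (by rw [← hp]; simp [Cr.page, hc])
    · rcases Nat.mod_two_eq_zero_or_one r with hc | hc
      · exact chkPage_spec h6 e2 hx hy (by simp [Cr.page, hc]) (by rw [← hp]; simp [Cr.page, hc])
      · exact chkPage_spec h7 e2 hx hy (by simp [Cr.page, hc]) (by rw [← hp]; simp [Cr.page, hc])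

theorem chkFold_spec {n m : ℕ} {B : Pat} {T : List (List ℕ)} (h : chkFold n m B T = true) :
    Fold B (rect n m) (tp T) := (chkFold_aux h).1

/-! ### The check of a contiguous row -/

def chkSeam (n m : ℕ) (T : List (List ℕ)) (r b : ℕ) (L : List ℕ) : Bool :=
  allLt n (fun c => Nat.beq (tp T (c, r)) (b + L.getD c 0) && Nat.ble (L.getD c 0 + 1) n) &&
  allLt m (fun t => Nat.beq t r ||
    allLt n (fun c => Nat.ble (tp T (c, t) + 1) b || Nat.ble (b + n) (tp T (c, t))))

theorem chkSeam_row {n m : ℕ} {T : List (List ℕ)} {r b : ℕ} {L : List ℕ}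
    (h : chkSeam n m T r b L = true) :
    ∀ c < n, tp T (c, r) = b + L.getD c 0 ∧ L.getD c 0 < n := by
  intro c hc
  unfold chkSeam at h
  rw [Bool.and_eq_true] at h
  have := allLt_spec h.1 c hc
  rw [Bool.and_eq_true] at this
  exact ⟨Nat.eq_of_beq_eq_true this.1, Nat.le_of_ble_eq_true this.2⟩

theorem chkSeam_out {n m : ℕ} {T : List (List ℕ)} {r b : ℕ} {L : List ℕ}
    (h : chkSeam n m T r b L = true) :
    ∀ c < n, ∀ t < m, t ≠ r → tp T (c, t) < b ∨ b + n ≤ tp T (c, t) := by
  intro c hc t ht hne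
  unfold chkSeam at h
  rw [Bool.and_eq_true] at h
  have h1 := allLt_spec h.2 t ht
  rw [Bool.or_eq_true] at h1
  rcases h1 with h1 | h1
  · exact absurd (Nat.eq_of_beq_eq_true h1) hne
  · have h2 := allLt_spec h1 c hc
    rw [Bool.or_eq_true] at h2
    rcases h2 with h2 | h2
    · exact Or.inl (Nat.le_of_ble_eq_true h2)
    · exact Or.inr (Nat.le_of_ble_eq_true h2)

theorem chkSeam_ord {n m : ℕ} {T : List (List ℕ)} {r b : ℕ} {L : List ℕ}
    (h : chkSeam n m T r b L = true) : RowOrd n (tp T) r (fun c => L.getD c 0) := by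
  intro c hc c' hc'
  rw [(chkSeam_row h c hc).1, (chkSeam_row h c' hc').1]
  exact Nat.add_lt_add_iff_left

theorem chkSeam_contig {n m : ℕ} {T : List (List ℕ)} {r b : ℕ} {L : List ℕ}
    (h : chkSeam n m T r b L = true) : Contig n m (tp T) r := by
  intro c hc t ht hne
  rcases chkSeam_out h c hc t ht hne with h1 | h1
  · refine Or.inl (fun c' hc' => ?_)
    rw [(chkSeam_row h c' hc').1]
    omega
  · refine Or.inr (fun c' hc' => ?_)
    rw [(chkSeam_row h c' hc').1]
    have := (chkSeam_row h c' hc').2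
    omega

theorem chkSeam_first {n m : ℕ} {T : List (List ℕ)} {r : ℕ} {L : List ℕ}
    (h : chkSeam n m T r 0 L = true) : FirstRow n m (tp T) r := by
  intro c hc t ht hne c' hc'
  rcases chkSeam_out h c hc t ht hne with h1 | h1
  · omega
  · rw [(chkSeam_row h c' hc').1]
    have := (chkSeam_row h c' hc').2
    omega

/-- Here the check `chkFold` may be used for the bound `n m` of the entries. -/
theorem chkSeam_last {n m : ℕ} {B : Pat} {T : List (List ℕ)} {r : ℕ} {L : List ℕ}
    (h0 : chkFold n m B T = true) (h : chkSeam n m T r (n * (m - 1)) L = true) :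
    LastRow n m (tp T) r := by
  intro c hc t ht hne c' hc'
  have hb := (chkFold_aux h0).2 (c, t) ⟨hc, ht⟩
  obtain ⟨m', rfl⟩ : ∃ m', m = m' + 1 := ⟨m - 1, by omega⟩
  rcases chkSeam_out h c hc t ht hne with h1 | h1
  · rw [(chkSeam_row h c' hc').1]
    omega
  · rw [Nat.add_sub_cancel] at h1
    rw [Nat.mul_succ] at hb
    omega

end Pool.Agent.Helper1.MF
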