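import Pool.Agent.Helper68.Tab

/-!
Clause systems of the shape used by the map folding reduction, and their computation in polynomial
time from the constraint satisfaction problem of a nondeterministic machine.
-/

set_option autoImplicit false

namespace Pool.Agent.Helper1.MF

open Helper68.Una

/-- A clause system: clause `g < G` forbids the combination `x (v1 g) = s1 g`, `y (v2 g) = s2 g`,
`x (v3 g) = s3 g`. -/
structure Cls where
  /-- number of the variables -/
  N : ℕ
  /-- number of the clauses -/
  G : ℕ
  /-- first variables -/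
  v1 : ℕ → ℕ
  /-- second variables -/
  v2 : ℕ → ℕ
  /-- third variables -/
  v3 : ℕ → ℕ
  /-- first signs -/
  s1 : ℕ → Bool
  /-- second signs -/
  s2 : ℕ → Bool
  /-- third signs -/
  s3 : ℕ → Bool

/-- Satisfiability. -/
def Cls.Sat (C : Cls) : Prop :=
  ∃ x y : ℕ → Bool, ∀ g < C.G,
    ¬ (x (C.v1 g) = C.s1 g ∧ y (C.v2 g) = C.s2 g ∧ x (C.v3 g) = C.s3 g)

variable (D : CspData)

/-- Length of the long clauses. -/
def cL : ℕ := D.c + D.d

/-- Number of the long clauses. -/
def cR (w : List Bool) : ℕ := D.m w + D.nv w

/-- Auxiliary variables. -/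
def cAux (w : List Bool) (j k : ℕ) : ℕ := D.nv w * D.d + (j * (cL D + 1) + k)

/-- Number of the variables. -/
def cN (w : List Bool) : ℕ := D.nv w * D.d + cR D w * (cL D + 1) + 1

/-- Number of the clauses. -/
def cG (w : List Bool) : ℕ := 2 * cN D w + cR D w * (cL D + 2)

/-- Variable of literal `k` of the long clause `j`. -/
def cTv (w : List Bool) (j k : ℕ) : ℕ :=
  if j < D.m w then
    (if k < D.c then
      (if (if k < D.c then D.val k w j else 0) < D.d then
        (if k < D.c then D.var k w j else 0) * D.d + (if k < D.c then D.val k w j else 0)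
        else cAux D w j k)
      else cAux D w j k)
  else (if k < D.d then (j - D.m w) * D.d + k else cAux D w j k)

/-- Sign of the value which makes literal `k` of the long clause `j` false, as a proposition. -/
def cTs (w : List Bool) (j k : ℕ) : Prop :=
  (j < D.m w ∧ (k < D.c → (if k < D.c then D.val k w j else 0) < D.d)) ∨
    (D.m w ≤ j ∧ D.d ≤ k)

/-- Index of the long clause of a clause. -/
def cJ (w : List Bool) (g : ℕ) : ℕ := (g - 2 * cN D w) / (cL D + 2)

/-- Position in the long clause. -/
def cK (w : List Bool) (g : ℕ) : ℕ := (g - 2 * cN D w) % (cL D + 2)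

/-- First variables. -/
def cV1 (w : List Bool) (g : ℕ) : ℕ :=
  if g < 2 * cN D w then g / 2
  else if cK D w g < cL D then cAux D w (cJ D w g) (cK D w g)
  else cAux D w (cJ D w g) ((cK D w g - cL D) * cL D)

/-- Second variables. -/
def cV2 (w : List Bool) (g : ℕ) : ℕ :=
  if g < 2 * cN D w then g / 2
  else if cK D w g < cL D then cAux D w (cJ D w g) (cK D w g + 1)
  else cAux D w (cJ D w g) ((cK D w g - cL D) * cL D)

/-- Third variables. -/
def cV3 (w : List Bool) (g : ℕ) : ℕ :=
  if g < 2 * cN D w then g / 2
  else if cK D w g < cL D then cTv D w (cJ D w g) (cK D w g)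
  else cAux D w (cJ D w g) ((cK D w g - cL D) * cL D)

/-- First signs. -/
def cS1 (w : List Bool) (g : ℕ) : Prop :=
  (g < 2 * cN D w ∧ g % 2 = 1) ∨ (2 * cN D w ≤ g ∧ (cK D w g < cL D ∨ cK D w g = cL D + 1))

/-- Second signs. -/
def cS2 (w : List Bool) (g : ℕ) : Prop :=
  (g < 2 * cN D w ∧ g % 2 = 0) ∨ (2 * cN D w ≤ g ∧ cK D w g = cL D + 1)

/-- Third signs. -/
def cS3 (w : List Bool) (g : ℕ) : Prop :=
  (g < 2 * cN D w ∧ g % 2 = 1) ∨
    (2 * cN D w ≤ g ∧ ((cK D w g < cL D ∧ cTs D w (cJ D w g) (cK D w g)) ∨ cK D w g = cL D + 1))

open scoped Classical in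
/-- The clause system of a word. -/
noncomputable def red (w : List Bool) : Cls where
  N := cN D w
  G := cG D w
  v1 := cV1 D w
  v2 := cV2 D w
  v3 := cV3 D w
  s1 := fun g => decide (cS1 D w g)
  s2 := fun g => decide (cS2 D w g)
  s3 := fun g => decide (cS3 D w g)

/-! ### Computation -/

section Comp

variable {α : Type} [Ctx α]

/-- Selection among finitely many functions. -/
theorem pu_sel {k : α → ℕ} (hk : PU k) (f : ℕ → α → ℕ) (C : ℕ) (hf : ∀ e, PU (f e)) :
    PU (fun a => if k a < C then f (k a) a else 0) := by
  induction C with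
  | zero => exact (PU.const 0).congr (fun a => by simp)
  | succ C ih =>
    refine (PU.ite (PP.eq hk (PU.const C)) (hf C) ih).congr (fun a => ?_)
    by_cases h : k a = C
    · simp [h]
    · have e : (k a < C) = (k a < C + 1) := propext ⟨fun h => by omega, fun h => by omega⟩
      rw [if_neg h]
      simp only [e]

theorem pu_m : PU (fun w : List Bool => D.m w) := D.hm

theorem pu_cR : PU (fun w : List Bool => cR D w) := D.hm.add D.hnv

theorem pu_cN : PU (fun w : List Bool => cN D w) :=
  ((D.hnv.mul (PU.const _)).add ((pu_cR D).mul (PU.const _))).add (PU.const 1)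

theorem pu_cG : PU (fun w : List Bool => cG D w) :=
  ((PU.const 2).mul (pu_cN D)).add ((pu_cR D).mul (PU.const _))

/-- Functions of a word, in the context of further numbers. -/
theorem pu_aux {α : Type} [Ctx α] {W : α → List Bool} (h : ∀ f : List Bool → ℕ, PU f → PU (fun a => f (W a)))
    {j k : α → ℕ} (hj : PU j) (hk : PU k) : PU (fun a => cAux D (W a) (j a) (k a)) :=
  ((h _ D.hnv).mul (PU.const _)).add ((hj.mul (PU.const _)).add hk)

end Comp

abbrev Cx := List Bool × ℕ

theorem pu_K : PU (fun p : List Bool × ℕ => cK D p.1 p.2) :=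
  (PU.snd.sub ((PU.const 2).mul (pu_cN D).wk)).mod (PU.const _)

theorem pu_J : PU (fun p : List Bool × ℕ => cJ D p.1 p.2) :=
  (PU.snd.sub ((PU.const 2).mul (pu_cN D).wk)).div (PU.const _)

theorem pu_cAux {j k : List Bool × ℕ → ℕ} (hj : PU j) (hk : PU k) :
    PU (fun p : List Bool × ℕ => cAux D p.1 (j p) (k p)) :=
  (D.hnv.wk.mul (PU.const _)).add ((hj.mul (PU.const _)).add hk)

theorem pu_val (e : ℕ) : PU (fun p : List Bool × ℕ => D.val e p.1 (cJ D p.1 p.2)) :=
  PU.subst (α := List Bool × ℕ) (f := fun p j => D.val e p.1 j) (g := fun p => cJ D p.1 p.2)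
    (PU.mid (α := List Bool) (f := fun w j => D.val e w j) (D.hval e)) (pu_J D)

theorem pu_var (e : ℕ) : PU (fun p : List Bool × ℕ => D.var e p.1 (cJ D p.1 p.2)) :=
  PU.subst (α := List Bool × ℕ) (f := fun p j => D.var e p.1 j) (g := fun p => cJ D p.1 p.2)
    (PU.mid (α := List Bool) (f := fun w j => D.var e w j) (D.hvar e)) (pu_J D)

theorem pu_selval : PU (fun p : List Bool × ℕ =>
    if cK D p.1 p.2 < D.c then D.val (cK D p.1 p.2) p.1 (cJ D p.1 p.2) else 0) :=
  pu_sel (pu_K D) (fun e p => D.val e p.1 (cJ D p.1 p.2)) D.c (pu_val D)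

theorem pu_selvar : PU (fun p : List Bool × ℕ =>
    if cK D p.1 p.2 < D.c then D.var (cK D p.1 p.2) p.1 (cJ D p.1 p.2) else 0) :=
  pu_sel (pu_K D) (fun e p => D.var e p.1 (cJ D p.1 p.2)) D.c (pu_var D)

theorem pp_link : PP (fun p : List Bool × ℕ => p.2 < 2 * cN D p.1) :=
  PP.lt PU.snd ((PU.const 2).mul (pu_cN D).wk)

theorem pp_KL : PP (fun p : List Bool × ℕ => cK D p.1 p.2 < cL D) :=
  PP.lt (pu_K D) (PU.const _)

theorem pu_unit : PU (fun p : List Bool × ℕ =>
    cAux D p.1 (cJ D p.1 p.2) ((cK D p.1 p.2 - cL D) * cL D)) :=
  pu_cAux D (pu_J D) (((pu_K D).sub (PU.const _)).mul (PU.const _))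

theorem pu_Tv : PU (fun p : List Bool × ℕ => cTv D p.1 (cJ D p.1 p.2) (cK D p.1 p.2)) := by
  have hm : PP (fun p : List Bool × ℕ => cJ D p.1 p.2 < D.m p.1) := PP.lt (pu_J D) D.hm.wk
  have ha := pu_cAux D (pu_J D) (pu_K D)
  refine PU.ite hm (PU.ite (PP.lt (pu_K D) (PU.const _)) (PU.ite (PP.lt (pu_selval D) (PU.const _))
    (((pu_selvar D).mul (PU.const _)).add (pu_selval D)) ha) ha) ?_
  exact PU.ite (PP.lt (pu_K D) (PU.const _))
    ((((pu_J D).sub D.hm.wk).mul (PU.const _)).add (pu_K D)) ha

theorem pp_Ts : PP (fun p : List Bool × ℕ => cTs D p.1 (cJ D p.1 p.2) (cK D p.1 p.2)) := by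
  refine ((PP.lt (pu_J D) D.hm.wk).and
    ((PP.lt (pu_K D) (PU.const _)).imp (PP.lt (pu_selval D) (PU.const _)))).or
    ((PP.le D.hm.wk (pu_J D)).and (PP.le (PU.const _) (pu_K D)))

theorem pu_v1 : PU (fun p : List Bool × ℕ => (red D p.1).v1 p.2) :=
  PU.ite (pp_link D) (PU.snd.div (PU.const 2))
    (PU.ite (pp_KL D) (pu_cAux D (pu_J D) (pu_K D)) (pu_unit D))

theorem pu_v2 : PU (fun p : List Bool × ℕ => (red D p.1).v2 p.2) :=
  PU.ite (pp_link D) (PU.snd.div (PU.const 2))
    (PU.ite (pp_KL D) (pu_cAux D (pu_J D) ((pu_K D).add (PU.const 1))) (pu_unit D))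

theorem pu_v3 : PU (fun p : List Bool × ℕ => (red D p.1).v3 p.2) :=
  PU.ite (pp_link D) (PU.snd.div (PU.const 2)) (PU.ite (pp_KL D) (pu_Tv D) (pu_unit D))

theorem pp_nlink : PP (fun p : List Bool × ℕ => 2 * cN D p.1 ≤ p.2) :=
  PP.le ((PU.const 2).mul (pu_cN D).wk) PU.snd

theorem pp_end : PP (fun p : List Bool × ℕ => cK D p.1 p.2 = cL D + 1) :=
  PP.eq (pu_K D) (PU.const _)

theorem pp_odd (b : ℕ) : PP (fun p : List Bool × ℕ => p.2 % 2 = b) :=
  PP.eq (PU.snd.mod (PU.const 2)) (PU.const b)

theorem pp_s1 : PP (fun p : List Bool × ℕ => (red D p.1).s1 p.2 = true) := by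
  refine PP.congr (Q := fun p : List Bool × ℕ => cS1 D p.1 p.2) ?_
    (fun p => by simp [red])
  exact ((pp_link D).and (pp_odd 1)).or ((pp_nlink D).and ((pp_KL D).or (pp_end D)))

theorem pp_s2 : PP (fun p : List Bool × ℕ => (red D p.1).s2 p.2 = true) := by
  refine PP.congr (Q := fun p : List Bool × ℕ => cS2 D p.1 p.2) ?_
    (fun p => by simp [red])
  exact ((pp_link D).and (pp_odd 0)).or ((pp_nlink D).and (pp_end D))

theorem pp_s3 : PP (fun p : List Bool × ℕ => (red D p.1).s3 p.2 = true) := by
  refine PP.congr (Q := fun p : List Bool × ℕ => cS3 D p.1 p.2) ?_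
    (fun p => by simp [red])
  exact ((pp_link D).and (pp_odd 1)).or
    ((pp_nlink D).and (((pp_KL D).and (pp_Ts D)).or (pp_end D)))

/-! ### Bounds -/

theorem cAux_lt {w : List Bool} {j k : ℕ} (hj : j < cR D w) (hk : k ≤ cL D) :
    cAux D w j k < cN D w := by
  unfold cAux cN
  have h : j * (cL D + 1) + k < cR D w * (cL D + 1) := by
    have h2 : (j + 1) * (cL D + 1) ≤ cR D w * (cL D + 1) := Nat.mul_le_mul_right _ hj
    rw [Nat.add_mul, Nat.one_mul] at h2
    omega
  omega

theorem cJ_lt {w : List Bool} {g : ℕ} (hg : g < cG D w) (h : 2 * cN D w ≤ g) :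
    cJ D w g < cR D w := by
  unfold cJ
  rw [Nat.div_lt_iff_lt_mul (by omega)]
  unfold cG at hg
  omega

theorem cK_lt {w : List Bool} {g : ℕ} : cK D w g < cL D + 2 := Nat.mod_lt _ (by omega)

theorem var_mul {v n d a : ℕ} (hv : v < n) (ha : a < d) : v * d + a < n * d := by
  have h1 : (v + 1) * d ≤ n * d := Nat.mul_le_mul_right d hv
  rw [Nat.add_mul, Nat.one_mul] at h1
  omega

theorem cTv_lt {w : List Bool} {j k : ℕ} (hj : j < cR D w) (hk : k < cL D) :
    cTv D w j k < cN D w := by
  have ha := cAux_lt D hj hk.le
  have hb : D.nv w * D.d ≤ cN D w := by unfold cN; omega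
  unfold cTv
  split_ifs with h1 h2 h3 h4
  · have := var_mul (D.var_lt w j h1 k h2) h3
    omega
  · exact ha
  · exact ha
  · have h5 : j - D.m w < D.nv w := by unfold cR at hj; omega
    have := var_mul h5 h4
    omega
  · exact ha

theorem cUnit_le {w : List Bool} {g : ℕ} (h : ¬ cK D w g < cL D) :
    (cK D w g - cL D) * cL D ≤ cL D := by
  have := cK_lt D (w := w) (g := g)
  have h2 : cK D w g - cL D ≤ 1 := by omega
  calc (cK D w g - cL D) * cL D ≤ 1 * cL D := Nat.mul_le_mul_right _ h2
    _ = cL D := Nat.one_mul _

theorem red_v1_lt {w : List Bool} {g : ℕ} (hg : g < (red D w).G) : (red D w).v1 g < (red D w).N := by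
  change g < cG D w at hg
  change cV1 D w g < cN D w
  unfold cV1
  split_ifs with h1 h2
  · omega
  · exact cAux_lt D (cJ_lt D hg (by omega)) h2.le
  · exact cAux_lt D (cJ_lt D hg (by omega)) (cUnit_le D h2)

theorem red_v2_lt {w : List Bool} {g : ℕ} (hg : g < (red D w).G) : (red D w).v2 g < (red D w).N := by
  change g < cG D w at hg
  change cV2 D w g < cN D w
  unfold cV2
  split_ifs with h1 h2
  · omega
  · exact cAux_lt D (cJ_lt D hg (by omega)) h2
  · exact cAux_lt D (cJ_lt D hg (by omega)) (cUnit_le D h2)

theorem red_v3_lt {w : List Bool} {g : ℕ} (hg : g < (red D w).G) : (red D w).v3 g < (red D w).N := by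
  change g < cG D w at hg
  change cV3 D w g < cN D w
  unfold cV3
  split_ifs with h1 h2
  · omega
  · exact cTv_lt D (cJ_lt D hg (by omega)) h2
  · exact cAux_lt D (cJ_lt D hg (by omega)) (cUnit_le D h2)

theorem red_N_pos (w : List Bool) : 0 < (red D w).N := by
  change 0 < cN D w
  unfold cN; omega

theorem red_G_pos (w : List Bool) : 0 < (red D w).G := by
  change 0 < cG D w
  unfold cG cN; omega

/-! ### Correctness -/

theorem s1_iff {w : List Bool} {g : ℕ} : (red D w).s1 g = true ↔ cS1 D w g := by simp [red]

theorem s2_iff {w : List Bool} {g : ℕ} : (red D w).s2 g = true ↔ cS2 D w g := by simp [red]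

theorem s3_iff {w : List Bool} {g : ℕ} : (red D w).s3 g = true ↔ cS3 D w g := by simp [red]

/-- The group number of position `k` of the long clause `j`. -/
def cIdx (w : List Bool) (j k : ℕ) : ℕ := 2 * cN D w + (j * (cL D + 2) + k)

theorem cIdx_lt {w : List Bool} {j k : ℕ} (hj : j < cR D w) (hk : k < cL D + 2) :
    cIdx D w j k < cG D w := by
  have := var_mul hj hk
  unfold cIdx cG
  omega

theorem cJ_idx {w : List Bool} {j k : ℕ} (hk : k < cL D + 2) : cJ D w (cIdx D w j k) = j := by
  unfold cJ cIdx
  rw [Nat.add_sub_cancel_left, Nat.mul_comm, Nat.mul_add_div (by omega), Nat.div_eq_of_lt hk,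
    Nat.add_zero]

theorem cK_idx {w : List Bool} {j k : ℕ} (hk : k < cL D + 2) : cK D w (cIdx D w j k) = k := by
  unfold cK cIdx
  rw [Nat.add_sub_cancel_left, Nat.mul_comm, Nat.mul_add_mod, Nat.mod_eq_of_lt hk]

theorem idx_ge {w : List Bool} {j k : ℕ} : 2 * cN D w ≤ cIdx D w j k := by
  unfold cIdx; omega

theorem red_sat (w : List Bool) : (red D w).Sat ↔ D.Sat w := by
  classical
  constructor
  · rintro ⟨x, y, h⟩
    have hxy : ∀ v, v < cN D w → y v = x v := by
      intro v hv
      have hG : 2 * cN D w ≤ cG D w := by unfold cG; omega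
      have e0 : (2 * v + 0) / 2 = v := by omega
      have e1 : (2 * v + 1) / 2 = v := by omega
      cases hx : x v with
      | true =>
        by_contra hy
        have hy' : y v = false := by
          cases hh : y v with
          | true => exact absurd hh hy
          | false => rfl
        refine h (2 * v + 1) (by change _ < cG D w; omega) ⟨?_, ?_, ?_⟩
        · have a1 : (red D w).v1 (2 * v + 1) = v := by
            change cV1 D w _ = _
            unfold cV1
            rw [if_pos (by omega), e1]
          rw [a1, hx]
          exact ((s1_iff D).2 (Or.inl ⟨by omega, by omega⟩)).symm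
        · have a1 : (red D w).v2 (2 * v + 1) = v := by
            change cV2 D w _ = _
            unfold cV2
            rw [if_pos (by omega), e1]
          rw [a1, hy']
          cases hs : (red D w).s2 (2 * v + 1) with
          | false => rfl
          | true =>
            rcases (s2_iff D).1 hs with hs | hs
            · omega
            · omega
        · have a1 : (red D w).v3 (2 * v + 1) = v := by
            change cV3 D w _ = _
            unfold cV3
            rw [if_pos (by omega), e1]
          rw [a1, hx]
          exact ((s3_iff D).2 (Or.inl ⟨by omega, by omega⟩)).symm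
      | false =>
        by_contra hy
        have hy' : y v = true := by
          cases hh : y v with
          | true => rfl
          | false => exact absurd hh hy
        refine h (2 * v + 0) (by change _ < cG D w; omega) ⟨?_, ?_, ?_⟩
        · have a1 : (red D w).v1 (2 * v + 0) = v := by
            change cV1 D w _ = _
            unfold cV1
            rw [if_pos (by omega), e0]
          rw [a1, hx]
          cases hs : (red D w).s1 (2 * v + 0) with
          | false => rfl
          | true =>
            rcases (s1_iff D).1 hs with hs | hs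
            · omega
            · omega
        · have a1 : (red D w).v2 (2 * v + 0) = v := by
            change cV2 D w _ = _
            unfold cV2
            rw [if_pos (by omega), e0]
          rw [a1, hy']
          exact ((s2_iff D).2 (Or.inl ⟨by omega, by omega⟩)).symm
        · have a1 : (red D w).v3 (2 * v + 0) = v := by
            change cV3 D w _ = _
            unfold cV3
            rw [if_pos (by omega), e0]
          rw [a1, hx]
          cases hs : (red D w).s3 (2 * v + 0) with
          | false => rfl
          | true =>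
            rcases (s3_iff D).1 hs with hs | hs
            · omega
            · omega
    -- the long clauses
    have hlong : ∀ j, j < cR D w → ∃ k, k < cL D ∧ x (cAux D w j k) = true ∧
        ¬ (x (cTv D w j k) = true ↔ cTs D w j k) := by
      intro j hj
      have hst : x (cAux D w j 0) = true := by
        by_contra hx
        have hx' : x (cAux D w j 0) = false := by
          cases hh : x (cAux D w j 0) with
          | true => exact absurd hh hx
          | false => rfl
        have hk : cL D < cL D + 2 := by omega
        have hi := cIdx_lt D hj hk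
        have ej := cJ_idx D (w := w) (j := j) hk
        have ek := cK_idx D (w := w) (j := j) hk
        have hge := idx_ge D (w := w) (j := j) (k := cL D)
        have hy' : y (cAux D w j 0) = false := by
          rw [hxy _ (cAux_lt D hj (by omega))]; exact hx'
        refine h (cIdx D w j (cL D)) hi ⟨?_, ?_, ?_⟩
        · have a1 : (red D w).v1 (cIdx D w j (cL D)) = cAux D w j 0 := by
            change cV1 D w _ = _
            unfold cV1
            rw [if_neg (by omega), ej, ek, if_neg (by omega), Nat.sub_self, Nat.zero_mul]
          rw [a1, hx']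
          cases hs : (red D w).s1 (cIdx D w j (cL D)) with
          | false => rfl
          | true =>
            rcases (s1_iff D).1 hs with hs | hs
            · omega
            · rw [ek] at hs; omega
        · have a1 : (red D w).v2 (cIdx D w j (cL D)) = cAux D w j 0 := by
            change cV2 D w _ = _
            unfold cV2
            rw [if_neg (by omega), ej, ek, if_neg (by omega), Nat.sub_self, Nat.zero_mul]
          rw [a1, hy']
          cases hs : (red D w).s2 (cIdx D w j (cL D)) with
          | false => rfl
          | true =>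
            rcases (s2_iff D).1 hs with hs | hs
            · omega
            · rw [ek] at hs; omega
        · have a1 : (red D w).v3 (cIdx D w j (cL D)) = cAux D w j 0 := by
            change cV3 D w _ = _
            unfold cV3
            rw [if_neg (by omega), ej, ek, if_neg (by omega), Nat.sub_self, Nat.zero_mul]
          rw [a1, hx']
          cases hs : (red D w).s3 (cIdx D w j (cL D)) with
          | false => rfl
          | true =>
            rcases (s3_iff D).1 hs with hs | hs
            · omega
            · rw [ek] at hs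
              rcases hs.2 with hs | hs
              · omega
              · omega
      have hen : x (cAux D w j (cL D)) = false := by
        cases hx : x (cAux D w j (cL D)) with
        | false => rfl
        | true =>
          exfalso
          have hk : cL D + 1 < cL D + 2 := by omega
          have hi := cIdx_lt D hj hk
          have ej := cJ_idx D (w := w) (j := j) hk
          have ek := cK_idx D (w := w) (j := j) hk
          have hge := idx_ge D (w := w) (j := j) (k := cL D + 1)
          have hy' : y (cAux D w j (cL D)) = true := by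
            rw [hxy _ (cAux_lt D hj le_rfl)]; exact hx
          refine h (cIdx D w j (cL D + 1)) hi ⟨?_, ?_, ?_⟩
          · have a1 : (red D w).v1 (cIdx D w j (cL D + 1)) = cAux D w j (cL D) := by
              change cV1 D w _ = _
              unfold cV1
              rw [if_neg (by omega), ej, ek, if_neg (by omega), Nat.add_sub_cancel_left,
                Nat.one_mul]
            rw [a1, hx]
            exact ((s1_iff D).2 (Or.inr ⟨by omega, Or.inr ek⟩)).symm
          · have a1 : (red D w).v2 (cIdx D w j (cL D + 1)) = cAux D w j (cL D) := by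
              change cV2 D w _ = _
              unfold cV2
              rw [if_neg (by omega), ej, ek, if_neg (by omega), Nat.add_sub_cancel_left,
                Nat.one_mul]
            rw [a1, hy']
            exact ((s2_iff D).2 (Or.inr ⟨by omega, ek⟩)).symm
          · have a1 : (red D w).v3 (cIdx D w j (cL D + 1)) = cAux D w j (cL D) := by
              change cV3 D w _ = _
              unfold cV3
              rw [if_neg (by omega), ej, ek, if_neg (by omega), Nat.add_sub_cancel_left,
                Nat.one_mul]
            rw [a1, hx]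
            exact ((s3_iff D).2 (Or.inr ⟨by omega, Or.inr ek⟩)).symm
      -- the first change
      have hch : ∃ k, k < cL D ∧ x (cAux D w j k) = true ∧ x (cAux D w j (k + 1)) = false := by
        by_contra hno
        push Not at hno
        have : ∀ k, k ≤ cL D → x (cAux D w j k) = true := by
          intro k
          induction k with
          | zero => intro _; exact hst
          | succ k ih =>
            intro hk
            have h1 := hno k (by omega) (ih (by omega))
            cases hh : x (cAux D w j (k + 1)) with
            | true => rfl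
            | false => exact absurd hh h1
        rw [this _ le_rfl] at hen
        exact absurd hen (by simp)
      obtain ⟨k, hk, hk1, hk2⟩ := hch
      refine ⟨k, hk, hk1, fun hiff => ?_⟩
      have hk' : k < cL D + 2 := by omega
      have hi := cIdx_lt D hj hk'
      have ej := cJ_idx D (w := w) (j := j) hk'
      have ek := cK_idx D (w := w) (j := j) hk'
      have hge := idx_ge D (w := w) (j := j) (k := k)
      refine h (cIdx D w j k) hi ⟨?_, ?_, ?_⟩
      · have a1 : (red D w).v1 (cIdx D w j k) = cAux D w j k := by
          change cV1 D w _ = _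
          unfold cV1
          rw [if_neg (by omega), ej, ek, if_pos hk]
        rw [a1, hk1]
        exact ((s1_iff D).2 (Or.inr ⟨by omega, Or.inl (by omega)⟩)).symm
      · have a1 : (red D w).v2 (cIdx D w j k) = cAux D w j (k + 1) := by
          change cV2 D w _ = _
          unfold cV2
          rw [if_neg (by omega), ej, ek, if_pos hk]
        rw [a1, hxy _ (cAux_lt D hj (by omega)), hk2]
        cases hs : (red D w).s2 (cIdx D w j k) with
        | false => rfl
        | true =>
          rcases (s2_iff D).1 hs with hs | hs
          · omega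
          · rw [ek] at hs; omega
      · have a1 : (red D w).v3 (cIdx D w j k) = cTv D w j k := by
          change cV3 D w _ = _
          unfold cV3
          rw [if_neg (by omega), ej, ek, if_pos hk]
        rw [a1]
        rw [Bool.eq_iff_iff, hiff, s3_iff]
        constructor
        · intro ht
          refine Or.inr ⟨by omega, Or.inl ⟨by omega, ?_⟩⟩
          rw [ej, ek]; exact ht
        · rintro (hs | ⟨_, hs | hs⟩)
          · omega
          · rw [ej, ek] at hs; exact hs.2
          · omega
    -- the values
    have hval : ∀ v, v < D.nv w → ∃ a, a < D.d ∧ x (v * D.d + a) = true := by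
      intro v hv
      obtain ⟨k, hk, hk1, hk2⟩ := hlong (D.m w + v) (by unfold cR; omega)
      have hm : ¬ D.m w + v < D.m w := by omega
      by_cases hkd : k < D.d
      · refine ⟨k, hkd, ?_⟩
        have e : cTv D w (D.m w + v) k = v * D.d + k := by
          unfold cTv
          rw [if_neg hm, if_pos hkd, Nat.add_sub_cancel_left]
        rw [e] at hk2
        have hts : ¬ cTs D w (D.m w + v) k := by
          rintro (hs | hs)
          · omega
          · omega
        by_contra hx
        exact hk2 ⟨fun h1 => absurd h1 hx, fun h1 => absurd h1 hts⟩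
      · exfalso
        have e : cTv D w (D.m w + v) k = cAux D w (D.m w + v) k := by
          unfold cTv
          rw [if_neg hm, if_neg hkd]
        rw [e] at hk2
        exact hk2 ⟨fun _ => Or.inr ⟨by omega, by omega⟩, fun _ => hk1⟩
    choose! X hX using hval
    refine ⟨X, fun v hv => (hX v hv).1, fun j hj => ?_⟩
    obtain ⟨k, hk, hk1, hk2⟩ := hlong j (by unfold cR; omega)
    have hkc : k < D.c := by
      by_contra hkc
      have e : cTv D w j k = cAux D w j k := by
        unfold cTv
        rw [if_pos hj, if_neg hkc]
      rw [e] at hk2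
      exact hk2 ⟨fun _ => Or.inl ⟨hj, fun h1 => absurd h1 hkc⟩, fun _ => hk1⟩
    refine ⟨k, hkc, ?_⟩
    have hvn := D.var_lt w j hj k hkc
    by_cases hd : D.val k w j < D.d
    · have e : cTv D w j k = D.var k w j * D.d + D.val k w j := by
        unfold cTv
        simp only [if_pos hj, if_pos hkc, if_pos hd]
      rw [e] at hk2
      have hts : cTs D w j k := Or.inl ⟨hj, fun _ => by rw [if_pos hkc]; exact hd⟩
      intro hXe
      have h1 := (hX _ hvn).2
      rw [hXe] at h1
      exact hk2 ⟨fun _ => hts, fun _ => h1⟩
    · have := (hX _ hvn).1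
      omega
  · rintro ⟨X, hX, hS⟩
    have hκ : ∀ j, j < cR D w → ∃ k, k < cL D ∧
        ((j < D.m w ∧ k < D.c ∧ X (D.var k w j) ≠ D.val k w j) ∨
          (D.m w ≤ j ∧ k < D.d ∧ X (j - D.m w) = k)) := by
      intro j hj
      by_cases hm : j < D.m w
      · obtain ⟨e, he, hne⟩ := hS j hm
        exact ⟨e, by unfold cL; omega, Or.inl ⟨hm, he, hne⟩⟩
      · have hv : j - D.m w < D.nv w := by unfold cR at hj; omega
        have := hX _ hv
        exact ⟨X (j - D.m w), by unfold cL; omega, Or.inr ⟨by omega, this, rfl⟩⟩
    choose! κ hκ using hκ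
    let x : ℕ → Bool := fun u =>
      if u < D.nv w * D.d then decide (X (u / D.d) = u % D.d)
      else decide ((u - D.nv w * D.d) % (cL D + 1) ≤ κ ((u - D.nv w * D.d) / (cL D + 1)))
    have hx1 : ∀ v a, v < D.nv w → a < D.d → (x (v * D.d + a) = true ↔ X v = a) := by
      intro v a hv ha
      have h0 : 0 < D.d := by omega
      have e1 : (v * D.d + a) / D.d = v := by
        rw [Nat.mul_comm, Nat.mul_add_div h0, Nat.div_eq_of_lt ha, Nat.add_zero]
      have e2 : (v * D.d + a) % D.d = a := by
        rw [Nat.mul_comm, Nat.mul_add_mod, Nat.mod_eq_of_lt ha]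
      simp only [x]
      rw [if_pos (var_mul hv ha), e1, e2, decide_eq_true_iff]
    have hx2 : ∀ j k, k ≤ cL D → (x (cAux D w j k) = true ↔ k ≤ κ j) := by
      intro j k hk
      have hk' : k < cL D + 1 := by omega
      have e1 : (j * (cL D + 1) + k) / (cL D + 1) = j := by
        rw [Nat.mul_comm, Nat.mul_add_div (by omega), Nat.div_eq_of_lt hk', Nat.add_zero]
      have e2 : (j * (cL D + 1) + k) % (cL D + 1) = k := by
        rw [Nat.mul_comm, Nat.mul_add_mod, Nat.mod_eq_of_lt hk']
      simp only [x, cAux]
      rw [if_neg (by omega), Nat.add_sub_cancel_left, e1, e2, decide_eq_true_iff]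
    refine ⟨x, x, ?_⟩
    intro g hg
    change g < cG D w at hg
    rintro ⟨h1, h2, h3⟩
    by_cases hgl : g < 2 * cN D w
    · have a1 : (red D w).v1 g = g / 2 := by
        change cV1 D w _ = _
        unfold cV1
        rw [if_pos hgl]
      have a2 : (red D w).v2 g = g / 2 := by
        change cV2 D w _ = _
        unfold cV2
        rw [if_pos hgl]
      rw [a1] at h1
      rw [a2] at h2
      rw [h1, Bool.eq_iff_iff, s1_iff, s2_iff] at h2
      rcases Nat.mod_two_eq_zero_or_one g with h0 | h0
      · have h4 : cS2 D w g := Or.inl ⟨hgl, h0⟩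
        rcases h2.2 h4 with h5 | h5
        · omega
        · omega
      · have h4 : cS1 D w g := Or.inl ⟨hgl, h0⟩
        rcases h2.1 h4 with h5 | h5
        · omega
        · omega
    · have hj := cJ_lt D hg (by omega)
      have hkk := cK_lt D (w := w) (g := g)
      obtain ⟨hκ1, hκ2⟩ := hκ _ hj
      by_cases hk : cK D w g < cL D
      · have a1 : (red D w).v1 g = cAux D w (cJ D w g) (cK D w g) := by
          change cV1 D w _ = _
          unfold cV1
          rw [if_neg hgl, if_pos hk]
        have a2 : (red D w).v2 g = cAux D w (cJ D w g) (cK D w g + 1) := by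
          change cV2 D w _ = _
          unfold cV2
          rw [if_neg hgl, if_pos hk]
        have a3 : (red D w).v3 g = cTv D w (cJ D w g) (cK D w g) := by
          change cV3 D w _ = _
          unfold cV3
          rw [if_neg hgl, if_pos hk]
        rw [a1, Bool.eq_iff_iff, s1_iff, hx2 _ _ hk.le] at h1
        rw [a2, Bool.eq_iff_iff, s2_iff, hx2 _ _ (by omega)] at h2
        rw [a3, Bool.eq_iff_iff, s3_iff] at h3
        have hk1 : cK D w g ≤ κ (cJ D w g) := h1.2 (Or.inr ⟨by omega, Or.inl hk⟩)
        have hk2 : ¬ cK D w g + 1 ≤ κ (cJ D w g) := by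
          intro h4
          rcases h2.1 h4 with h5 | h5
          · omega
          · omega
        have hkκ : κ (cJ D w g) = cK D w g := by omega
        rw [hkκ] at hκ2
        have h3' : x (cTv D w (cJ D w g) (cK D w g)) = true ↔ cTs D w (cJ D w g) (cK D w g) := by
          rw [h3]
          constructor
          · rintro (h5 | ⟨_, h5 | h5⟩)
            · omega
            · exact h5.2
            · omega
          · intro h5
            exact Or.inr ⟨by omega, Or.inl ⟨hk, h5⟩⟩
        rcases hκ2 with ⟨b1, b2, b3⟩ | ⟨b1, b2, b3⟩
        · by_cases hd : D.val (cK D w g) w (cJ D w g) < D.d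
          · have e : cTv D w (cJ D w g) (cK D w g) =
                D.var (cK D w g) w (cJ D w g) * D.d + D.val (cK D w g) w (cJ D w g) := by
              unfold cTv
              simp only [if_pos b1, if_pos b2, if_pos hd]
            rw [e, hx1 _ _ (D.var_lt w _ b1 _ b2) hd] at h3'
            exact b3 (h3'.2 (Or.inl ⟨b1, fun _ => by rw [if_pos b2]; exact hd⟩))
          · have e : cTv D w (cJ D w g) (cK D w g) = cAux D w (cJ D w g) (cK D w g) := by
              unfold cTv
              simp only [if_pos b1, if_pos b2, if_neg hd]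
            rw [e, hx2 _ _ hk.le] at h3'
            rcases h3'.1 hk1 with h5 | h5
            · have := h5.2 b2
              rw [if_pos b2] at this
              exact hd this
            · omega
        · have e : cTv D w (cJ D w g) (cK D w g) = (cJ D w g - D.m w) * D.d + cK D w g := by
            unfold cTv
            rw [if_neg (by omega), if_pos b2]
          rw [e, hx1 _ _ (by unfold cR at hj; omega) b2] at h3'
          rcases h3'.1 b3 with h5 | h5
          · omega
          · omega
      · rcases (by omega : cK D w g = cL D ∨ cK D w g = cL D + 1) with hkL | hkL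
        · have a1 : (red D w).v1 g = cAux D w (cJ D w g) 0 := by
            change cV1 D w _ = _
            unfold cV1
            rw [if_neg hgl, if_neg hk, hkL, Nat.sub_self, Nat.zero_mul]
          rw [a1, Bool.eq_iff_iff, s1_iff, hx2 _ _ (Nat.zero_le _)] at h1
          rcases h1.1 (Nat.zero_le _) with h5 | h5
          · omega
          · omega
        · have a1 : (red D w).v1 g = cAux D w (cJ D w g) (cL D) := by
            change cV1 D w _ = _
            unfold cV1
            rw [if_neg hgl, if_neg hk, hkL, Nat.add_sub_cancel_left, Nat.one_mul]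
          rw [a1, Bool.eq_iff_iff, s1_iff, hx2 _ _ le_rfl] at h1
          have := h1.2 (Or.inr ⟨by omega, Or.inr hkL⟩)
          omega

end Pool.Agent.Helper1.MF
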