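import Pool.Agent.Helper1.MF.SheetPoly
import Pool.Agent.Helper81.MFD.Bridge

/-!
The final theorem, from soundness and completeness of the sheet.
-/

set_option autoImplicit false

namespace Pool.Agent.Helper1.MF

open Helper68.Una Computability Pool.Agent.Helper81.MFD Pool.Agent.Helper69.MF

theorem np_hard_of (sound : ∀ I : Sys, I.Wf → 0 < I.N → Foldable I.pat I.width I.height → I.Sat)
    (complete : ∀ I : Sys, I.Wf → 0 < I.N → I.Sat → Foldable I.pat I.width I.height)
    (L : Set (List Bool)) (hL : Helper68.NP.InNP L) :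
    ∃ f : List Bool → Inst,
      Nonempty (Turing.TM2ComputableInPolyTime (id : List Bool → List Bool) encodeInst f) ∧
      ∀ w, w ∈ L ↔ (f w).FlatFoldable := by
  obtain ⟨M, p, hM⟩ := hL
  obtain ⟨D, hD⟩ := Helper68.Tab.tableau M p
  refine ⟨mfInst D, polytime_mfInst D, fun w => ?_⟩
  have h1 : w ∈ L ↔ (sys D w).Sat := (hM w).trans ((hD w).trans (sys_sat D w).symm)
  rw [h1]
  unfold mfInst
  rw [ofPat_flatFoldable_iff]
  exact ⟨complete _ (sys_wf D w) (red_N_pos D w), sound _ (sys_wf D w) (red_N_pos D w)⟩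

end Pool.Agent.Helper1.MF
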