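import Pool.Agent.Helper1.MF.CDefs

/-!
Map folding, completeness, module STRIPS (helper70): the strips of a group of the sheet.

`up d A` is the pattern `A` seen from the row `d` on. For `a + r ≤ 52` (`a` even) the flips of the
sheet in row `52 g + a + r` are `flG I g c (r + a)` (row 52 of a group has no flips, by both
definitions), the row pattern is `rhA a`, the parity of the row is the parity of `r`. Then restrict
`flG` to the rows which occur: a gadget `gadFl G a0 d e` is false unless `a0 ≤ e < a0 + 4`.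
Use `fold_congr`; `Str`, `Nst`, `Opn` contain the pattern only in `Fold`.
-/

set_option autoImplicit false

namespace Pool.Agent.Helper1.MF

open Pool.Agent.Helper69.MF Pool.Agent.Helper64.MF

theorem gad_lo {G : List ℕ} {a d e : ℕ} (h : e < a) : gadFl G a d e = false := by
  unfold gadFl
  have h1 : Nat.ble a e = false := by
    rw [Bool.eq_false_iff]
    intro h2
    have := Nat.le_of_ble_eq_true h2
    omega
  rw [h1, Bool.false_and, Bool.false_and]

theorem gad_hi {G : List ℕ} {a d e : ℕ} (h : a + 4 ≤ e) : gadFl G a d e = false := by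
  unfold gadFl
  have h1 : Nat.blt e (a + 4) = false := by
    rw [Bool.eq_false_iff]
    intro h2
    have := Nat.le_of_ble_eq_true h2
    omega
  rw [h1, Bool.and_false, Bool.false_and]

theorem C_lo {s : Bool} {d e : ℕ} (h : e < 3) : GC s d e = false := by
  unfold GC
  rw [gad_lo h, Bool.and_false]

theorem C_hi {s : Bool} {d e : ℕ} (h : 7 ≤ e) : GC s d e = false := by
  unfold GC
  rw [gad_hi (by omega), Bool.and_false]

theorem Y_lo {s : Bool} {d e : ℕ} (h : e < 12) : GY s d e = false := by
  unfold GY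
  rw [gad_lo h, Bool.and_false]

theorem Y_hi {s : Bool} {d e : ℕ} (h : 16 ≤ e) : GY s d e = false := by
  unfold GY
  rw [gad_hi (by omega), Bool.and_false]

theorem B_lo {s : Bool} {d e : ℕ} (h : e < 29) : GB s d e = false := by
  unfold GB
  rw [gad_lo h, Bool.and_false]

theorem B_hi {s : Bool} {d e : ℕ} (h : 33 ≤ e) : GB s d e = false := by
  unfold GB
  rw [gad_hi (by omega), Bool.and_false]

/-- The flips of the sheet in one group. -/
theorem flS_eq (I : Sys) (g c : ℕ) {e : ℕ} (he : e ≤ 52) : I.flS c (52 * g + e) = flG I g c e := by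
  rcases Nat.lt_or_ge e 52 with h | h
  · have h1 : (52 * g + e) / 52 = g := by omega
    have h2 : (52 * g + e) % 52 = e := by omega
    unfold Sys.flS flG GC GY GB
    rw [h1, h2]
    cases inGad (c % 12)
    · simp only [Bool.false_and, Bool.and_false, Bool.or_false]
    · simp only [Bool.true_and]
  · have h0 : e = 52 := by omega
    subst h0
    have h2 : (52 * g + 52) % 52 = 0 := by omega
    unfold Sys.flS flG
    rw [h2, gad_lo (by norm_num), gad_lo (by norm_num), gad_lo (by norm_num), C_hi (by norm_num),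
      Y_hi (by norm_num), B_hi (by norm_num)]
    simp only [Bool.and_false, Bool.or_false]

theorem rhS_add (g r : ℕ) : rhS (52 * g + r) = rhS r := by
  unfold rhS isWall
  rw [Nat.mul_add_mod]

/-- The pattern of the sheet in a strip of a group. -/
theorem pat_eq (I : Sys) (g a h : ℕ) (ha : a % 2 = 0) (hah : a + h ≤ 52) (F : ℕ → ℕ → Bool)
    (hF : ∀ c r, r ≤ h → flG I g c (r + a) = F c r) :
    (∀ c r, r < h + 1 → (up (52 * g + a) I.pat).H c r = (mkPat sgS (rhA a) F).H c r) ∧
    (∀ c r, r + 1 < h + 1 → (up (52 * g + a) I.pat).V c r = (mkPat sgS (rhA a) F).V c r) := by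
  constructor
  · intro c r hr
    change xor (xor (sgS c) ((r + (52 * g + a)) % 2 == 1))
      (xor (I.flS c (r + (52 * g + a))) (I.flS (c + 1) (r + (52 * g + a)))) =
      xor (xor (sgS c) (r % 2 == 1)) (xor (F c r) (F (c + 1) r))
    have e1 : r + (52 * g + a) = 52 * g + (r + a) := by omega
    have e2 : (52 * g + (r + a)) % 2 = r % 2 := by omega
    rw [e1, e2, flS_eq I g c (by omega), flS_eq I g (c + 1) (by omega), hF c r (by omega),
      hF (c + 1) r (by omega)]
  · intro c r hr
    change xor (rhS (r + (52 * g + a)))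
      (xor (I.flS c (r + (52 * g + a))) (I.flS c (r + (52 * g + a) + 1))) =
      xor (rhS (r + a)) (xor (F c r) (F c (r + 1)))
    have e1 : r + (52 * g + a) = 52 * g + (r + a) := by omega
    have e2 : 52 * g + (r + a) + 1 = 52 * g + ((r + 1) + a) := by omega
    rw [e1, e2, rhS_add, flS_eq I g c (by omega), flS_eq I g c (by omega), hF c r (by omega),
      hF c (r + 1) (by omega)]

theorem Str.congr {A B : Pat} {n h : ℕ} {f : ℕ → ℕ} (H : Str A n h f)
    (hh : (∀ c r, r < h + 1 → B.H c r = A.H c r) ∧ (∀ c r, r + 1 < h + 1 → B.V c r = A.V c r)) :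
    Str B n h f := by
  obtain ⟨p, h1, h2⟩ := H
  exact ⟨p, fold_congr h1 (fun c r _ hr => hh.1 c r hr) (fun c r _ hr => hh.2 c r hr), h2⟩

theorem Nst.congr {A B : Pat} {n h : ℕ} {f : ℕ → ℕ} (H : Nst A n h f)
    (hh : (∀ c r, r < h + 1 → B.H c r = A.H c r) ∧ (∀ c r, r + 1 < h + 1 → B.V c r = A.V c r)) :
    Nst B n h f := by
  obtain ⟨p, h1, h2⟩ := H
  exact ⟨p, fold_congr h1 (fun c r _ hr => hh.1 c r hr) (fun c r _ hr => hh.2 c r hr), h2⟩

variable (I : Sys) (g n : ℕ) (f : ℕ → ℕ)

theorem st1 (H : Str (mkPat sgS (rhA 0) (F1 (I.N + I.lv g 0) (GC (I.ls g 0)))) n 8 f) :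
    Str (up (52 * g) I.pat) n 8 f := by
  refine H.congr (pat_eq I g 0 8 (by norm_num) (by norm_num) _ fun c r hr => ?_)
  unfold flG F1
  rw [Y_lo (by omega), B_lo (by omega)]
  simp only [Bool.and_false, Bool.or_false, Nat.add_zero]

theorem st3 (H : Str (mkPat sgS (rhA 18) F0) n 8 f) : Str (up (52 * g + 18) I.pat) n 8 f := by
  refine H.congr (pat_eq I g 18 8 (by norm_num) (by norm_num) _ fun c r hr => ?_)
  unfold flG F0
  rw [C_hi (by omega), Y_hi (by omega), B_lo (by omega)]
  simp only [Bool.and_false, Bool.or_false]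

theorem st4 (H : Str (mkPat sgS (rhA 26)
      (F1 (I.N + I.lv g 2) (fun d r => GB (I.ls g 2) d (r + 26)))) n 8 f) :
    Str (up (52 * g + 26) I.pat) n 8 f := by
  refine H.congr (pat_eq I g 26 8 (by norm_num) (by norm_num) _ fun c r hr => ?_)
  unfold flG F1
  rw [C_hi (by omega), Y_hi (by omega)]
  simp only [Bool.and_false, Bool.false_or]

theorem st5 (H : Str (mkPat sgS (rhA 34) F0) n 10 f) : Str (up (52 * g + 34) I.pat) n 10 f := by
  refine H.congr (pat_eq I g 34 10 (by norm_num) (by norm_num) _ fun c r hr => ?_)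
  unfold flG F0
  rw [C_hi (by omega), Y_hi (by omega), B_hi (by omega)]
  simp only [Bool.and_false, Bool.or_false]

theorem st6 (H : Str (mkPat sgS (rhA 44) F0) n 8 f) : Str (up (52 * g + 44) I.pat) n 8 f := by
  refine H.congr (pat_eq I g 44 8 (by norm_num) (by norm_num) _ fun c r hr => ?_)
  unfold flG F0
  rw [C_hi (by omega), Y_hi (by omega), B_hi (by omega)]
  simp only [Bool.and_false, Bool.or_false]

theorem st23 (H : Nst (mkPat sgS (rhA 8)
      (F1 (I.lv g 1) (fun d r => GY (I.ls g 1) d (r + 8)))) n 18 f) :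
    Nst (up (52 * g + 8) I.pat) n 18 f := by
  refine H.congr (pat_eq I g 8 18 (by norm_num) (by norm_num) _ fun c r hr => ?_)
  unfold flG F1
  rw [C_hi (by omega), B_lo (by omega)]
  simp only [Bool.and_false, Bool.or_false, Bool.false_or]

theorem st45 (H : Nst (mkPat sgS (rhA 26)
      (F1 (I.N + I.lv g 2) (fun d r => GB (I.ls g 2) d (r + 26)))) n 18 f) :
    Nst (up (52 * g + 26) I.pat) n 18 f := by
  refine H.congr (pat_eq I g 26 18 (by norm_num) (by norm_num) _ fun c r hr => ?_)
  unfold flG F1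
  rw [C_hi (by omega), Y_hi (by omega)]
  simp only [Bool.and_false, Bool.false_or]

theorem st12 (H : Nst (mkPat sgS (rhA 0)
      (F2 (I.lv g 1) (I.N + I.lv g 0) (GY (I.ls g 1)) (GC (I.ls g 0)))) n 18 f) :
    Nst (up (52 * g) I.pat) n 18 f := by
  refine H.congr (pat_eq I g 0 18 (by norm_num) (by norm_num) _ fun c r hr => ?_)
  unfold flG F2
  rw [B_lo (by omega)]
  simp only [Bool.and_false, Bool.or_false, Nat.add_zero]
  rw [Bool.or_comm]

/-- The outer strip of the nest: rows `0 .. 8` and `45 .. 52` of the group around the rows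
`8 .. 44`. -/
theorem st16 : Agree n 17 8 36 (mkPat sgS rhN (F1 (I.N + I.lv g 0) (GC (I.ls g 0))))
    (up (52 * g + 8) I.pat) (up (52 * g) I.pat) := by
  have hlow : ∀ c r, r ≤ 8 → flG I g c (r + 0) = F1 (I.N + I.lv g 0) (GC (I.ls g 0)) c r := by
    intro c r hr
    unfold flG F1
    rw [Y_lo (by omega), B_lo (by omega)]
    simp only [Bool.and_false, Bool.or_false, Nat.add_zero]
  have hP := pat_eq I g 0 8 (by norm_num) (by norm_num) _ hlow
  have hhigh : ∀ c e, 44 ≤ e → e ≤ 52 → I.flS c (52 * g + e) = false := by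
    intro c e h1 h2
    rw [flS_eq I g c h2]
    unfold flG
    rw [C_hi (by omega), Y_hi (by omega), B_hi (by omega)]
    simp only [Bool.and_false, Bool.or_false]
  have hout : ∀ c r, 8 ≤ r → F1 (I.N + I.lv g 0) (GC (I.ls g 0)) c r = false := by
    intro c r hr
    unfold F1
    rw [C_hi (by omega), Bool.and_false]
  refine ⟨fun c r _ hr => ?_, fun c r _ h1 h2 => ?_, fun c r _ _ => ?_, fun c r _ hr => ?_,
    fun c r _ h1 h2 => ?_, fun c r _ _ => ?_⟩
  · exact hP.1 c r (by omega)
  · change xor (xor (sgS c) ((r + 36 + 52 * g) % 2 == 1))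
      (xor (I.flS c (r + 36 + 52 * g)) (I.flS (c + 1) (r + 36 + 52 * g))) =
      xor (xor (sgS c) (r % 2 == 1)) (xor (F1 (I.N + I.lv g 0) (GC (I.ls g 0)) c r)
        (F1 (I.N + I.lv g 0) (GC (I.ls g 0)) (c + 1) r))
    have e1 : r + 36 + 52 * g = 52 * g + (r + 36) := by omega
    have e2 : (52 * g + (r + 36)) % 2 = r % 2 := by omega
    rw [e1, e2, hhigh c _ (by omega) (by omega), hhigh (c + 1) _ (by omega) (by omega),
      hout c r (by omega), hout (c + 1) r (by omega)]
  · change I.pat.H c (r + 8 + 52 * g) = I.pat.H c (r + (52 * g + 8))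
    congr 1
    omega
  · have h := hP.2 c r (by omega)
    change (up (52 * g) I.pat).V c r = xor (rhN r) _
    have e : rhN r = rhA 0 r := by
      unfold rhN rhA
      rw [if_pos hr, Nat.add_zero]
    rw [e]
    exact h
  · change xor (rhS (r + 36 + 52 * g))
      (xor (I.flS c (r + 36 + 52 * g)) (I.flS c (r + 36 + 52 * g + 1))) =
      xor (rhN r) (xor (F1 (I.N + I.lv g 0) (GC (I.ls g 0)) c r)
        (F1 (I.N + I.lv g 0) (GC (I.ls g 0)) c (r + 1)))
    have e1 : r + 36 + 52 * g = 52 * g + (r + 36) := by omega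
    have e3 : 52 * g + (r + 36) + 1 = 52 * g + (r + 37) := by omega
    have e : rhN r = rhS (r + 36) := by
      unfold rhN
      rw [if_neg (by omega)]
    rw [e1, e3, rhS_add, hhigh c _ (by omega) (by omega), hhigh c _ (by omega) (by omega),
      hout c r (by omega), hout c (r + 1) (by omega), e]
  · change I.pat.V c (r + 8 + 52 * g) = I.pat.V c (r + (52 * g + 8))
    congr 1
    omega

/-- The first row of the sheet. -/
theorem st0 (H : Acc (mkPat sgS (fun _ => true) F0) n 0 f) : Acc I.pat n 0 f := by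
  obtain ⟨p, h1, h2⟩ := H
  refine ⟨p, fold_congr h1 (fun c r _ hr => ?_) (fun c r _ hr => ?_), h2⟩
  · have hr0 : r = 0 := by omega
    subst hr0
    have e1 : ∀ c, I.flS c 0 = false := fun c => by
      have := flS_eq I 0 c (e := 0) (by norm_num)
      rw [Nat.mul_zero, Nat.add_zero] at this
      rw [this]
      unfold flG
      rw [C_lo (by norm_num), Y_lo (by norm_num), B_lo (by norm_num)]
      simp only [Bool.and_false, Bool.or_false]
    change xor (xor (sgS c) (0 % 2 == 1)) (xor (I.flS c 0) (I.flS (c + 1) 0)) =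
      xor (xor (sgS c) (0 % 2 == 1)) (xor (F0 c 0) (F0 (c + 1) 0))
    rw [e1, e1]
    rfl
  · omega

end Pool.Agent.Helper1.MF
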