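import Pool.Agent.Helper1.MF.Mk
import Pool.Agent.Helper1.MF.Tables

/-!
Map folding, completeness: kernel checks of the explicit windows.
-/

set_option autoImplicit false

namespace Pool.Agent.Helper1.MF

open Pool.Agent.Helper69.MF Pool.Agent.Helper64.MF

theorem k_V1_0 : chkFold 13 (8 + 1) (mkPat sgS (rhA 0) (F1 0 (GC false))) tV1_0 = true := by
  decide +kernel

theorem s8_V1_0 : chkSeam 13 (8 + 1) tV1_0 8 (13 * (8 + 1 - 1)) (Wt 2 ++ [12]) = true := by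
  decide +kernel

theorem s0_V1_0 : chkSeam 13 (8 + 1) tV1_0 0 19 (Wt 2 ++ [12]) = true := by
  decide +kernel

theorem k_V1_1 : chkFold 13 (8 + 1) (mkPat sgS (rhA 0) (F1 0 (GC true))) tV1_1 = true := by
  decide +kernel

theorem s8_V1_1 : chkSeam 13 (8 + 1) tV1_1 8 (13 * (8 + 1 - 1)) (Wt 0 ++ [12]) = true := by
  decide +kernel

theorem s0_V1_1 : chkSeam 13 (8 + 1) tV1_1 0 19 (Wt 0 ++ [12]) = true := by
  decide +kernel

theorem k_V3 : chkFold 1 (8 + 1) (mkPat sgS (rhA 18) F0) tV3 = true := by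
  decide +kernel

theorem s8_V3 : chkSeam 1 (8 + 1) tV3 8 (1 * (8 + 1 - 1)) ([0]) = true := by
  decide +kernel

theorem s0_V3 : chkSeam 1 (8 + 1) tV3 0 1 ([0]) = true := by
  decide +kernel

theorem k_V4_0_0 : chkFold 13 (8 + 1) (mkPat sgS (rhA 26) (F1 0 (fun d r => GB false d (r + 26)))) tV4_0_0 = true := by
  decide +kernel

theorem s8_V4_0_0 : chkSeam 13 (8 + 1) tV4_0_0 8 (13 * (8 + 1 - 1)) (Wt 0 ++ [12]) = true := by
  decide +kernel

theorem s0_V4_0_0 : chkSeam 13 (8 + 1) tV4_0_0 0 47 (Wt 0 ++ [12]) = true := by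
  decide +kernel

theorem k_V4_0_2 : chkFold 13 (8 + 1) (mkPat sgS (rhA 26) (F1 0 (fun d r => GB false d (r + 26)))) tV4_0_2 = true := by
  decide +kernel

theorem s8_V4_0_2 : chkSeam 13 (8 + 1) tV4_0_2 8 (13 * (8 + 1 - 1)) (Wt 2 ++ [12]) = true := by
  decide +kernel

theorem s0_V4_0_2 : chkSeam 13 (8 + 1) tV4_0_2 0 47 (Wt 2 ++ [12]) = true := by
  decide +kernel

theorem k_V4_1_0 : chkFold 13 (8 + 1) (mkPat sgS (rhA 26) (F1 0 (fun d r => GB true d (r + 26)))) tV4_1_0 = true := by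
  decide +kernel

theorem s8_V4_1_0 : chkSeam 13 (8 + 1) tV4_1_0 8 (13 * (8 + 1 - 1)) (Wt 0 ++ [12]) = true := by
  decide +kernel

theorem s0_V4_1_0 : chkSeam 13 (8 + 1) tV4_1_0 0 47 (Wt 0 ++ [12]) = true := by
  decide +kernel

theorem k_V4_1_2 : chkFold 13 (8 + 1) (mkPat sgS (rhA 26) (F1 0 (fun d r => GB true d (r + 26)))) tV4_1_2 = true := by
  decide +kernel

theorem s8_V4_1_2 : chkSeam 13 (8 + 1) tV4_1_2 8 (13 * (8 + 1 - 1)) (Wt 2 ++ [12]) = true := by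
  decide +kernel

theorem s0_V4_1_2 : chkSeam 13 (8 + 1) tV4_1_2 0 47 (Wt 2 ++ [12]) = true := by
  decide +kernel

theorem k_V5 : chkFold 1 (10 + 1) (mkPat sgS (rhA 34) F0) tV5 = true := by
  decide +kernel

theorem s10_V5 : chkSeam 1 (10 + 1) tV5 10 (1 * (10 + 1 - 1)) ([0]) = true := by
  decide +kernel

theorem s0_V5 : chkSeam 1 (10 + 1) tV5 0 1 ([0]) = true := by
  decide +kernel

theorem k_V6 : chkFold 1 (8 + 1) (mkPat sgS (rhA 44) F0) tV6 = true := by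
  decide +kernel

theorem s8_V6 : chkSeam 1 (8 + 1) tV6 8 (1 * (8 + 1 - 1)) ([0]) = true := by
  decide +kernel

theorem s0_V6 : chkSeam 1 (8 + 1) tV6 0 1 ([0]) = true := by
  decide +kernel

end Pool.Agent.Helper1.MF
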