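import Pool.Agent.Helper1.MF.Mk
import Pool.Agent.Helper1.MF.Tables

/-!
Map folding, completeness: kernel checks of the explicit windows.
-/

set_option autoImplicit false

namespace Pool.Agent.Helper1.MF

open Pool.Agent.Helper69.MF Pool.Agent.Helper64.MF

theorem k_V23_0_0 : chkFold 13 (18 + 1) (mkPat sgS (rhA 8) (F1 0 (fun d r => GY false d (r + 8)))) tV23_0_0 = true := by
  decide +kernel

theorem s18_V23_0_0 : chkSeam 13 (18 + 1) tV23_0_0 18 (13 * (18 + 1 - 1)) (Wt 0 ++ [12]) = true := by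
  decide +kernel

theorem s0_V23_0_0 : chkSeam 13 (18 + 1) tV23_0_0 0 0 (Wt 0 ++ [12]) = true := by
  decide +kernel

theorem k_V23_0_1 : chkFold 13 (18 + 1) (mkPat sgS (rhA 8) (F1 0 (fun d r => GY false d (r + 8)))) tV23_0_1 = true := by
  decide +kernel

theorem s18_V23_0_1 : chkSeam 13 (18 + 1) tV23_0_1 18 (13 * (18 + 1 - 1)) (Wt 1 ++ [12]) = true := by
  decide +kernel

theorem s0_V23_0_1 : chkSeam 13 (18 + 1) tV23_0_1 0 0 (Wt 1 ++ [12]) = true := by
  decide +kernel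

theorem k_V23_1_0 : chkFold 13 (18 + 1) (mkPat sgS (rhA 8) (F1 0 (fun d r => GY true d (r + 8)))) tV23_1_0 = true := by
  decide +kernel

theorem s18_V23_1_0 : chkSeam 13 (18 + 1) tV23_1_0 18 (13 * (18 + 1 - 1)) (Wt 0 ++ [12]) = true := by
  decide +kernel

theorem s0_V23_1_0 : chkSeam 13 (18 + 1) tV23_1_0 0 0 (Wt 0 ++ [12]) = true := by
  decide +kernel

theorem k_V23_1_1 : chkFold 13 (18 + 1) (mkPat sgS (rhA 8) (F1 0 (fun d r => GY true d (r + 8)))) tV23_1_1 = true := by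
  decide +kernel

theorem s18_V23_1_1 : chkSeam 13 (18 + 1) tV23_1_1 18 (13 * (18 + 1 - 1)) (Wt 1 ++ [12]) = true := by
  decide +kernel

theorem s0_V23_1_1 : chkSeam 13 (18 + 1) tV23_1_1 0 0 (Wt 1 ++ [12]) = true := by
  decide +kernel

theorem k_V45_0 : chkFold 13 (18 + 1) (mkPat sgS (rhA 26) (F1 0 (fun d r => GB false d (r + 26)))) tV45_0 = true := by
  decide +kernel

theorem s18_V45_0 : chkSeam 13 (18 + 1) tV45_0 18 (13 * (18 + 1 - 1)) (Wt 2 ++ [12]) = true := by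
  decide +kernel

theorem s0_V45_0 : chkSeam 13 (18 + 1) tV45_0 0 0 (Wt 2 ++ [12]) = true := by
  decide +kernel

theorem k_V45_1 : chkFold 13 (18 + 1) (mkPat sgS (rhA 26) (F1 0 (fun d r => GB true d (r + 26)))) tV45_1 = true := by
  decide +kernel

theorem s18_V45_1 : chkSeam 13 (18 + 1) tV45_1 18 (13 * (18 + 1 - 1)) (Wt 0 ++ [12]) = true := by
  decide +kernel

theorem s0_V45_1 : chkSeam 13 (18 + 1) tV45_1 0 0 (Wt 0 ++ [12]) = true := by
  decide +kernel

theorem k_V16_0 : chkFold 13 (16 + 1) (mkPat sgS rhN (F1 0 (GC false))) tV16_0 = true := by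
  decide +kernel

theorem s16_V16_0 : chkSeam 13 (16 + 1) tV16_0 16 (13 * (16 + 1 - 1)) (Wt 0 ++ [12]) = true := by
  decide +kernel

theorem s0_V16_0 : chkSeam 13 (16 + 1) tV16_0 0 0 (Wt 0 ++ [12]) = true := by
  decide +kernel

theorem s8_V16_0 : chkSeam 13 (16 + 1) tV16_0 8 70 (Wt 0 ++ [12]) = true := by
  decide +kernel

theorem k_V16_1 : chkFold 13 (16 + 1) (mkPat sgS rhN (F1 0 (GC true))) tV16_1 = true := by
  decide +kernel

theorem s16_V16_1 : chkSeam 13 (16 + 1) tV16_1 16 (13 * (16 + 1 - 1)) (Wt 2 ++ [12]) = true := by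
  decide +kernel

theorem s0_V16_1 : chkSeam 13 (16 + 1) tV16_1 0 0 (Wt 2 ++ [12]) = true := by
  decide +kernel

theorem s8_V16_1 : chkSeam 13 (16 + 1) tV16_1 8 70 (Wt 2 ++ [12]) = true := by
  decide +kernel

end Pool.Agent.Helper1.MF
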