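import Pool.Agent.Helper1.MF.Mk
import Pool.Agent.Helper1.MF.Tables

/-!
Map folding, completeness: kernel checks of the explicit windows.
-/

set_option autoImplicit false

namespace Pool.Agent.Helper1.MF

open Pool.Agent.Helper69.MF Pool.Agent.Helper64.MF

theorem k_V12_1_0 : chkFold 25 (18 + 1) (mkPat sgS (rhA 0) (F2 0 1 (GY false) (GC true))) tV12_1_0 = true := by
  decide +kernel

theorem s18_V12_1_0 : chkSeam 25 (18 + 1) tV12_1_0 18 (25 * (18 + 1 - 1)) (Wt 1 ++ (Wt 2).map (12 + ·) ++ [24]) = true := by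
  decide +kernel

theorem s0_V12_1_0 : chkSeam 25 (18 + 1) tV12_1_0 0 0 (Wt 1 ++ (Wt 2).map (12 + ·) ++ [24]) = true := by
  decide +kernel

theorem k_V12_1_1 : chkFold 25 (18 + 1) (mkPat sgS (rhA 0) (F2 0 1 (GY true) (GC true))) tV12_1_1 = true := by
  decide +kernel

theorem s18_V12_1_1 : chkSeam 25 (18 + 1) tV12_1_1 18 (25 * (18 + 1 - 1)) (Wt 0 ++ (Wt 2).map (12 + ·) ++ [24]) = true := by
  decide +kernel

theorem s0_V12_1_1 : chkSeam 25 (18 + 1) tV12_1_1 0 0 (Wt 0 ++ (Wt 2).map (12 + ·) ++ [24]) = true := by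
  decide +kernel

end Pool.Agent.Helper1.MF
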