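import Pool.Agent.Helper1.MF.Mk
import Pool.Agent.Helper1.MF.VK1
import Pool.Agent.Helper1.MF.VK2
import Pool.Agent.Helper1.MF.VK3
import Pool.Agent.Helper1.MF.VK4

/-!
Map folding, completeness, module VS (helper1): full-width strips, from the explicit windows.
The sheet has `K` blocks of 12 columns and one more column.
-/

set_option autoImplicit false

namespace Pool.Agent.Helper1.MF

open Pool.Agent.Helper69.MF Pool.Agent.Helper64.MF

variable (K : ℕ) (β : ℕ → ℕ)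

theorem v0 : Acc (mkPat sgS (fun _ => true) F0) (12 * K + 1) 0 (sp β) := by
  have h0 : Fold (mkPat sgS (fun _ => true) F0) (rect 1 1) (fun _ => 0) := by
    refine ⟨?_, ?_, ?_⟩
    · rintro ⟨a, b⟩ ⟨h1, h2⟩ ⟨c, d⟩ ⟨h3, h4⟩ _
      simp only at h1 h2 h3 h4
      rw [show a = c by omega, show b = d by omega]
    · rintro ⟨k, c, r⟩ ⟨h1, h2⟩
      exfalso
      cases k
      · simp only [Cr.fst, Cr.snd, Bool.false_eq_true, if_false, rect, Set.mem_ofPred_eq] at h1 h2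
        omega
      · simp only [Cr.fst, Cr.snd, if_true, rect, Set.mem_ofPred_eq] at h1 h2
        omega
    · intro x y _ _ _ h
      exact absurd h.1 (lt_irrefl _)
  obtain ⟨p', h1, h2⟩ := blow0 K β h0
  refine ⟨p', h1, h2.lr 0 (by omega) ?_, h2.ro 0 (by omega) rfl ?_⟩
  · intro c _ t ht hne
    omega
  · intro c hc c' hc'
    have : c = c' := by omega
    subst this
    simp

/-- First wall, state B, test not forced. -/
theorem v1 (s : Bool) (b : ℕ) (hb : b < K) (hβ : β b = if s then 0 else 2) :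
    Str (mkPat sgS (rhA 0) (F1 b (GC s))) (12 * K + 1) 8 (sp β) := by
  cases s
  · exact mk_str1 K β hb hβ (fun r => GC_zero _ r) rfl k_V1_0 s8_V1_0 s0_V1_0
  · exact mk_str1 K β hb hβ (fun r => GC_zero _ r) rfl k_V1_1 s8_V1_1 s0_V1_1

theorem v3 : Str (mkPat sgS (rhA 18) F0) (12 * K + 1) 8 (sp β) :=
  mk_str0 K β rfl k_V3 s8_V3 s0_V3

/-- Fourth wall, state B. -/
theorem v4 (s : Bool) (b : ℕ) (hb : b < K) (hβ : β b = 0 ∨ β b = 2) :
    Str (mkPat sgS (rhA 26) (F1 b (fun d r => GB s d (r + 26)))) (12 * K + 1) 8 (sp β) := by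
  cases s <;> rcases hβ with hβ | hβ
  · exact mk_str1 K β hb hβ (fun r => GB_zero _ _) rfl k_V4_0_0 s8_V4_0_0 s0_V4_0_0
  · exact mk_str1 K β hb hβ (fun r => GB_zero _ _) rfl k_V4_0_2 s8_V4_0_2 s0_V4_0_2
  · exact mk_str1 K β hb hβ (fun r => GB_zero _ _) rfl k_V4_1_0 s8_V4_1_0 s0_V4_1_0
  · exact mk_str1 K β hb hβ (fun r => GB_zero _ _) rfl k_V4_1_2 s8_V4_1_2 s0_V4_1_2

theorem v5 : Str (mkPat sgS (rhA 34) F0) (12 * K + 1) 10 (sp β) :=
  mk_str0 K β rfl k_V5 s10_V5 s0_V5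

theorem v6 : Str (mkPat sgS (rhA 44) F0) (12 * K + 1) 8 (sp β) :=
  mk_str0 K β rfl k_V6 s8_V6 s0_V6

/-- Second wall in state C, third wall in state B. -/
theorem v23 (s : Bool) (b : ℕ) (hb : b < K) (hβ : β b = 0 ∨ β b = 1) :
    Nst (mkPat sgS (rhA 8) (F1 b (fun d r => GY s d (r + 8)))) (12 * K + 1) 18 (sp β) := by
  cases s <;> rcases hβ with hβ | hβ
  · exact mk_nst1 K β hb hβ (fun r => GY_zero _ _) rfl k_V23_0_0 s18_V23_0_0 s0_V23_0_0
  · exact mk_nst1 K β hb hβ (fun r => GY_zero _ _) rfl k_V23_0_1 s18_V23_0_1 s0_V23_0_1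
  · exact mk_nst1 K β hb hβ (fun r => GY_zero _ _) rfl k_V23_1_0 s18_V23_1_0 s0_V23_1_0
  · exact mk_nst1 K β hb hβ (fun r => GY_zero _ _) rfl k_V23_1_1 s18_V23_1_1 s0_V23_1_1

/-- Fourth wall in state C (test not forced), fifth wall in state B. -/
theorem v45 (s : Bool) (b : ℕ) (hb : b < K) (hβ : β b = if s then 0 else 2) :
    Nst (mkPat sgS (rhA 26) (F1 b (fun d r => GB s d (r + 26)))) (12 * K + 1) 18 (sp β) := by
  cases s
  · exact mk_nst1 K β hb hβ (fun r => GB_zero _ _) rfl k_V45_0 s18_V45_0 s0_V45_0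
  · exact mk_nst1 K β hb hβ (fun r => GB_zero _ _) rfl k_V45_1 s18_V45_1 s0_V45_1

/-- First wall in state C (test forced), second wall in state B (test not forced). -/
theorem v12 (s s' : Bool) (b b' : ℕ) (hbb : b < b') (hb : b' < K)
    (hβ : β b = if s' then 0 else 1) (hβ' : β b' = if s then 2 else 0) :
    Nst (mkPat sgS (rhA 0) (F2 b b' (GY s') (GC s))) (12 * K + 1) 18 (sp β) := by
  cases s <;> cases s'
  · exact mk_nst2 K β hbb hb hβ hβ' (fun r => GY_zero _ _) (fun r => GC_zero _ _) rfl k_V12_0_0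
      s18_V12_0_0 s0_V12_0_0
  · exact mk_nst2 K β hbb hb hβ hβ' (fun r => GY_zero _ _) (fun r => GC_zero _ _) rfl k_V12_0_1
      s18_V12_0_1 s0_V12_0_1
  · exact mk_nst2 K β hbb hb hβ hβ' (fun r => GY_zero _ _) (fun r => GC_zero _ _) rfl k_V12_1_0
      s18_V12_1_0 s0_V12_1_0
  · exact mk_nst2 K β hbb hb hβ hβ' (fun r => GY_zero _ _) (fun r => GC_zero _ _) rfl k_V12_1_1
      s18_V12_1_1 s0_V12_1_1

/-- First wall in state C (test forced), sixth wall in state B, the rest of the group inserted at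
row 8. -/
theorem v16 (s : Bool) (b : ℕ) (hb : b < K) (hβ : β b = if s then 2 else 0) :
    Opn (mkPat sgS rhN (F1 b (GC s))) (12 * K + 1) 16 8 (sp β) := by
  cases s
  · exact mk_opn1 K β hb hβ (fun r => GC_zero _ r) rfl (by omega) rfl k_V16_0 s16_V16_0 s0_V16_0
      s8_V16_0
  · exact mk_opn1 K β hb hβ (fun r => GC_zero _ r) rfl (by omega) rfl k_V16_1 s16_V16_1 s0_V16_1
      s8_V16_1

end Pool.Agent.Helper1.MF
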