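import Pool.Agent.Helper1.MF.Rows
import Pool.Agent.Helper1.MF.Strips
import Pool.Agent.Helper1.MF.Vs

/-!
Map folding, completeness, module GROUP (helper83): one group of the sheet, and all groups.

Let `f = sp (beta I.N X Y)`, `n = 24 I.N + 1 = 12 (2 I.N) + 1`. Three cases, from `I.Ok X Y g`:
(ii) `X (lv g 0) ≠ ls g 0`: `Str` rows 0..8 (`st1`, `v1`), `Nst` rows 8..26 (`st23`, `v23`), `Str`
26..34 (`st4`, `v4`), 34..44 (`st5`, `v5`), 44..52 (`st6`, `v6`), glued to `Acc` by `acc_str`
(`Nst.str`).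
(iii) `X (lv g 0) = ls g 0`, `Y (lv g 1) ≠ ls g 1`: `Nst` rows 0..18 (`st12`, `v12`), then rows 18..26
(`st3`, `v3`), 26..34, 34..44, 44..52 as before.
(i) otherwise `X (lv g 2) ≠ ls g 2` and `X (lv g 0) = ls g 0`: `Nst` rows 8..26 and 26..44 (`st45`,
`v45`) glued by `nst_nst`, inserted by `opn_nst` with `st16`, `v16` (`h = 16`, `s = 8`, `k = 36`),
giving `Nst (up (52 g) I.pat) n 52 f`.
Patterns: `up a (up b A) = up (b + a) A` (write the small lemma), `up 0 A = A`.
-/

set_option autoImplicit false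

namespace Pool.Agent.Helper1.MF

open Pool.Agent.Helper69.MF Pool.Agent.Helper64.MF

theorem up_up (a b : ℕ) (A : Pat) : up a (up b A) = up (b + a) A := by
  unfold up
  congr 1 <;> funext c r
  · change A.H c (r + a + b) = A.H c (r + (b + a))
    rw [Nat.add_assoc, Nat.add_comm a b]
  · change A.V c (r + a + b) = A.V c (r + (b + a))
    rw [Nat.add_assoc, Nat.add_comm a b]

theorem beta_X {N : ℕ} {X Y : ℕ → Bool} (v : ℕ) :
    beta N X Y (N + v) = if X v then 2 else 0 := by
  unfold beta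
  rw [if_neg (by omega), Nat.add_sub_cancel_left]

theorem beta_Y {N : ℕ} {X Y : ℕ → Bool} {v : ℕ} (h : v < N) :
    beta N X Y v = if Y v then 1 else 0 := by
  unfold beta
  rw [if_pos h]

theorem acc_group (I : Sys) (hI : I.Wf) (X Y : ℕ → Bool) (g : ℕ) (hg : g < I.M)
    (hok : I.Ok X Y g)
    (H : Acc I.pat (12 * (2 * I.N) + 1) (52 * g) (sp (beta I.N X Y))) :
    Acc I.pat (12 * (2 * I.N) + 1) (52 * (g + 1)) (sp (beta I.N X Y)) := by
  have hn : 0 < 12 * (2 * I.N) + 1 := Nat.succ_pos _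
  have w0 := hI g hg 0 (by norm_num)
  have w1 := hI g hg 1 (by norm_num)
  have w2 := hI g hg 2 (by norm_num)
  have b0 : I.N + I.lv g 0 < 2 * I.N := by omega
  have b1 : I.lv g 1 < 2 * I.N := by omega
  have b2 : I.N + I.lv g 2 < 2 * I.N := by omega
  -- the last three strips
  have tail26 : Acc I.pat (12 * (2 * I.N) + 1) (52 * g + 26) (sp (beta I.N X Y)) →
      Acc I.pat (12 * (2 * I.N) + 1) (52 * (g + 1)) (sp (beta I.N X Y)) := by
    intro h26
    have h34 := acc_str hn (by norm_num) h26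
      (st4 I g _ _ (v4 (2 * I.N) (beta I.N X Y) (I.ls g 2) _ b2 (by
        rw [beta_X]
        cases X (I.lv g 2) <;> simp)))
    have h44 := acc_str (k := 10) hn (by norm_num) h34
      (st5 I g _ _ (v5 (2 * I.N) (beta I.N X Y)))
    have h52 := acc_str (k := 8) hn (by norm_num) h44
      (st6 I g _ _ (v6 (2 * I.N) (beta I.N X Y)))
    exact h52
  by_cases h0 : X (I.lv g 0) = I.ls g 0
  · by_cases h1 : Y (I.lv g 1) = I.ls g 1
    · -- nest
      have h2 : X (I.lv g 2) ≠ I.ls g 2 := fun h2 => hok ⟨h0, h1, h2⟩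
      have n23 := st23 I g _ _ (v23 (2 * I.N) (beta I.N X Y) (I.ls g 1) _ b1 (by
        rw [beta_Y w1]
        cases Y (I.lv g 1) <;> simp))
      have n45 := st45 I g _ _ (v45 (2 * I.N) (beta I.N X Y) (I.ls g 2) _ b2 (by
        rw [beta_X]
        revert h2
        cases X (I.lv g 2) <;> cases I.ls g 2 <;> simp))
      have e : up (52 * g + 26) I.pat = up 18 (up (52 * g + 8) I.pat) := by
        rw [up_up, Nat.add_assoc]
      rw [e] at n45
      have n36 := nst_nst hn (by norm_num) (by norm_num) n23 n45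
      have nn := opn_nst (s := 8) hn (by norm_num) (by norm_num) (by norm_num) (by norm_num)
        (v16 (2 * I.N) (beta I.N X Y) (I.ls g 0) _ b0 (by
          rw [beta_X, h0]))
        n36 (st16 I g _)
      exact acc_str hn (by norm_num) H nn.str
    · -- mode (iii)
      have n12 := st12 I g _ _ (v12 (2 * I.N) (beta I.N X Y) (I.ls g 0) (I.ls g 1) (I.lv g 1)
        (I.N + I.lv g 0) (by omega) b0 (by
          rw [beta_Y w1]
          revert h1
          cases Y (I.lv g 1) <;> cases I.ls g 1 <;> simp) (by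
          rw [beta_X, h0]))
      have h18 := acc_str hn (by norm_num) H n12.str
      have h26 := acc_str (k := 8) hn (by norm_num) h18
        (st3 I g _ _ (v3 (2 * I.N) (beta I.N X Y)))
      exact tail26 h26
  · -- mode (ii)
    have s1 := st1 I g _ _ (v1 (2 * I.N) (beta I.N X Y) (I.ls g 0) _ b0 (by
      rw [beta_X]
      revert h0
      cases X (I.lv g 0) <;> cases I.ls g 0 <;> simp))
    have h8 := acc_str hn (by norm_num) H s1
    have n23 := st23 I g _ _ (v23 (2 * I.N) (beta I.N X Y) (I.ls g 1) _ b1 (by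
      rw [beta_Y w1]
      cases Y (I.lv g 1) <;> simp))
    have h26 := acc_str (k := 18) hn (by norm_num) h8 n23.str
    exact tail26 h26

/-- Completeness. -/
theorem complete (I : Sys) (hI : I.Wf) (hS : I.Sat) : Foldable I.pat I.width I.height := by
  obtain ⟨X, Y, hok⟩ := hS
  have key : ∀ g, g ≤ I.M →
      Acc I.pat (12 * (2 * I.N) + 1) (52 * g) (sp (beta I.N X Y)) := by
    intro g
    induction g with
    | zero => exact fun _ => st0 I _ _ (v0 (2 * I.N) (beta I.N X Y))
    | succ g ih =>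
      intro hg
      exact acc_group I hI X Y g hg (hok g hg) (ih (Nat.le_of_succ_le hg))
  obtain ⟨p, hp, _⟩ := key I.M le_rfl
  refine ⟨p, hp.mono ?_⟩
  rintro ⟨c, r⟩ ⟨hc, hr⟩
  refine ⟨?_, hr⟩
  have hc' : c < 24 * I.N := hc
  change c < 12 * (2 * I.N) + 1
  omega

end Pool.Agent.Helper1.MF
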