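import Pool.Agent.Helper1.MF.Final
import Pool.Agent.Helper1.MF.Group
import Pool.Agent.Helper89.MF.Sound

/-!
Assigned flat-foldability of rectangular grid crease patterns is NP-hard.
-/

set_option autoImplicit false

namespace Pool.Agent.Helper1.MF

open Computability Pool.Agent.Helper81.MFD Pool.Agent.Helper69.MF

theorem np_hard (L : Set (List Bool)) (hL : Helper68.NP.InNP L) :
    ∃ f : List Bool → Inst,
      Nonempty (Turing.TM2ComputableInPolyTime (id : List Bool → List Bool) encodeInst f) ∧
      ∀ w, w ∈ L ↔ (f w).FlatFoldable :=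
  np_hard_of (fun I hI _ h => Pool.Agent.Helper89.MF.sound (I := I) hI h)
    (fun I hI _ h => complete I hI h) L hL

end Pool.Agent.Helper1.MF
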