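import Pool.Agent.Helper1.MF.Blow
import Pool.Agent.Helper1.MF.Chk

/-!
Map folding, completeness: full-width strips from checked tables.
-/

set_option autoImplicit false

namespace Pool.Agent.Helper1.MF

open Pool.Agent.Helper69.MF Pool.Agent.Helper64.MF

section

variable {rh : ℕ → Bool} {T : List (List ℕ)} {h : ℕ} (K : ℕ) (β : ℕ → ℕ)

/-- No gadget, one column. -/
theorem mk_str0 {b0 : ℕ} (hh : h % 2 = 0)
    (k1 : chkFold 1 (h + 1) (mkPat sgS rh F0) T = true)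
    (k2 : chkSeam 1 (h + 1) T h (1 * (h + 1 - 1)) [0] = true)
    (k3 : chkSeam 1 (h + 1) T 0 b0 [0] = true) :
    Str (mkPat sgS rh F0) (12 * K + 1) h (sp β) := by
  obtain ⟨p', h1, h2⟩ := blow0 K β (chkFold_spec k1)
  have e : (fun c => ([0] : List ℕ).getD c 0) = fun _ => 0 := by
    funext c
    match c with
    | 0 => rfl
    | (c + 1) => rfl
  refine ⟨p', h1, h2.lr h (by omega) (chkSeam_last k1 k2),
    h2.ro h (by omega) hh ?_, h2.ct 0 (by omega) (chkSeam_contig k3),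
    h2.ro 0 (by omega) rfl ?_⟩
  · rw [← e]; exact chkSeam_ord k2
  · rw [← e]; exact chkSeam_ord k3

variable {G G' : ℕ → ℕ → Bool}

/-- One gadget. -/
theorem mk_str1 {b c b0 : ℕ} (hb : b < K) (hβ : β b = c) (hG : ∀ r, G 0 r = false)
    (hh : h % 2 = 0)
    (k1 : chkFold 13 (h + 1) (mkPat sgS rh (F1 0 G)) T = true)
    (k2 : chkSeam 13 (h + 1) T h (13 * (h + 1 - 1)) (Wt c ++ [12]) = true)
    (k3 : chkSeam 13 (h + 1) T 0 b0 (Wt c ++ [12]) = true) :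
    Str (mkPat sgS rh (F1 b G)) (12 * K + 1) h (sp β) := by
  obtain ⟨p', h1, h2⟩ := blow1 K b hb β hG (chkFold_spec k1)
  rw [hβ] at h2
  exact ⟨p', h1, h2.lr h (by omega) (chkSeam_last k1 k2), h2.ro h (by omega) hh (chkSeam_ord k2),
    h2.ct 0 (by omega) (chkSeam_contig k3), h2.ro 0 (by omega) rfl (chkSeam_ord k3)⟩

theorem mk_nst1 {b c : ℕ} (hb : b < K) (hβ : β b = c) (hG : ∀ r, G 0 r = false)
    (hh : h % 2 = 0)
    (k1 : chkFold 13 (h + 1) (mkPat sgS rh (F1 0 G)) T = true)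
    (k2 : chkSeam 13 (h + 1) T h (13 * (h + 1 - 1)) (Wt c ++ [12]) = true)
    (k3 : chkSeam 13 (h + 1) T 0 0 (Wt c ++ [12]) = true) :
    Nst (mkPat sgS rh (F1 b G)) (12 * K + 1) h (sp β) := by
  obtain ⟨p', h1, h2⟩ := blow1 K b hb β hG (chkFold_spec k1)
  rw [hβ] at h2
  exact ⟨p', h1, h2.lr h (by omega) (chkSeam_last k1 k2), h2.ro h (by omega) hh (chkSeam_ord k2),
    h2.fr 0 (by omega) (chkSeam_first k3), h2.ro 0 (by omega) rfl (chkSeam_ord k3)⟩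

theorem mk_opn1 {b c s b1 : ℕ} (hb : b < K) (hβ : β b = c) (hG : ∀ r, G 0 r = false)
    (hh : h % 2 = 0) (hs : s < h + 1) (hs2 : s % 2 = 0)
    (k1 : chkFold 13 (h + 1) (mkPat sgS rh (F1 0 G)) T = true)
    (k2 : chkSeam 13 (h + 1) T h (13 * (h + 1 - 1)) (Wt c ++ [12]) = true)
    (k3 : chkSeam 13 (h + 1) T 0 0 (Wt c ++ [12]) = true)
    (k4 : chkSeam 13 (h + 1) T s b1 (Wt c ++ [12]) = true) :
    Opn (mkPat sgS rh (F1 b G)) (12 * K + 1) h s (sp β) := by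
  obtain ⟨p', h1, h2⟩ := blow1 K b hb β hG (chkFold_spec k1)
  rw [hβ] at h2
  exact ⟨p', h1, h2.lr h (by omega) (chkSeam_last k1 k2), h2.ro h (by omega) hh (chkSeam_ord k2),
    h2.fr 0 (by omega) (chkSeam_first k3), h2.ro 0 (by omega) rfl (chkSeam_ord k3),
    h2.ct s hs (chkSeam_contig k4), h2.ro s hs hs2 (chkSeam_ord k4)⟩

/-- Two gadgets. -/
theorem mk_nst2 {b b' c c' : ℕ} (hbb : b < b') (hb : b' < K) (hβ : β b = c) (hβ' : β b' = c')
    (hG : ∀ r, G 0 r = false) (hG' : ∀ r, G' 0 r = false) (hh : h % 2 = 0)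
    (k1 : chkFold 25 (h + 1) (mkPat sgS rh (F2 0 1 G G')) T = true)
    (k2 : chkSeam 25 (h + 1) T h (25 * (h + 1 - 1)) (Wt c ++ (Wt c').map (12 + ·) ++ [24]) = true)
    (k3 : chkSeam 25 (h + 1) T 0 0 (Wt c ++ (Wt c').map (12 + ·) ++ [24]) = true) :
    Nst (mkPat sgS rh (F2 b b' G G')) (12 * K + 1) h (sp β) := by
  obtain ⟨p', h1, h2⟩ := blow2 K b b' hbb hb β hG hG' (chkFold_spec k1)
  rw [hβ, hβ'] at h2
  exact ⟨p', h1, h2.lr h (by omega) (chkSeam_last k1 k2), h2.ro h (by omega) hh (chkSeam_ord k2),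
    h2.fr 0 (by omega) (chkSeam_first k3), h2.ro 0 (by omega) rfl (chkSeam_ord k3)⟩

end

theorem GC_zero (s : Bool) (r : ℕ) : GC s 0 r = false := rfl

theorem GY_zero (s : Bool) (r : ℕ) : GY s 0 r = false := rfl

theorem GB_zero (s : Bool) (r : ℕ) : GB s 0 r = false := rfl

end Pool.Agent.Helper1.MF
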