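import Pool.Agent.Helper1.MF.Cnf
import Pool.Agent.Helper81.MFD.OfPat

/-!
Instances given by patterns which are computable in polynomial time are computable in polynomial
time on Turing machines.
-/

set_option autoImplicit false

namespace Pool.Agent.Helper1.MF

open Helper68.Una Computability Pool.Agent.Helper81.MFD Pool.Agent.Helper69.MF

/-- The blocks of the output: empty, the two bits, the comma. -/
def tbl : List (List Γ') := [[], [Γ'.bit false], [Γ'.bit true], [Γ'.comma]]

/-- Code of a label. -/
def labCode (i j : ℕ) (d : Bool) : ℕ := if (d = true ↔ (i + j) % 2 = 0) then 1 else 2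

theorem labCode_spec (i j : ℕ) (d : Bool) :
    tbl.getD (labCode i j d) [] = [Γ'.bit (lab i j d).bit] := by
  unfold labCode lab
  by_cases h : (i + j) % 2 = 0 <;> cases d <;> simp [h, tbl, MV.bit]

open scoped Classical in
/-- The blocks of the encoding of the instance of a pattern. -/
noncomputable def blk (A : Pat) (n m i : ℕ) : ℕ :=
  if i < m then 2
  else if i < m + 1 then 3
  else if i < m + 1 + n then 2
  else if i < m + 1 + n + 1 then 3
  else if i < m + 1 + n + 1 + m * (n - 1) then
    labCode ((i - (m + 1 + n + 1)) % (n - 1)) ((i - (m + 1 + n + 1)) / (n - 1))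
      (A.H ((i - (m + 1 + n + 1)) % (n - 1)) ((i - (m + 1 + n + 1)) / (n - 1)))
  else labCode ((i - (m + 1 + n + 1 + m * (n - 1))) % n) ((i - (m + 1 + n + 1 + m * (n - 1))) / n)
      (A.V ((i - (m + 1 + n + 1 + m * (n - 1))) % n) ((i - (m + 1 + n + 1 + m * (n - 1))) / n))

theorem range_flat_add {β : Type} (a b : ℕ) (f : ℕ → List β) :
    (List.range (a + b)).flatMap f =
      (List.range a).flatMap f ++ (List.range b).flatMap (fun i => f (a + i)) := by
  rw [List.range_add, List.flatMap_append, List.flatMap_map]

theorem range_flat_mul {β : Type} (a b : ℕ) (f : ℕ → List β) :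
    (List.range (a * b)).flatMap f =
      (List.range a).flatMap (fun j => (List.range b).flatMap (fun i => f (j * b + i))) := by
  induction a with
  | zero => simp
  | succ a ih =>
    rw [Nat.add_mul, Nat.one_mul, range_flat_add, ih, List.range_succ, List.flatMap_append]
    simp

theorem flat_const {β : Type} (a : ℕ) (x : β) :
    (List.range a).flatMap (fun _ => [x]) = List.replicate a x := by
  induction a with
  | zero => simp
  | succ a ih => rw [List.range_succ, List.flatMap_append, ih, List.replicate_succ']; simp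

theorem flat_congr {β : Type} (a : ℕ) (f g : ℕ → List β) (h : ∀ i, i < a → f i = g i) :
    (List.range a).flatMap f = (List.range a).flatMap g := by
  induction a with
  | zero => simp
  | succ a ih =>
    rw [List.range_succ, List.flatMap_append, List.flatMap_append,
      ih (fun i hi => h i (by omega))]
    simp [h a (by omega)]

theorem flat_single {β : Type} (a : ℕ) (f : ℕ → β) :
    (List.range a).flatMap (fun i => [f i]) = (List.range a).map f := by
  induction a with
  | zero => simp
  | succ a ih => rw [List.range_succ, List.flatMap_append, List.map_append, ih]; simp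

theorem encode_blk (A : Pat) (n m : ℕ) (hn : 0 < n) (hm : 0 < m) :
    encodeInst (ofPat A n m hn hm) =
      (List.range (m + 1 + n + 1 + m * (n - 1) + (m - 1) * n)).flatMap
        (fun i => tbl.getD (blk A n m i) []) := by
  have e2 : tbl.getD 2 [] = [Γ'.bit true] := rfl
  have e3 : tbl.getD 3 [] = [Γ'.comma] := rfl
  rw [range_flat_add (m + 1 + n + 1 + m * (n - 1)), range_flat_add (m + 1 + n + 1),
    range_flat_add (m + 1 + n), range_flat_add (m + 1), range_flat_add m]
  have p1 : (List.range m).flatMap (fun i => tbl.getD (blk A n m i) []) =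
      List.replicate m (Γ'.bit true) := by
    rw [← flat_const]
    refine flat_congr _ _ _ (fun i hi => ?_)
    unfold blk
    rw [if_pos hi, e2]
  have p2 : (List.range 1).flatMap (fun i => tbl.getD (blk A n m (m + i)) []) = [Γ'.comma] := by
    have e1 : (List.range 1).flatMap (fun _ => [Γ'.comma]) = [Γ'.comma] := flat_const 1 Γ'.comma
    rw [← e1]
    refine flat_congr _ _ _ (fun i hi => ?_)
    unfold blk
    rw [if_neg (by omega), if_pos (by omega), e3]
  have p3 : (List.range n).flatMap (fun i => tbl.getD (blk A n m (m + 1 + i)) []) =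
      List.replicate n (Γ'.bit true) := by
    rw [← flat_const]
    refine flat_congr _ _ _ (fun i hi => ?_)
    unfold blk
    rw [if_neg (by omega), if_neg (by omega), if_pos (by omega), e2]
  have p4 : (List.range 1).flatMap (fun i => tbl.getD (blk A n m (m + 1 + n + i)) []) =
      [Γ'.comma] := by
    have e1 : (List.range 1).flatMap (fun _ => [Γ'.comma]) = [Γ'.comma] := flat_const 1 Γ'.comma
    rw [← e1]
    refine flat_congr _ _ _ (fun i hi => ?_)
    unfold blk
    rw [if_neg (by omega), if_neg (by omega), if_neg (by omega), if_pos (by omega), e3]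
  have p5 : (List.range (m * (n - 1))).flatMap
      (fun i => tbl.getD (blk A n m (m + 1 + n + 1 + i)) []) =
      (List.range m).flatMap (fun j => (List.range (n - 1)).map
        (fun i => Γ'.bit (lab i j (A.H i j)).bit)) := by
    rw [range_flat_mul]
    refine flat_congr _ _ _ (fun j hj => ?_)
    rw [← flat_single]
    refine flat_congr _ _ _ (fun i hi => ?_)
    have h1 : j * (n - 1) + i < m * (n - 1) := var_mul hj hi
    have h2 : (j * (n - 1) + i) % (n - 1) = i := by
      rw [Nat.mul_comm, Nat.mul_add_mod, Nat.mod_eq_of_lt hi]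
    have h3 : (j * (n - 1) + i) / (n - 1) = j := by
      rw [Nat.mul_comm, Nat.mul_add_div (by omega), Nat.div_eq_of_lt hi, Nat.add_zero]
    unfold blk
    rw [if_neg (by omega), if_neg (by omega), if_neg (by omega), if_neg (by omega),
      if_pos (by omega), Nat.add_sub_cancel_left, h2, h3, labCode_spec]
  have p6 : (List.range ((m - 1) * n)).flatMap
      (fun i => tbl.getD (blk A n m (m + 1 + n + 1 + m * (n - 1) + i)) []) =
      (List.range (m - 1)).flatMap (fun j => (List.range n).map
        (fun i => Γ'.bit (lab i j (A.V i j)).bit)) := by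
    rw [range_flat_mul]
    refine flat_congr _ _ _ (fun j hj => ?_)
    rw [← flat_single]
    refine flat_congr _ _ _ (fun i hi => ?_)
    have h2 : (j * n + i) % n = i := by
      rw [Nat.mul_comm, Nat.mul_add_mod, Nat.mod_eq_of_lt hi]
    have h3 : (j * n + i) / n = j := by
      rw [Nat.mul_comm, Nat.mul_add_div (by omega), Nat.div_eq_of_lt hi, Nat.add_zero]
    unfold blk
    rw [if_neg (by omega), if_neg (by omega), if_neg (by omega), if_neg (by omega),
      if_neg (by omega), Nat.add_sub_cancel_left, h2, h3, labCode_spec]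
  rw [p1, p2, p3, p4, p5, p6]
  simp only [encodeInst, ofPat, List.append_assoc, List.cons_append, List.nil_append]

/-- Computability of the labels. -/
theorem pu_labCode {A : List Bool → ℕ → ℕ → Bool} {c r : List Bool × ℕ → ℕ}
    (hA : PP (fun p : List Bool × ℕ => A p.1 (c p) (r p) = true)) (hc : PU c) (hr : PU r) :
    PU (fun p : List Bool × ℕ => labCode (c p) (r p) (A p.1 (c p) (r p))) := by
  have h1 : PP (fun p : List Bool × ℕ => (c p + r p) % 2 = 0) :=
    PP.eq ((hc.add hr).mod (PU.const 2)) (PU.const 0)
  have h2 : PP (fun p : List Bool × ℕ => (A p.1 (c p) (r p) = true ↔ (c p + r p) % 2 = 0)) :=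
    ((hA.imp h1).and (h1.imp hA)).congr (fun p => by tauto)
  classical
  refine (PU.ite h2 (PU.const 1) (PU.const 2)).congr (fun p => ?_)
  unfold labCode
  by_cases h : (A p.1 (c p) (r p) = true ↔ (c p + r p) % 2 = 0)
  · simp only [if_pos h]
  · simp only [if_neg h]

/-- The instance of a pattern computed in polynomial time is computed in polynomial time. -/
theorem polytime_ofPat (A : List Bool → Pat) (n m : List Bool → ℕ)
    (hn0 : ∀ w, 0 < n w) (hm0 : ∀ w, 0 < m w) (hn : PU n) (hm : PU m)
    (hH : ∀ c r : List Bool × ℕ → ℕ, PU c → PU r → PP (fun p => (A p.1).H (c p) (r p) = true))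
    (hV : ∀ c r : List Bool × ℕ → ℕ, PU c → PU r → PP (fun p => (A p.1).V (c p) (r p) = true)) :
    Nonempty (Turing.TM2ComputableInPolyTime (id : List Bool → List Bool) encodeInst
      (fun w => ofPat (A w) (n w) (m w) (hn0 w) (hm0 w))) := by
  have hm1 : PU (fun w => m w + 1) := hm.add (PU.const 1)
  have hm2 : PU (fun w => m w + 1 + n w) := hm1.add hn
  have hm3 : PU (fun w => m w + 1 + n w + 1) := hm2.add (PU.const 1)
  have hn1 : PU (fun w => n w - 1) := hn.sub (PU.const 1)
  have hm4 : PU (fun w => m w + 1 + n w + 1 + m w * (n w - 1)) := hm3.add (hm.mul hn1)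
  refine Helper68.Una.polytime
    (fun w => m w + 1 + n w + 1 + m w * (n w - 1) + (m w - 1) * n w)
    (fun w i => blk (A w) (n w) (m w) i) tbl
    (hm4.add ((hm.sub (PU.const 1)).mul hn)) ?_ encodeInst _
    (fun w => encode_blk (A w) (n w) (m w) (hn0 w) (hm0 w))
  classical
  have k5 : PU (fun p : List Bool × ℕ => p.2 - (m p.1 + 1 + n p.1 + 1)) := PU.snd.sub hm3.wk
  have k6 : PU (fun p : List Bool × ℕ =>
      p.2 - (m p.1 + 1 + n p.1 + 1 + m p.1 * (n p.1 - 1))) := PU.snd.sub hm4.wk
  have c5 : PU (fun p : List Bool × ℕ =>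
      (p.2 - (m p.1 + 1 + n p.1 + 1)) % (n p.1 - 1)) := k5.mod hn1.wk
  have r5 : PU (fun p : List Bool × ℕ =>
      (p.2 - (m p.1 + 1 + n p.1 + 1)) / (n p.1 - 1)) := k5.div hn1.wk
  have c6 : PU (fun p : List Bool × ℕ =>
      (p.2 - (m p.1 + 1 + n p.1 + 1 + m p.1 * (n p.1 - 1))) % n p.1) := k6.mod hn.wk
  have r6 : PU (fun p : List Bool × ℕ =>
      (p.2 - (m p.1 + 1 + n p.1 + 1 + m p.1 * (n p.1 - 1))) / n p.1) := k6.div hn.wk
  have l5 := pu_labCode (A := fun w c r => (A w).H c r) (hH _ _ c5 r5) c5 r5
  have l6 := pu_labCode (A := fun w c r => (A w).V c r) (hV _ _ c6 r6) c6 r6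
  exact PU.ite (PP.lt PU.snd hm.wk) (PU.const 2)
    (PU.ite (PP.lt PU.snd hm1.wk) (PU.const 3)
      (PU.ite (PP.lt PU.snd hm2.wk) (PU.const 2)
        (PU.ite (PP.lt PU.snd hm3.wk) (PU.const 3)
          (PU.ite (PP.lt PU.snd hm4.wk) l5 l6))))

end Pool.Agent.Helper1.MF
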