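import Pool.Agent.Helper1.MF.CDefs

/-!
Map folding, completeness, module ROWS (helper64): chaining and nesting of strips, from
`Pool.Agent.Helper64.MF.SubstRow`.
-/

set_option autoImplicit false

namespace Pool.Agent.Helper1.MF

open Pool.Agent.Helper69.MF Pool.Agent.Helper64.MF

theorem RowOrd.same {n : ℕ} {f : ℕ → ℕ} {p q : Sq → ℕ} {r r' : ℕ} (h : RowOrd n p r f)
    (h' : RowOrd n q r' f) : SameOrd n p r q r' :=
  fun c hc c' hc' => (h c hc c' hc').trans (h' c hc c' hc').symm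

theorem RowOrd.of_same {n : ℕ} {f : ℕ → ℕ} {p q : Sq → ℕ} {r r' : ℕ} (h : RowOrd n q r' f)
    (h' : SameOrd n p r q r') : RowOrd n p r f :=
  fun c hc c' hc' => (h' c hc c' hc').trans (h c hc c' hc')

theorem first_contig {n m : ℕ} {p : Sq → ℕ} {r : ℕ} (h : FirstRow n m p r) :
    Contig n m p r := fun c hc t ht htr => Or.inr fun c' hc' => h c hc t ht htr c' hc'

theorem acc_str {B : Pat} {n h k : ℕ} {f : ℕ → ℕ} (hn : 0 < n) (hk : 0 < k) (H1 : Acc B n h f)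
    (H2 : Str (up h B) n k f) : Acc B n (h + k) f := by
  obtain ⟨p2, F2, l2, s2h⟩ := H1
  obtain ⟨p1, F1, l1, s1k, c1, s10⟩ := H2
  obtain ⟨p, R, F⟩ := chain hn (Nat.succ_pos k) F2 F1 c1 l2 (s10.same s2h)
  have e : k + 1 + h = h + k + 1 := by omega
  rw [e] at F
  refine ⟨p, F, ?_, ?_⟩
  · have := R.last_out (t := k) (t' := k + h) (Nat.succ_pos k) (Nat.lt_succ_self k)
      (Or.inr ⟨rfl, hk⟩) l1
    rwa [e, Nat.add_comm k h] at this
  · have := s1k.of_same (R.same_out (t := k) (t' := k + h) (Nat.lt_succ_self k)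
      (Or.inr ⟨rfl, hk⟩))
    rwa [Nat.add_comm k h] at this

theorem nst_nst {B : Pat} {n h k : ℕ} {f : ℕ → ℕ} (hn : 0 < n) (_hh : 0 < h) (hk : 0 < k)
    (H1 : Nst B n h f) (H2 : Nst (up h B) n k f) : Nst B n (h + k) f := by
  obtain ⟨p2, F2, l2, s2h, f2, s20⟩ := H1
  obtain ⟨p1, F1, l1, s1k, f1, s10⟩ := H2
  obtain ⟨p, R, F⟩ := chain hn (Nat.succ_pos k) F2 F1 (first_contig f1) l2 (s10.same s2h)
  have e : k + 1 + h = h + k + 1 := by omega
  rw [e] at F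
  refine ⟨p, F, ?_, ?_, ?_, ?_⟩
  · have := R.last_out (t := k) (t' := k + h) (Nat.succ_pos k) (Nat.lt_succ_self k)
      (Or.inr ⟨rfl, hk⟩) l1
    rwa [e, Nat.add_comm k h] at this
  · have := s1k.of_same (R.same_out (t := k) (t' := k + h) (Nat.lt_succ_self k)
      (Or.inr ⟨rfl, hk⟩))
    rwa [Nat.add_comm k h] at this
  · have := R.first_in (Nat.succ_pos k) f1 (Nat.zero_le h) f2
    rwa [e] at this
  · exact s20.of_same (R.same_in (Nat.zero_le h))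

theorem opn_nst {A1 A2 B : Pat} {n h s k : ℕ} {f : ℕ → ℕ} (hn : 0 < n) (hs : 0 < s) (hsh : s < h)
    (_hk : 0 < k) (hk2 : k % 2 = 0) (H1 : Opn A1 n h s f) (H2 : Nst A2 n k f)
    (g : Agree n (h + 1) s k A1 A2 B) : Nst B n (h + k) f := by
  obtain ⟨p1, F1, l1, s1h, f1, s10, c1, s1s⟩ := H1
  obtain ⟨p2, F2, l2, s2k, f2, s20⟩ := H2
  obtain ⟨p, R⟩ := exists_rel (p2 := p2) (h := k) hn c1
  have hs1 : s < h + 1 := by omega
  have F := R.fold hs1 (Or.inr hk2) g F1 F2 c1 l2 (Or.inr f2) (s1s.same s2k)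
    (Or.inr (s1s.same s20))
  have e : h + 1 + k = h + k + 1 := by omega
  rw [e] at F
  refine ⟨p, F, ?_, ?_, ?_, ?_⟩
  · have := R.last_out hs1 (t := h) (t' := h + k) (Nat.lt_succ_self h) (Or.inr ⟨rfl, hsh⟩) l1
    rwa [e] at this
  · exact s1h.of_same (R.same_out (t := h) (t' := h + k) (Nat.lt_succ_self h)
      (Or.inr ⟨rfl, hsh⟩))
  · have := R.first_out hs1 (t := 0) (t' := 0) (Nat.succ_pos h) (Or.inl ⟨rfl, hs⟩) f1
    rwa [e] at this
  · exact s10.of_same (R.same_out (t := 0) (t' := 0) (Nat.succ_pos h) (Or.inl ⟨rfl, hs⟩))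

end Pool.Agent.Helper1.MF
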