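import Pool.Agent.Helper1.MF.Poly
import Pool.Agent.Helper69.MF.Sheet

/-!
The sheet of a constraint satisfaction problem is computable in polynomial time.
-/

set_option autoImplicit false

namespace Pool.Agent.Helper1.MF

open Helper68.Una Computability Pool.Agent.Helper81.MFD Pool.Agent.Helper69.MF

variable (D : CspData)

/-- The system of a word. -/
noncomputable def sys (w : List Bool) : Sys where
  N := (red D w).N
  M := (red D w).G
  lv := fun g t => if t = 0 then (red D w).v1 g else if t = 1 then (red D w).v2 g
    else (red D w).v3 g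
  ls := fun g t => if t = 0 then (red D w).s1 g else if t = 1 then (red D w).s2 g
    else (red D w).s3 g

theorem sys_sat (w : List Bool) : (sys D w).Sat ↔ D.Sat w := by
  rw [← red_sat D w]
  unfold Sys.Sat Sys.Ok Cls.Sat
  simp [sys]

theorem sys_wf (w : List Bool) : (sys D w).Wf := by
  intro g hg t ht
  change g < (red D w).G at hg
  have ht' : t = 0 ∨ t = 1 ∨ t = 2 := by omega
  rcases ht' with rfl | rfl | rfl
  · simpa [sys] using red_v1_lt D hg
  · simpa [sys] using red_v2_lt D hg
  · simpa [sys] using red_v3_lt D hg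

section

variable {α : Type} [Ctx α]

theorem pb_xor {x y : α → Bool} (hx : PP (fun a => x a = true)) (hy : PP (fun a => y a = true)) :
    PP (fun a => (xor (x a) (y a)) = true) :=
  ((hx.and hy.not).or (hx.not.and hy)).congr (fun a => by cases x a <;> cases y a <;> simp)

theorem pb_and {x y : α → Bool} (hx : PP (fun a => x a = true)) (hy : PP (fun a => y a = true)) :
    PP (fun a => (x a && y a) = true) :=
  (hx.and hy).congr (fun a => by cases x a <;> cases y a <;> simp)

theorem pb_or {x y : α → Bool} (hx : PP (fun a => x a = true)) (hy : PP (fun a => y a = true)) :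
    PP (fun a => (x a || y a) = true) :=
  (hx.or hy).congr (fun a => by cases x a <;> cases y a <;> simp)

theorem pb_not {x : α → Bool} (hx : PP (fun a => x a = true)) :
    PP (fun a => (!(x a)) = true) :=
  hx.not.congr (fun a => by cases x a <;> simp)

theorem pb_beq {f g : α → ℕ} (hf : PU f) (hg : PU g) : PP (fun a => (f a == g a) = true) :=
  (PP.eq hf hg).congr (fun a => by simp)

theorem pb_ble {f g : α → ℕ} (hf : PU f) (hg : PU g) : PP (fun a => Nat.ble (f a) (g a) = true) :=
  (PP.le hf hg).congr (fun a => by rw [Nat.ble_eq])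

theorem pb_blt {f g : α → ℕ} (hf : PU f) (hg : PU g) : PP (fun a => Nat.blt (f a) (g a) = true) :=
  (PP.lt hf hg).congr (fun a => by rw [Nat.blt_eq])

theorem pb_contains (L : List ℕ) {f : α → ℕ} (hf : PU f) :
    PP (fun a => L.contains (f a) = true) := by
  induction L with
  | nil => exact PP.false.congr (fun a => by simp)
  | cons x L ih =>
    exact ((PP.eq hf (PU.const x)).or ih).congr (fun a => by
      simp only [List.contains_cons, Bool.or_eq_true, beq_iff_eq])

theorem pb_gadFl (G : List ℕ) (a0 : ℕ) {d e : α → ℕ} (hd : PU d) (he : PU e) :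
    PP (fun a => gadFl G a0 (d a) (e a) = true) := by
  unfold gadFl
  exact pb_and (pb_and (pb_ble (PU.const a0) he) (pb_blt he (PU.const _)))
    (pb_contains G (((PU.const 100).mul hd).add (he.sub (PU.const a0))))

theorem pb_gadSel (G : Bool → List ℕ) (a0 : ℕ) {s : α → Bool} {d e : α → ℕ}
    (hs : PP (fun a => s a = true)) (hd : PU d) (he : PU e) :
    PP (fun a => gadFl (G (s a)) a0 (d a) (e a) = true) := by
  refine ((hs.and (pb_gadFl (G true) a0 hd he)).or
    (hs.not.and (pb_gadFl (G false) a0 hd he))).congr (fun a => ?_)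
  cases h : s a <;> simp

end

theorem pu_lv {g : List Bool × ℕ → ℕ} (hg : PU g) (t : ℕ) :
    PU (fun p : List Bool × ℕ => (sys D p.1).lv (g p) t) := by
  by_cases h0 : t = 0
  · subst h0
    exact PU.subst (α := List Bool × ℕ) (f := fun p j => (red D p.1).v1 j) (g := g)
      (PU.mid (α := List Bool) (f := fun w j => (red D w).v1 j) (pu_v1 D)) hg
  · by_cases h1 : t = 1
    · subst h1
      exact PU.subst (α := List Bool × ℕ) (f := fun p j => (red D p.1).v2 j) (g := g)
        (PU.mid (α := List Bool) (f := fun w j => (red D w).v2 j) (pu_v2 D)) hg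
    · have h := PU.subst (α := List Bool × ℕ) (f := fun p j => (red D p.1).v3 j) (g := g)
        (PU.mid (α := List Bool) (f := fun w j => (red D w).v3 j) (pu_v3 D)) hg
      exact h.congr (fun p => by simp [sys, h0, h1])

theorem pb_ls {g : List Bool × ℕ → ℕ} (hg : PU g) (t : ℕ) :
    PP (fun p : List Bool × ℕ => (sys D p.1).ls (g p) t = true) := by
  by_cases h0 : t = 0
  · subst h0
    exact PP.subst (α := List Bool × ℕ) (Q := fun p j => (red D p.1).s1 j = true) (g := g)
      (PP.mid (α := List Bool) (Q := fun w j => (red D w).s1 j = true) (pp_s1 D)) hg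
  · by_cases h1 : t = 1
    · subst h1
      exact PP.subst (α := List Bool × ℕ) (Q := fun p j => (red D p.1).s2 j = true) (g := g)
        (PP.mid (α := List Bool) (Q := fun w j => (red D w).s2 j = true) (pp_s2 D)) hg
    · have h := PP.subst (α := List Bool × ℕ) (Q := fun p j => (red D p.1).s3 j = true) (g := g)
        (PP.mid (α := List Bool) (Q := fun w j => (red D w).s3 j = true) (pp_s3 D)) hg
      exact h.congr (fun p => by simp [sys, h0, h1])

theorem pu_N : PU (fun p : List Bool × ℕ => (sys D p.1).N) := (pu_cN D).wk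

theorem pb_flS {c r : List Bool × ℕ → ℕ} (hc : PU c) (hr : PU r) :
    PP (fun p : List Bool × ℕ => (sys D p.1).flS (c p) (r p) = true) := by
  have hb := hc.div (PU.const 12)
  have hd := hc.mod (PU.const 12)
  have hg := hr.div (PU.const 52)
  have he := hr.mod (PU.const 52)
  unfold Sys.flS inGad
  refine pb_and (pb_and (pb_ble (PU.const 2) hd) (pb_ble hd (PU.const 10)))
    (pb_or (pb_or ?_ ?_) ?_)
  · exact pb_and (pb_beq hb ((pu_N D).add (pu_lv D hg 0)))
      (pb_gadSel gadC 3 (pb_ls D hg 0) (hd.sub (PU.const 2)) he)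
  · exact pb_and (pb_beq hb (pu_lv D hg 1))
      (pb_gadSel gadC 12 (pb_ls D hg 1) ((PU.const 10).sub hd) he)
  · exact pb_and (pb_beq hb ((pu_N D).add (pu_lv D hg 2)))
      (pb_gadSel gadB 29 (pb_ls D hg 2) (hd.sub (PU.const 2)) he)

theorem pb_H {c r : List Bool × ℕ → ℕ} (hc : PU c) (hr : PU r) :
    PP (fun p : List Bool × ℕ => (sys D p.1).pat.H (c p) (r p) = true) := by
  refine pb_xor (pb_xor ?_ ?_) (pb_xor (pb_flS D hc hr) (pb_flS D (hc.add (PU.const 1)) hr))
  · exact pb_not (pb_contains _ (hc.mod (PU.const 12)))
  · exact pb_beq (hr.mod (PU.const 2)) (PU.const 1)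

theorem pb_V {c r : List Bool × ℕ → ℕ} (hc : PU c) (hr : PU r) :
    PP (fun p : List Bool × ℕ => (sys D p.1).pat.V (c p) (r p) = true) := by
  refine pb_xor ?_ (pb_xor (pb_flS D hc hr) (pb_flS D hc (hr.add (PU.const 1))))
  exact pb_not (pb_contains _ (hr.mod (PU.const 52)))

theorem width_pos (w : List Bool) : 0 < (sys D w).width := by
  have := red_N_pos D w
  change 0 < 24 * (red D w).N
  omega

theorem height_pos (w : List Bool) : 0 < (sys D w).height := by
  unfold Sys.height
  omega

theorem pu_width : PU (fun w : List Bool => (sys D w).width) := (PU.const 24).mul (pu_cN D)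

theorem pu_height : PU (fun w : List Bool => (sys D w).height) :=
  ((PU.const 52).mul (pu_cG D)).add (PU.const 1)

/-- The instance of a word. -/
noncomputable def mfInst (w : List Bool) : Inst :=
  ofPat (sys D w).pat (sys D w).width (sys D w).height (width_pos D w) (height_pos D w)

/-- The instance of a word is computable in polynomial time. -/
theorem polytime_mfInst :
    Nonempty (Turing.TM2ComputableInPolyTime (id : List Bool → List Bool) encodeInst
      (mfInst D)) :=
  polytime_ofPat (fun w => (sys D w).pat) (fun w => (sys D w).width) (fun w => (sys D w).height)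
    (width_pos D) (height_pos D) (pu_width D) (pu_height D) (fun _ _ hc hr => pb_H D hc hr)
    (fun _ _ hc hr => pb_V D hc hr)

end Pool.Agent.Helper1.MF
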