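import Pool.Agent.Helper1.MF.CDefs

/-!
Map folding, completeness, module STRAND (helper81): the standard order is a folding of the column
pattern `sgS`.
-/

set_option autoImplicit false

namespace Pool.Agent.Helper1.MF

open Pool.Agent.Helper69.MF

/-- Position of the square `d ≤ 12` of a block with code `k`, the square `12` being the first one of
the next block. -/
def loc (k d : ℕ) : ℕ := if d < 12 then (Wt k).getD d 0 else 12

theorem Wt_cases (n : ℕ) : ∃ k < 4, Wt n = Wt k := by
  match n with
  | 0 => exact ⟨0, by omega, rfl⟩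
  | 1 => exact ⟨1, by omega, rfl⟩
  | 2 => exact ⟨2, by omega, rfl⟩
  | n + 3 => exact ⟨3, by omega, rfl⟩

theorem Wt_zero (n : ℕ) : (Wt n).getD 0 0 = 0 := by
  obtain ⟨k, hk, he⟩ := Wt_cases n
  rw [he]
  clear he
  revert k
  decide

theorem Wt_lt (n : ℕ) (d : ℕ) : (Wt n).getD d 0 < 12 := by
  obtain ⟨k, hk, he⟩ := Wt_cases n
  rw [he]
  by_cases hd : d < 12
  · have : ∀ k < 4, ∀ d < 12, (Wt k).getD d 0 < 12 := by decide +kernel
    exact this k hk d hd
  · have hl : ∀ k < 4, (Wt k).length = 12 := by decide +kernel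
    have h := hl k hk
    rw [List.getD_eq_default _ _ (by omega)]
    omega

theorem Wt_inj (n : ℕ) {d e : ℕ} (hd : d < 12) (he : e < 12)
    (h : (Wt n).getD d 0 = (Wt n).getD e 0) : d = e := by
  obtain ⟨k, hk, hW⟩ := Wt_cases n
  rw [hW] at h
  have : ∀ k < 4, ∀ d < 12, ∀ e < 12, (Wt k).getD d 0 = (Wt k).getD e 0 → d = e := by
    decide +kernel
  exact this k hk d hd e he h

theorem loc_le (n d : ℕ) : loc n d ≤ 12 := by
  unfold loc
  split_ifs
  · exact (Wt_lt n d).le
  · exact le_rfl

theorem loc_dir (n : ℕ) {d : ℕ} (hd : d < 12) :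
    if ([3, 4, 7, 8].contains d) then loc n (d + 1) < loc n d else loc n d < loc n (d + 1) := by
  obtain ⟨k, hk, hW⟩ := Wt_cases n
  unfold loc
  rw [hW]
  have : ∀ k < 4, ∀ d < 12, if ([3, 4, 7, 8].contains d) then
      (if d + 1 < 12 then (Wt k).getD (d + 1) 0 else 12) < (if d < 12 then (Wt k).getD d 0 else 12)
      else (if d < 12 then (Wt k).getD d 0 else 12) <
        (if d + 1 < 12 then (Wt k).getD (d + 1) 0 else 12) := by decide +kernel
  exact this k hk d hd

/-- No two creases on the same side cross. -/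
def ncChk (k : ℕ) : Bool :=
  (List.range 12).all fun i => (List.range 12).all fun j =>
    (List.range 2).all fun s => (List.range 2).all fun t =>
      !(decide (i % 2 = j % 2) && (decide (loc k (i + s) < loc k (j + t)) &&
        (decide (loc k (j + t) < loc k (i + (1 - s))) &&
          decide (loc k (i + (1 - s)) < loc k (j + (1 - t))))))

theorem ncChk_ok : ∀ k < 4, ncChk k = true := by decide +kernel

theorem loc_nc (n : ℕ) {i j : ℕ} (hi : i < 12) (hj : j < 12) (hp : i % 2 = j % 2) (s t : Bool) :
    ¬ (loc n (i + s.toNat) < loc n (j + t.toNat) ∧ loc n (j + t.toNat) < loc n (i + (!s).toNat) ∧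
      loc n (i + (!s).toNat) < loc n (j + (!t).toNat)) := by
  obtain ⟨k, hk, hW⟩ := Wt_cases n
  have hl : ∀ d, loc n d = loc k d := fun d => by unfold loc; rw [hW]
  simp only [hl]
  have h0 := ncChk_ok k hk
  unfold ncChk at h0
  have h1 := List.all_eq_true.mp (List.all_eq_true.mp (List.all_eq_true.mp (List.all_eq_true.mp h0
    i (List.mem_range.mpr hi)) j (List.mem_range.mpr hj)) s.toNat
      (List.mem_range.mpr (by cases s <;> simp))) t.toNat (List.mem_range.mpr (by cases t <;> simp))
  have h2 : (!s).toNat = 1 - s.toNat := by cases s <;> rfl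
  have h3 : (!t).toNat = 1 - t.toNat := by cases t <;> rfl
  rw [h2, h3]
  rintro ⟨q1, q2, q3⟩
  simp only [hp, q1, q2, q3, decide_true, Bool.and_self, Bool.not_true, Bool.false_eq_true] at h1

/-- Positions of the squares of the block `b` and of the first square of the next block. -/
theorem sp_loc (β : ℕ → ℕ) (b : ℕ) {d : ℕ} (hd : d ≤ 12) : sp β (12 * b + d) = 12 * b + loc (β b) d := by
  unfold sp loc
  split_ifs with h
  · have h1 : (12 * b + d) / 12 = b := by omega
    have h2 : (12 * b + d) % 12 = d := by omega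
    rw [h1, h2]
  · have h1 : (12 * b + d) / 12 = b + 1 := by omega
    have h2 : (12 * b + d) % 12 = 0 := by omega
    rw [h1, h2, Wt_zero]
    omega

theorem sp_mul (β : ℕ → ℕ) (k : ℕ) : sp β (12 * k) = 12 * k := by
  have := sp_loc β k (d := 0) (by omega)
  rw [Nat.add_zero] at this
  rw [this]
  unfold loc
  rw [if_pos (by omega), Wt_zero, Nat.add_zero]

/-- A column stays in its block. -/
theorem sp_block (β : ℕ → ℕ) (c : ℕ) : sp β c / 12 = c / 12 := by
  have := Wt_lt (β (c / 12)) (c % 12)
  unfold sp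
  omega

theorem sp_inj (β : ℕ → ℕ) {c c' : ℕ} (h : sp β c = sp β c') : c = c' := by
  have h1 := sp_block β c
  have h2 := sp_block β c'
  have h3 : c / 12 = c' / 12 := by rw [← h1, ← h2, h]
  unfold sp at h
  rw [h3] at h
  have h4 : c % 12 = c' % 12 :=
    Wt_inj (β (c' / 12)) (Nat.mod_lt _ (by omega)) (Nat.mod_lt _ (by omega)) (by omega)
  omega

theorem sp_shift (β : ℕ → ℕ) (b c : ℕ) : sp β (12 * b + c) = 12 * b + sp (fun k => β (b + k)) c := by
  unfold sp
  have h1 : (12 * b + c) / 12 = b + c / 12 := by omega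
  have h2 : (12 * b + c) % 12 = c % 12 := by omega
  rw [h1, h2]
  ring

/-- `sp β` is a folding of the columns `0 .. 12 K`, for all codes. -/
theorem strand_sp (β : ℕ → ℕ) (K : ℕ) : Strand sgS (12 * K) (sp β) where
  inj i j _ _ h := sp_inj β h
  dir i hi := by
    obtain ⟨b, d, hd, rfl⟩ : ∃ b d, d < 12 ∧ i = 12 * b + d :=
      ⟨i / 12, i % 12, Nat.mod_lt _ (by omega), by omega⟩
    have h1 := sp_loc β b (d := d) (by omega)
    have h2 : sp β (12 * b + d + 1) = 12 * b + loc (β b) (d + 1) := by
      rw [Nat.add_assoc]; exact sp_loc β b (by omega)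
    have h3 := loc_dir (β b) hd
    have h4 : sgS (12 * b + d) = !([3, 4, 7, 8].contains d) := by
      unfold sgS
      have : (12 * b + d) % 12 = d := by omega
      rw [this]
    rw [h1, h2, h4]
    cases hc : [3, 4, 7, 8].contains d
    · rw [hc] at h3
      simp only [Bool.false_eq_true, if_false] at h3
      simp only [Bool.not_false, if_true]
      omega
    · rw [hc] at h3
      simp only [if_true] at h3
      simp only [Bool.not_true, Bool.false_eq_true, if_false]
      omega
  nc i j a b c d hi hj hp h1 h2 := by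
    obtain ⟨u, e, he, rfl⟩ : ∃ b d, d < 12 ∧ i = 12 * b + d :=
      ⟨i / 12, i % 12, Nat.mod_lt _ (by omega), by omega⟩
    obtain ⟨v, f, hf, rfl⟩ : ∃ b d, d < 12 ∧ j = 12 * b + d :=
      ⟨j / 12, j % 12, Nat.mod_lt _ (by omega), by omega⟩
    obtain ⟨s, ha, hb⟩ : ∃ s : Bool, a = 12 * u + (e + s.toNat) ∧ b = 12 * u + (e + (!s).toNat) := by
      rcases h1 with ⟨h, h'⟩ | ⟨h, h'⟩
      · exact ⟨false, by simp [h], by simp [h', Nat.add_assoc]⟩
      · exact ⟨true, by simp [h, Nat.add_assoc], by simp [h']⟩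
    obtain ⟨t, hc, hd⟩ : ∃ s : Bool, c = 12 * v + (f + s.toNat) ∧ d = 12 * v + (f + (!s).toNat) := by
      rcases h2 with ⟨h, h'⟩ | ⟨h, h'⟩
      · exact ⟨false, by simp [h], by simp [h', Nat.add_assoc]⟩
      · exact ⟨true, by simp [h, Nat.add_assoc], by simp [h']⟩
    have bs : ∀ s : Bool, s.toNat ≤ 1 := by decide
    have q1 := bs s
    have q2 := bs (!s)
    have q3 := bs t
    have q4 := bs (!t)
    have wa := sp_loc β u (d := e + s.toNat) (by omega)
    have wb := sp_loc β u (d := e + (!s).toNat) (by omega)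
    have wc := sp_loc β v (d := f + t.toNat) (by omega)
    have wd := sp_loc β v (d := f + (!t).toNat) (by omega)
    have la := loc_le (β u) (e + s.toNat)
    have lb := loc_le (β u) (e + (!s).toNat)
    have lc := loc_le (β v) (f + t.toNat)
    have ld := loc_le (β v) (f + (!t).toNat)
    rw [ha, hb, hc, hd, wa, wb, wc, wd]
    rcases lt_trichotomy u v with huv | rfl | huv
    · omega
    · have := loc_nc (β u) he hf (by omega) s t
      omega
    · omega
  lo i _ := by
    have : sp β 0 = 0 := by simpa using sp_mul β 0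
    omega
  hi i hi := by
    rw [sp_mul]
    rcases Nat.lt_or_ge i (12 * K) with h | h
    · have := sp_block β i
      omega
    · have : i = 12 * K := by omega
      rw [this, sp_mul]

end Pool.Agent.Helper1.MF
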